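import Pool.Agent.R684.PN.Stm

/-!
# PN-OP: the maps `f ↦ DD L f` are given by bounded operators
-/

set_option autoImplicit false

open scoped InnerProductSpace InnerProduct ENNReal

namespace Pool.Agent.R787.PNOP

open Pool.Agent.W649.ZL Pool.Agent.R684.PN

theorem nsq {X : Type} (f : lp (fun _ : X => ℂ) 2) : ‖f‖ ^ 2 = ∑' x, ‖f x‖ ^ 2 := by
  have h := lp.norm_rpow_eq_tsum (p := 2) (by norm_num) f
  simpa using h

section
variable {A H J : Type}

theorem mem_pull [DecidableEq J] (e : H → A) (he : Function.Injective e) (j : J)
    (f : lp (fun _ : A => ℂ) 2) :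
    Memℓp (fun x : H × J => if x.2 = j then f (e x.1) else 0) 2 := by
  rw [memlp_two_iff]
  have h1 := (memlp_two_iff _).1 f.2
  have h2 : Summable (fun x : H => ‖f (e x)‖ ^ 2) := h1.comp_injective he
  have hinj : Function.Injective (fun x : H => ((x, j) : H × J)) := by
    intro a b hab
    simpa using hab
  refine (hinj.summable_iff (fun x hx => ?_)).1 ?_
  · rcases x with ⟨x, j'⟩
    by_cases hj : j' = j
    · exact absurd ⟨x, by rw [hj]⟩ hx
    · simp [hj]
  · convert h2 using 1
    ext x
    simp

/-- the pull back, placed in the coordinate `j` -/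
noncomputable def pullFun [DecidableEq J] (e : H → A) (he : Function.Injective e) (j : J)
    (f : lp (fun _ : A => ℂ) 2) : EE H J :=
  ⟨fun x => if x.2 = j then f (e x.1) else 0, mem_pull e he j f⟩

theorem norm_pullFun_le [DecidableEq J] (e : H → A) (he : Function.Injective e) (j : J)
    (f : lp (fun _ : A => ℂ) 2) : ‖pullFun e he j f‖ ≤ ‖f‖ := by
  have key : ‖pullFun e he j f‖ ^ 2 ≤ ‖f‖ ^ 2 := by
    rw [nsq, nsq]
    have h1 := (memlp_two_iff _).1 f.2
    have hinj : Function.Injective (fun x : H => ((x, j) : H × J)) := by
      intro a b hab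
      simpa using hab
    have h3 : Function.support (fun x : H × J => ‖pullFun e he j f x‖ ^ 2)
        ⊆ Set.range (fun x : H => ((x, j) : H × J)) := by
      rintro ⟨x, j'⟩ hx
      by_cases hj : j' = j
      · exact ⟨x, by rw [hj]⟩
      · exfalso
        apply hx
        have : pullFun e he j f (x, j') = 0 := if_neg hj
        simp [this]
    rw [← hinj.tsum_eq h3]
    have e1 : (fun x : H => ‖pullFun e he j f (x, j)‖ ^ 2)
        = (fun y : A => ‖f y‖ ^ 2) ∘ e := by
      ext x
      have : pullFun e he j f (x, j) = f (e x) := if_pos rfl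
      rw [this]; rfl
    rw [e1]
    exact tsum_comp_le_tsum_of_inj h1 (fun _ => by positivity) he
  exact (sq_le_sq₀ (norm_nonneg _) (norm_nonneg _)).1 key

/-- the pull back as a bounded operator -/
noncomputable def pull [DecidableEq J] (e : H → A) (he : Function.Injective e) (j : J) :
    lp (fun _ : A => ℂ) 2 →L[ℂ] EE H J :=
  LinearMap.mkContinuous
    { toFun := pullFun e he j
      map_add' := fun f g => by
        ext x
        change (if x.2 = j then (f + g) (e x.1) else 0)
          = (if x.2 = j then f (e x.1) else 0) + (if x.2 = j then g (e x.1) else 0)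
        split_ifs
        · rfl
        · simp
      map_smul' := fun c f => by
        ext x
        change (if x.2 = j then (c • f) (e x.1) else 0)
          = c • (if x.2 = j then f (e x.1) else 0)
        split_ifs
        · rfl
        · simp } 1
    (fun h => by rw [one_mul]; exact norm_pullFun_le e he j h)

theorem pull_apply [DecidableEq J] (e : H → A) (he : Function.Injective e) (j : J)
    (f : lp (fun _ : A => ℂ) 2) (x : H × J) :
    pull e he j f x = if x.2 = j then f (e x.1) else 0 := rfl

end

/-- one word, one coordinate -/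
theorem exists_word {G H S J : Type} [Group G] [Group H] [DecidableEq J] (τ : S → G)
    (ι : H →* G) (hι : Function.Injective ι) (j : J) (L : List S) :
    ∀ g : G, ∃ B : EE G S →L[ℂ] EE H J, ∀ (f : EE G S) (h : H) (j' : J),
      B f (h, j') = if j' = j then DD τ L f (g * ι h) else 0 := by
  induction L with
  | nil =>
    intro g
    refine ⟨0, fun f h j' => ?_⟩
    simp [DD]
  | cons s L ih =>
    intro g
    obtain ⟨B, hB⟩ := ih ((τ s)⁻¹ * g)
    have he : Function.Injective (fun h : H => ((g * ι h, s) : G × S)) := by
      intro a b hab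
      simp only [Prod.mk.injEq, mul_right_inj, and_true] at hab
      exact hι hab
    refine ⟨pull (fun h : H => ((g * ι h, s) : G × S)) he j + B, fun f h j' => ?_⟩
    have e1 : (pull (fun h : H => ((g * ι h, s) : G × S)) he j + B) f (h, j') =
        pull (fun h : H => ((g * ι h, s) : G × S)) he j f (h, j') + B f (h, j') := rfl
    rw [e1, hB, pull_apply]
    by_cases hj : j' = j
    · simp only [hj, if_true, DD, mul_assoc]
    · simp [hj]

theorem t_OP : S_OP := by
  classical
  intro G H S J _ _ _ _ τ ι hι L
  choose B hB using fun j : J => exists_word (J := J) τ ι hι j (L j) 1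
  refine ⟨∑ j, B j, fun f h j => ?_⟩
  have e1 : (∑ i, B i) f (h, j) = ∑ i, B i f (h, j) := by
    rw [ContinuousLinearMap.sum_apply, lp.coeFn_sum, Finset.sum_apply]
  rw [e1]
  simp only [hB, one_mul]
  rw [Finset.sum_ite_eq]
  simp

end Pool.Agent.R787.PNOP
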