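import Mathlib

/-!
# Words, the expanding maps and their measure theory
-/

set_option autoImplicit false

open MeasureTheory Set Filter Topology

namespace Pool.Agent.R787.Beta

variable {β : ℝ} {m : ℕ}

/-- the digits -/
abbrev D (m : ℕ) := Fin (m + 1)

/-- the expanding map along a word -/
def T (β : ℝ) {m : ℕ} : List (D m) → ℝ → ℝ
  | [], x => x
  | d :: w, x => T β w (β * x - (d : ℕ))

@[simp] lemma T_nil (x : ℝ) : T β ([] : List (D m)) x = x := rfl

@[simp] lemma T_cons (d : D m) (w : List (D m)) (x : ℝ) :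
    T β (d :: w) x = T β w (β * x - (d : ℕ)) := rfl

lemma T_append (v w : List (D m)) (x : ℝ) : T β (v ++ w) x = T β w (T β v x) := by
  induction v generalizing x with
  | nil => rfl
  | cons d v ih => simp [ih]

lemma T_affine (w : List (D m)) (x : ℝ) : T β w x = β ^ w.length * x + T β w 0 := by
  induction w generalizing x with
  | nil => simp
  | cons d w ih =>
    rw [T_cons, T_cons, ih, ih (β * 0 - _), List.length_cons]
    ring

/-- the length of the interval of all expandable numbers -/
noncomputable def kap (β : ℝ) (m : ℕ) : ℝ := m / (β - 1)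

/-- the interval of all expandable numbers -/
noncomputable def II (β : ℝ) (m : ℕ) : Set ℝ := Icc 0 (kap β m)

/-- the standing hypotheses -/
structure Ok (β : ℝ) (m : ℕ) : Prop where
  one_lt : 1 < β
  m_pos : 1 ≤ m
  lt : β < m + 1

variable (h : Ok β m)

include h

lemma Ok.kap_gt : 1 < kap β m := by
  have := h.one_lt
  have := h.lt
  rw [kap, lt_div_iff₀ (by linarith)]
  linarith

lemma Ok.kap_eq : kap β m * β = kap β m + m := by
  have := h.one_lt
  have h1 : β - 1 ≠ 0 := by linarith
  rw [kap]
  field_simp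
  ring

lemma Ok.mem_of_step {d : D m} {x : ℝ} (hx : β * x - (d : ℕ) ∈ II β m) : x ∈ II β m := by
  have h1 := h.one_lt
  have h2 := h.kap_eq
  obtain ⟨h3, h4⟩ := hx
  have hd : ((d : ℕ) : ℝ) ≤ m := by exact_mod_cast Nat.lt_succ_iff.1 d.2
  have hd0 : (0 : ℝ) ≤ (d : ℕ) := by positivity
  constructor
  · by_contra hc
    push Not at hc
    nlinarith
  · by_contra hc
    push Not at hc
    nlinarith

lemma Ok.mem_of_T {w : List (D m)} {x : ℝ} (hx : T β w x ∈ II β m) : x ∈ II β m := by
  induction w generalizing x with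
  | nil => exact hx
  | cons d w ih => exact h.mem_of_step (ih hx)

lemma Ok.mem_of_append {v w : List (D m)} {x : ℝ} (hx : T β (v ++ w) x ∈ II β m) :
    T β v x ∈ II β m := by
  rw [T_append] at hx
  exact h.mem_of_T hx

lemma Ok.exists_digit {x : ℝ} (hx : x ∈ II β m) : ∃ d : D m, β * x - (d : ℕ) ∈ II β m := by
  have h1 := h.one_lt
  have h2 := h.kap_eq
  have h5 := h.kap_gt
  obtain ⟨h3, h4⟩ := hx
  have h0 : 0 ≤ β * x := by positivity
  by_cases hc : ⌊β * x⌋₊ ≤ m
  · refine ⟨⟨⌊β * x⌋₊, by omega⟩, ?_, ?_⟩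
    · have := Nat.floor_le h0
      simp only
      linarith
    · have := Nat.lt_floor_add_one (β * x)
      simp only
      linarith
  · push Not at hc
    refine ⟨Fin.last m, ?_, ?_⟩
    · have := Nat.floor_le h0
      have h6 : (m : ℝ) ≤ ⌊β * x⌋₊ := by exact_mod_cast hc.le
      simp only [Fin.val_last]
      linarith
    · simp only [Fin.val_last]
      nlinarith

lemma Ok.exists_word {x : ℝ} (hx : x ∈ II β m) (n : ℕ) :
    ∃ w : List (D m), w.length = n ∧ T β w x ∈ II β m := by
  induction n generalizing x with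
  | zero => exact ⟨[], rfl, hx⟩
  | succ n ih =>
    obtain ⟨d, hd⟩ := h.exists_digit hx
    obtain ⟨w, hw, hw'⟩ := ih hd
    exact ⟨d :: w, by simp [hw], hw'⟩

/-- the contraction factor -/
noncomputable def bb (β : ℝ) : ENNReal := ENNReal.ofReal β⁻¹

lemma Ok.vol_step (d : D m) (A : Set ℝ) :
    volume {x | β * x - (d : ℕ) ∈ A} = bb β * volume A := by
  have h1 := h.one_lt
  have h2 : {x | β * x - ((d : ℕ) : ℝ) ∈ A} =
      (β * ·) ⁻¹' ((fun y => y + -((d : ℕ) : ℝ)) ⁻¹' A) := by
    ext x
    simp [sub_eq_add_neg]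
  rw [h2, Real.volume_preimage_mul_left (by linarith), measure_preimage_add_right, bb,
    abs_of_pos (by positivity)]

lemma Ok.vol_word (w : List (D m)) (A : Set ℝ) :
    volume {x | T β w x ∈ A} = bb β ^ w.length * volume A := by
  induction w with
  | nil => simp
  | cons d w ih =>
    have h2 : {x | T β (d :: w) x ∈ A} = {x | β * x - ((d : ℕ) : ℝ) ∈ {y | T β w y ∈ A}} := rfl
    rw [h2, h.vol_step, ih, List.length_cons]
    ring

lemma Ok.vol_words (n : ℕ) (A : Set ℝ) :
    volume {x | ∃ w : List (D m), w.length = n ∧ T β w x ∈ A}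
      ≤ ((m + 1 : ℕ) * bb β) ^ n * volume A := by
  induction n with
  | zero =>
    simp only [pow_zero, one_mul]
    refine measure_mono ?_
    rintro x ⟨w, hw, hx⟩
    rw [List.length_eq_zero_iff.1 hw] at hx
    exact hx
  | succ n ih =>
    calc volume {x | ∃ w : List (D m), w.length = n + 1 ∧ T β w x ∈ A}
        ≤ volume (⋃ d : D m, {x | β * x - ((d : ℕ) : ℝ) ∈
            {y | ∃ w : List (D m), w.length = n ∧ T β w y ∈ A}}) := by
          refine measure_mono ?_
          rintro x ⟨w, hw, hx⟩
          cases w with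
          | nil => simp at hw
          | cons d w =>
            refine mem_iUnion.2 ⟨d, w, by simpa using hw, hx⟩
      _ ≤ ∑ d : D m, volume {x | β * x - ((d : ℕ) : ℝ) ∈
            {y | ∃ w : List (D m), w.length = n ∧ T β w y ∈ A}} := measure_iUnion_fintype_le _ _
      _ = (m + 1 : ℕ) * (bb β * volume {y | ∃ w : List (D m), w.length = n ∧ T β w y ∈ A}) := by
          simp only [h.vol_step, Finset.sum_const, Finset.card_univ, Fintype.card_fin, nsmul_eq_mul]
      _ ≤ (m + 1 : ℕ) * (bb β * (((m + 1 : ℕ) * bb β) ^ n * volume A)) := by gcongr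
      _ = ((m + 1 : ℕ) * bb β) ^ (n + 1) * volume A := by ring

omit h in
lemma continuous_T (w : List (D m)) : Continuous (T β w) := by
  induction w with
  | nil => exact continuous_id
  | cons d w ih => exact ih.comp (by fun_prop)

omit h in
lemma measurableSet_T (w : List (D m)) {A : Set ℝ} (hA : MeasurableSet A) :
    MeasurableSet {x | T β w x ∈ A} := (continuous_T w).measurable hA

omit h in
lemma measurableSet_II : MeasurableSet (II β m) := measurableSet_Icc

omit h in
lemma vol_II : volume (II β m) = ENNReal.ofReal (kap β m) := by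
  rw [II, Real.volume_Icc, sub_zero]

omit h in
lemma vol_II_ne_top : volume (II β m) ≠ ⊤ := by
  rw [vol_II]
  exact ENNReal.ofReal_ne_top

lemma Ok.vol_II_ne_zero : volume (II β m) ≠ 0 := by
  rw [vol_II]
  have := h.kap_gt
  simp only [ne_eq, ENNReal.ofReal_eq_zero, not_le]
  linarith

omit h in
lemma bb_ne_top : bb β ≠ ⊤ := ENNReal.ofReal_ne_top

lemma Ok.bb_ne_zero : bb β ≠ 0 := by
  have := h.one_lt
  simp only [bb, ne_eq, ENNReal.ofReal_eq_zero, not_le]
  positivity

lemma Ok.bb_pow_mul (n : ℕ) : ENNReal.ofReal (β ^ n) * bb β ^ n = 1 := by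
  have h1 := h.one_lt
  have h0 : (0 : ℝ) < β := by linarith
  rw [bb, ← ENNReal.ofReal_pow (by positivity), ← ENNReal.ofReal_mul (by positivity), ← mul_pow,
    mul_inv_cancel₀ h0.ne', one_pow, ENNReal.ofReal_one]

/-- a family of words of the same length can be thinned to bounded multiplicity: the set of points
which admit a word of the family but which all such words send into `B` is not larger than four
times `B` -/
lemma Ok.vol_bad {n : ℕ} {G : Set (List (D m))} (hG : ∀ u ∈ G, u.length = n) (B : Set ℝ) :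
    volume {z | (∃ u ∈ G, T β u z ∈ II β m) ∧ ∀ u ∈ G, T β u z ∈ II β m → T β u z ∈ B}
      ≤ 4 * volume B := by
  have h1 := h.one_lt
  have hk := h.kap_gt
  have hk0 : 0 < kap β m := by linarith
  have hb0 : 0 < β ^ n := by positivity
  have hb1 : 1 ≤ β ^ n := one_le_pow₀ h1.le
  set Z : ℕ → Set ℝ := fun k => {z | (∃ u ∈ G, ⌊-T β u 0 / kap β m⌋₊ = k ∧ T β u z ∈ II β m) ∧
    ∀ u ∈ G, T β u z ∈ II β m → T β u z ∈ B} with hZ
  have hcov : {z | (∃ u ∈ G, T β u z ∈ II β m) ∧ ∀ u ∈ G, T β u z ∈ II β m → T β u z ∈ B} ⊆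
      ⋃ k ∈ Finset.range (⌊β ^ n⌋₊ + 1), Z k := by
    rintro z ⟨⟨u, hu, hz⟩, hz'⟩
    refine mem_iUnion₂.2 ⟨⌊-T β u 0 / kap β m⌋₊, ?_, ⟨u, hu, rfl, hz⟩, hz'⟩
    rw [Finset.mem_range, Nat.lt_succ_iff]
    refine Nat.floor_le_floor ?_
    rw [div_le_iff₀ hk0]
    have h2 := h.mem_of_T hz
    have h3 := T_affine (β := β) u z
    rw [hG u hu] at h3
    have h4 := hz.1
    have h5 := h2.2
    nlinarith
  have hZk : ∀ k, volume (Z k) ≤ 2 * (bb β ^ n * volume B) := by
    intro k
    set S : Set (List (D m)) := {u | u ∈ G ∧ ⌊-T β u 0 / kap β m⌋₊ = k ∧ 0 ≤ -T β u 0} with hS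
    have hfin : S.Finite := (List.finite_length_eq (D m) n).subset fun u hu => hG u hu.1
    by_cases hne : S.Nonempty
    · obtain ⟨p, hp, hp'⟩ := Set.exists_min_image S (fun u => -T β u 0) hfin hne
      obtain ⟨r, hr, hr'⟩ := Set.exists_max_image S (fun u => -T β u 0) hfin hne
      have hsub : Z k ⊆ {z | T β p z ∈ B} ∪ {z | T β r z ∈ B} := by
        rintro z ⟨⟨u, hu, huk, hz⟩, hz'⟩
        have hc0 : ∀ w : List (D m), 0 ≤ -T β w 0 := by
          intro w
          have : ∀ x : ℝ, x ≤ 0 → T β w x ≤ 0 := by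
            induction w with
            | nil => intro x hx; simpa using hx
            | cons d w ih =>
              intro x hx
              refine ih _ ?_
              have : (0 : ℝ) ≤ (d : ℕ) := by positivity
              nlinarith
          linarith [this 0 le_rfl]
        have huS : u ∈ S := ⟨hu, huk, hc0 u⟩
        have e1 : -T β p 0 ≤ -T β u 0 := hp' u huS
        have e2 : -T β u 0 ≤ -T β r 0 := hr' u huS
        have fl : ∀ w ∈ S, (k : ℝ) * kap β m ≤ -T β w 0 ∧ -T β w 0 < (k + 1) * kap β m := by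
          intro w hw
          have h3 : 0 ≤ -T β w 0 / kap β m := div_nonneg hw.2.2 hk0.le
          have h4 := Nat.floor_le h3
          have h5 := Nat.lt_floor_add_one (-T β w 0 / kap β m)
          rw [hw.2.1] at h4 h5
          rw [le_div_iff₀ hk0] at h4
          rw [div_lt_iff₀ hk0] at h5
          exact ⟨h4, h5⟩
        have fp := fl p hp
        have fr := fl r hr
        have fu := fl u huS
        have hzu := T_affine (β := β) u z
        have hzp := T_affine (β := β) p z
        have hzr := T_affine (β := β) r z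
        rw [hG u hu] at hzu
        rw [hG p hp.1] at hzp
        rw [hG r hr.1] at hzr
        obtain ⟨g1, g2⟩ := hz
        by_cases hcase : β ^ n * z ≤ (k + 1) * kap β m
        · left
          refine hz' p hp.1 ⟨?_, ?_⟩
          · rw [hzp]; linarith
          · rw [hzp]
            have := fp.1
            nlinarith
        · right
          push Not at hcase
          refine hz' r hr.1 ⟨?_, ?_⟩
          · rw [hzr]
            have := fr.2
            linarith
          · rw [hzr]
            linarith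
      calc volume (Z k) ≤ volume ({z | T β p z ∈ B} ∪ {z | T β r z ∈ B}) := measure_mono hsub
        _ ≤ volume {z | T β p z ∈ B} + volume {z | T β r z ∈ B} := measure_union_le _ _
        _ = 2 * (bb β ^ n * volume B) := by
          rw [h.vol_word, h.vol_word, hG p hp.1, hG r hr.1]
          ring
    · have : Z k = ∅ := by
        rw [Set.eq_empty_iff_forall_notMem]
        rintro z ⟨⟨u, hu, huk, hz⟩, hz'⟩
        refine hne ⟨u, hu, huk, ?_⟩
        have : ∀ x : ℝ, x ≤ 0 → T β u x ≤ 0 := by
          clear hz hu huk hz'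
          induction u with
          | nil => intro x hx; simpa using hx
          | cons d w ih =>
            intro x hx
            refine ih _ ?_
            have : (0 : ℝ) ≤ (d : ℕ) := by positivity
            nlinarith
        linarith [this 0 le_rfl]
      rw [this]
      simp
  calc volume {z | (∃ u ∈ G, T β u z ∈ II β m) ∧ ∀ u ∈ G, T β u z ∈ II β m → T β u z ∈ B}
      ≤ volume (⋃ k ∈ Finset.range (⌊β ^ n⌋₊ + 1), Z k) := measure_mono hcov
    _ ≤ ∑ k ∈ Finset.range (⌊β ^ n⌋₊ + 1), volume (Z k) := measure_biUnion_finset_le _ _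
    _ ≤ ∑ _k ∈ Finset.range (⌊β ^ n⌋₊ + 1), 2 * (bb β ^ n * volume B) :=
        Finset.sum_le_sum fun k _ => hZk k
    _ = ((⌊β ^ n⌋₊ + 1 : ℕ) : ENNReal) * (2 * (bb β ^ n * volume B)) := by
        rw [Finset.sum_const, Finset.card_range, nsmul_eq_mul]
    _ ≤ ENNReal.ofReal (2 * β ^ n) * (2 * (bb β ^ n * volume B)) := by
        gcongr
        rw [← ENNReal.ofReal_natCast]
        refine ENNReal.ofReal_le_ofReal ?_
        have := Nat.floor_le hb0.le
        push_cast
        linarith
    _ = 4 * (ENNReal.ofReal (β ^ n) * bb β ^ n) * volume B := by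
        rw [ENNReal.ofReal_mul (by norm_num)]
        have : ENNReal.ofReal 2 = 2 := by norm_num
        rw [this]
        ring
    _ = 4 * volume B := by rw [h.bb_pow_mul, mul_one]

end Pool.Agent.R787.Beta
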