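import Pool.Agent.R787.BetaBasic

/-!
# Forward invariant sets are null or conull; uniqueness sets shrink
-/

set_option autoImplicit false

open MeasureTheory Set Filter Topology

namespace Pool.Agent.R787.Beta

variable {β : ℝ} {m : ℕ}

variable (h : Ok β m)

include h

/-- a forward invariant subset of the interval of positive measure has full measure -/
lemma Ok.full_of_invariant {H : Set ℝ} (hH : H ⊆ II β m)
    (hinv : ∀ w : List (D m), ∀ z ∈ H, T β w z ∈ II β m → T β w z ∈ H) (hpos : volume H ≠ 0) :
    volume (II β m) ≤ volume H := by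
  have h1 := h.one_lt
  have hk := h.kap_gt
  have h0 : (0 : ℝ) < β := by linarith
  have hk0 : 0 < kap β m := by linarith
  have hae := IsUnifLocDoublingMeasure.ae_tendsto_measure_inter_div (volume : Measure ℝ) H 1
  have hI : ∀ᵐ x ∂(volume.restrict H), x ∈ II β m := by
    have := ae_restrict_mem (μ := (volume : Measure ℝ)) (measurableSet_II (β := β) (m := m))
    exact ae_restrict_of_ae_restrict_of_subset hH this
  have hne : (volume.restrict H : Measure ℝ) ≠ 0 := by
    intro hc
    exact hpos (Measure.restrict_eq_zero.1 hc)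
  have : (ae (volume.restrict H : Measure ℝ)).NeBot := ae_neBot.2 hne
  obtain ⟨x, hx, hxI⟩ := (hae.and hI).exists
  choose w hw hwI using fun n => h.exists_word hxI n
  set c : ℕ → ℝ := fun n => (-T β (w n) 0 + kap β m / 2) / β ^ n with hc
  set δ : ℕ → ℝ := fun n => (kap β m / 2) / β ^ n with hδ
  have hδ0 : ∀ n, 0 < δ n := fun n => by positivity
  have hball : ∀ n, Metric.closedBall (c n) (δ n) = {z | T β (w n) z ∈ II β m} := by
    intro n
    have hb : 0 < β ^ n := by positivity
    ext z
    have h3 := T_affine (β := β) (w n) z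
    rw [hw n] at h3
    have e1 : c n - δ n = (-T β (w n) 0) / β ^ n := by
      simp only [hc, hδ]
      ring
    have e2 : c n + δ n = (-T β (w n) 0 + kap β m) / β ^ n := by
      simp only [hc, hδ]
      ring
    rw [Real.closedBall_eq_Icc, mem_Icc, e1, e2, div_le_iff₀ hb, le_div_iff₀ hb]
    show _ ↔ T β (w n) z ∈ Icc 0 (kap β m)
    rw [h3, mem_Icc]
    constructor
    · rintro ⟨g1, g2⟩
      constructor <;> linarith
    · rintro ⟨g1, g2⟩
      constructor <;> linarith
  have hlim : Tendsto δ atTop (𝓝[>] 0) := by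
    rw [tendsto_nhdsWithin_iff]
    refine ⟨?_, Eventually.of_forall hδ0⟩
    have := tendsto_inv_atTop_zero.comp (tendsto_pow_atTop_atTop_of_one_lt h1)
    have h2 := this.const_mul (kap β m / 2)
    rw [mul_zero] at h2
    refine h2.congr fun n => ?_
    simp [hδ, div_eq_mul_inv]
  have hx' := hx c δ hlim (Eventually.of_forall fun n => by
    rw [one_mul, hball]
    exact hwI n)
  have hbound : ∀ n, volume (H ∩ Metric.closedBall (c n) (δ n)) /
      volume (Metric.closedBall (c n) (δ n)) ≤ volume H / volume (II β m) := by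
    intro n
    rw [hball n, h.vol_word, hw n]
    have h2 : volume (H ∩ {z | T β (w n) z ∈ II β m}) ≤ bb β ^ n * volume H := by
      have h4 := h.vol_word (w n) H
      rw [hw n] at h4
      rw [← h4]
      refine measure_mono ?_
      rintro z ⟨hz, hz'⟩
      exact hinv _ _ hz hz'
    calc volume (H ∩ {z | T β (w n) z ∈ II β m}) / (bb β ^ n * volume (II β m))
        ≤ (bb β ^ n * volume H) / (bb β ^ n * volume (II β m)) := by gcongr
      _ = volume H / volume (II β m) := by
          refine ENNReal.mul_div_mul_left _ _ ?_ ?_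
          · exact pow_ne_zero _ h.bb_ne_zero
          · exact ENNReal.pow_ne_top bb_ne_top
  have h1' : 1 ≤ volume H / volume (II β m) := le_of_tendsto hx' (Eventually.of_forall hbound)
  rw [ENNReal.le_div_iff_mul_le (Or.inl h.vol_II_ne_zero) (Or.inl vol_II_ne_top), one_mul] at h1'
  exact h1'

/-- the points admitting at most one word of length `n` -/
def UU (β : ℝ) (m n : ℕ) : Set ℝ :=
  {z | z ∈ II β m ∧ ¬ ∃ v w : List (D m), v ≠ w ∧ v.length = n ∧ w.length = n ∧
    T β v z ∈ II β m ∧ T β w z ∈ II β m}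

omit h in
lemma measurableSet_UU (n : ℕ) : MeasurableSet (UU β m n) := by
  have : UU β m n = II β m \ ⋃ v : List (D m), ⋃ w : List (D m),
      ⋃ (_ : v ≠ w ∧ v.length = n ∧ w.length = n),
        {z | T β v z ∈ II β m} ∩ {z | T β w z ∈ II β m} := by
    ext z
    simp only [UU, mem_ofPred_eq, Set.mem_sdiff, mem_iUnion, mem_inter_iff, exists_prop]
    constructor
    · rintro ⟨h1, h2⟩
      refine ⟨h1, ?_⟩
      rintro ⟨v, w, ⟨h3, h4, h5⟩, h6, h7⟩
      exact h2 ⟨v, w, h3, h4, h5, h6, h7⟩
    · rintro ⟨h1, h2⟩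
      refine ⟨h1, ?_⟩
      rintro ⟨v, w, h3, h4, h5, h6, h7⟩
      exact h2 ⟨v, w, ⟨h3, h4, h5⟩, h6, h7⟩
  rw [this]
  refine measurableSet_II.diff ?_
  refine MeasurableSet.iUnion fun v => MeasurableSet.iUnion fun w => MeasurableSet.iUnion fun _ => ?_
  exact (measurableSet_T v measurableSet_II).inter (measurableSet_T w measurableSet_II)

lemma Ok.antitone_UU : Antitone (UU β m) := by
  refine antitone_nat_of_succ_le fun n => ?_
  rintro z ⟨hz, hz'⟩
  refine ⟨hz, ?_⟩
  rintro ⟨v, w, hne, hv, hw, hv', hw'⟩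
  obtain ⟨d, hd⟩ := h.exists_digit hv'
  obtain ⟨e, he⟩ := h.exists_digit hw'
  refine hz' ⟨v ++ [d], w ++ [e], ?_, by simp [hv], by simp [hw], by simpa [T_append] using hd,
    by simpa [T_append] using he⟩
  intro hc
  exact hne (List.append_inj_left hc (by rw [hv, hw]))

lemma Ok.tendsto_UU : Tendsto (fun n => volume (UU β m n)) atTop (𝓝 0) := by
  have h1 := h.one_lt
  have hk := h.kap_gt
  have h0 : (0 : ℝ) < β := by linarith
  have hlim := tendsto_measure_iInter_atTop (μ := (volume : Measure ℝ))
    (fun n => (measurableSet_UU (β := β) (m := m) n).nullMeasurableSet) h.antitone_UU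
    ⟨0, (measure_mono (fun z hz => hz.1)).trans_lt (lt_top_iff_ne_top.2 vol_II_ne_top) |>.ne⟩
  suffices hz : volume (⋂ n, UU β m n) = 0 by rwa [hz] at hlim
  by_contra hpos
  have hfull := h.full_of_invariant (H := ⋂ n, UU β m n) (fun z hz => (mem_iInter.1 hz 0).1) ?_ hpos
  · -- contradiction with the overlap
    have hsub : (⋂ n, UU β m n) ⊆ II β m \ Icc (1 / β) (kap β m / β) := by
      intro z hz
      refine ⟨(mem_iInter.1 hz 0).1, ?_⟩
      rintro ⟨g1, g2⟩
      rw [div_le_iff₀ h0] at g1
      rw [le_div_iff₀ h0] at g2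
      refine (mem_iInter.1 hz 1).2 ⟨[(0 : D m)], [⟨1, by have := h.m_pos; omega⟩], ?_, rfl, rfl,
        ?_, ?_⟩
      · intro hc
        have := congrArg (fun l : List (D m) => (l.head?.map (fun d => (d : ℕ)))) hc
        simp at this
      · simp only [T_cons, T_nil, Fin.val_zero, Nat.cast_zero, sub_zero]
        exact ⟨by linarith, by linarith⟩
      · simp only [T_cons, T_nil, Nat.cast_one]
        exact ⟨by linarith, by linarith⟩
    have hsub2 : Icc (1 / β) (kap β m / β) ⊆ II β m := by
      intro z hz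
      refine ⟨le_trans (by positivity) hz.1, hz.2.trans ?_⟩
      rw [div_le_iff₀ h0]
      nlinarith
    have h2 : volume (⋂ n, UU β m n) ≤ volume (II β m \ Icc (1 / β) (kap β m / β)) :=
      measure_mono hsub
    rw [measure_sdiff hsub2 measurableSet_Icc.nullMeasurableSet
      ((measure_mono hsub2).trans_lt (lt_top_iff_ne_top.2 vol_II_ne_top)).ne] at h2
    have h3 := hfull.trans h2
    have h4 : volume (II β m) - volume (Icc (1 / β) (kap β m / β)) < volume (II β m) := by
      refine ENNReal.sub_lt_self vol_II_ne_top h.vol_II_ne_zero ?_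
      rw [Real.volume_Icc]
      simp only [ne_eq, ENNReal.ofReal_eq_zero, not_le, sub_pos]
      exact div_lt_div_of_pos_right hk h0
    exact absurd h3 (not_le.2 h4)
  · intro w z hz hwz
    rw [mem_iInter] at hz ⊢
    intro n
    refine ⟨hwz, ?_⟩
    rintro ⟨u, v, hne, hu, hv, hu', hv'⟩
    refine (hz (w.length + n)).2 ⟨w ++ u, w ++ v, ?_, by simp [hu], by simp [hv],
      by rwa [T_append], by rwa [T_append]⟩
    intro hc
    exact hne (List.append_cancel_left hc)

end Pool.Agent.R787.Beta
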