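import Pool.Agent.R787.BetaSeq

/-!
# A continuum of expansions
-/

set_option autoImplicit false

open MeasureTheory Set Filter Topology

namespace Pool.Agent.R787.Beta

variable {β : ℝ} {m : ℕ}

variable {A : Type} {f : A → D m → ℝ} {q : A → ℝ}

/-- prepend a digit -/
def cns (d : D m) (e : ℕ → D m) : ℕ → D m
  | 0 => d
  | n + 1 => e n

lemma pre_cns (d : D m) (e : ℕ → D m) (n : ℕ) : pre (cns d e) (n + 1) = d :: pre e n := by
  rw [pre, List.range_succ_eq_map, List.map_cons, List.map_map]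
  rfl

lemma cns_injective (d : D m) : Function.Injective (cns d : (ℕ → D m) → (ℕ → D m)) := by
  intro e e' hh
  funext n
  exact congrFun hh (n + 1)

variable (h : Ok β m)

include h

lemma Ok.cns_mem (hf0 : ∀ a d, 0 ≤ f a d) (hf1 : ∀ a d, f a d ≤ 1) (hq0 : ∀ a, 0 ≤ q a)
    (hq1 : ∀ a, q a ≤ 1) {d : D m} {x : ℝ} {e : ℕ → D m}
    (he : e ∈ EE β f q (β * x - (d : ℕ))) : cns d e ∈ EE β f q x := by
  refine ⟨?_, fun a => ⟨?_, ?_⟩⟩
  · intro n
    cases n with
    | zero =>
      have := he.1 0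
      simp only [pre, List.range_zero, List.map_nil, T_nil] at this ⊢
      exact h.mem_of_step this
    | succ n =>
      rw [pre_cns, T_cons]
      exact he.1 n
  · intro δ hδ
    obtain ⟨N, hN⟩ := (he.2 a).1 (δ / 2) (by positivity)
    obtain ⟨K, hK⟩ := exists_nat_gt (2 / δ)
    refine ⟨max N K + 1, fun i hi => ?_⟩
    obtain ⟨i, rfl⟩ : ∃ i', i = i' + 1 := ⟨i - 1, by omega⟩
    have hi' : max N K ≤ i := by omega
    rw [pre_cns, S_cons]
    have h1 := hN i ((le_max_left _ _).trans hi')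
    have h2 := hf1 a d
    have h3 : (K : ℝ) ≤ i := by exact_mod_cast (le_max_right _ _).trans hi'
    rw [div_lt_iff₀ hδ] at hK
    have h4 := hq0 a
    push_cast
    nlinarith
  · intro δ hδ L
    obtain ⟨K, hK⟩ := exists_nat_gt (2 / δ)
    obtain ⟨i, hi, hi'⟩ := (he.2 a).2 (δ / 2) (by positivity) (max L K)
    refine ⟨i + 1, by have := le_max_left L K; omega, ?_⟩
    rw [pre_cns, S_cons]
    have h2 := hf0 a d
    have h3 : (K : ℝ) ≤ i := by exact_mod_cast (le_max_right _ _).trans hi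
    rw [div_lt_iff₀ hδ] at hK
    have h4 := hq1 a
    push_cast
    nlinarith

/-- a continuum of expansions with the prescribed averages -/
def Cont (β : ℝ) {m : ℕ} {A : Type} (f : A → D m → ℝ) (q : A → ℝ) (x : ℝ) : Prop :=
  ∃ Φ : (ℕ → Bool) → (ℕ → D m), Function.Injective Φ ∧ ∀ b, Φ b ∈ EE β f q x

lemma Ok.cont_of_word (hf0 : ∀ a d, 0 ≤ f a d) (hf1 : ∀ a d, f a d ≤ 1) (hq0 : ∀ a, 0 ≤ q a)
    (hq1 : ∀ a, q a ≤ 1) {w : List (D m)} {x : ℝ} (hc : Cont β f q (T β w x)) :
    Cont β f q x := by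
  induction w generalizing x with
  | nil => exact hc
  | cons d w ih =>
    obtain ⟨Φ, hΦ, hΦ'⟩ := ih hc
    exact ⟨fun b => cns d (Φ b), (cns_injective d).comp hΦ,
      fun b => h.cns_mem hf0 hf1 hq0 hq1 (hΦ' b)⟩

/-- choice of the lengths -/
lemma Ok.exists_plan [Finite A]
    (hE : ∀ᵐ x ∂(volume.restrict (II β m)), (EE β f q x).Nonempty) :
    ∃ (t n N l : ℕ → ℕ) (P : Plan m), Lens t n N l ∧ P.t = t ∧
      (∀ j, P.G j = GoodW f q (N j) ((j + 1) * (l j + t j)) (1 / ((j : ℝ) + 1)) (n j)) ∧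
      volume (II β m \ YI β P 0) ≤ volume (II β m) / 2 := by
  have hτ0 : volume (II β m) / 2 ≠ 0 := ENNReal.div_ne_zero.2 ⟨h.vol_II_ne_zero, by norm_num⟩
  obtain ⟨t, τ, g1, g2, g3, g4⟩ := h.exists_tau hτ0
  have hgood := fun j : ℕ => good_exists (β := β) (f := f) (q := q) hE
    (δ := 1 / ((j : ℝ) + 1)) (by positivity) (g2 (j + 1))
  choose N M hM using hgood
  let nf : ℕ → ℕ → ℕ := fun j a =>
    M j ((j + 1) * (a + t j)) + (j + 2) * (N (j + 1) + t (j + 1)) + (j + 1) * (a + t j) + 1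
  let l : ℕ → ℕ := fun j => Nat.rec 0 (fun j a => a + t j + nf j a) j
  let n : ℕ → ℕ := fun j => nf j (l j)
  have hls : ∀ j, l (j + 1) = l j + t j + n j := fun j => rfl
  have hl : Lens t n N l := by
    refine ⟨rfl, hls, fun j => ?_, fun j => ?_, fun j => ?_⟩
    · show 1 ≤ nf j (l j)
      simp only [nf]
      omega
    · show (j + 1) * (l j + t j) ≤ nf j (l j)
      simp only [nf]
      omega
    · rw [hls]
      show (j + 2) * (N (j + 1) + t (j + 1)) ≤ l j + t j + nf j (l j)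
      simp only [nf]
      omega
  let P : Plan m :=
    { t := t
      n := n
      G := fun j => GoodW f q (N j) ((j + 1) * (l j + t j)) (1 / ((j : ℝ) + 1)) (n j)
      hG := fun j u hu => hu.1 }
  refine ⟨t, n, N, l, P, hl, rfl, fun j => rfl, ?_⟩
  have := h.vol_YI (P := P) (τ := τ) g3 (fun j => hM j _ _ (by
    show M j ((j + 1) * (l j + t j)) ≤ nf j (l j)
    simp only [nf]
    omega)) g4 0
  rwa [g1] at this

omit h in
/-- the words chosen along a branch -/
noncomputable def chW {m : ℕ} (F : ℕ → ℝ → Bool → List (D m) × List (D m)) (β x : ℝ)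
    (b : ℕ → Bool) : ℕ → List (D m)
  | 0 => []
  | j + 1 => chW F β x b j ++ ((F j (T β (chW F β x b j) x) (b j)).1 ++
      (F j (T β (chW F β x b j) x) (b j)).2)

lemma Ok.cont_of_YI (hf0 : ∀ a d, 0 ≤ f a d) (hf1 : ∀ a d, f a d ≤ 1) (hq0 : ∀ a, 0 ≤ q a)
    (hq1 : ∀ a, q a ≤ 1) {t n N l : ℕ → ℕ} {P : Plan m} (hl : Lens t n N l) (hPt : P.t = t)
    (hPG : ∀ j, P.G j = GoodW f q (N j) ((j + 1) * (l j + t j)) (1 / ((j : ℝ) + 1)) (n j))
    {x : ℝ} (hx : x ∈ YI β P 0) : Cont β f q x := by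
  have hF : ∀ (j : ℕ) (z : ℝ), ∃ F : Bool → List (D m) × List (D m), z ∈ YI β P j →
      ((F true).1 ≠ (F false).1 ∧
      ∀ b, (F b).1.length = P.t j ∧ (F b).2 ∈ P.G j ∧
        T β ((F b).1 ++ (F b).2) z ∈ YI β P (j + 1)) := by
    intro j z
    by_cases hz : z ∈ YI β P j
    · obtain ⟨F, hF⟩ := h.YI_step P j hz
      exact ⟨F, fun _ => hF⟩
    · exact ⟨fun _ => ([], []), fun hc => absurd hc hz⟩
  choose F hF using hF
  have hmem : ∀ b j, T β (chW F β x b j) x ∈ YI β P j := by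
    intro b j
    induction j with
    | zero => exact hx
    | succ j ih =>
      rw [chW, T_append]
      exact ((hF j _ ih).2 (b j)).2.2
  have hchain : ∀ b, Chain f q t n N l (chW F β x b)
      (fun j => (F j (T β (chW F β x b j) x) (b j)).1)
      (fun j => (F j (T β (chW F β x b j) x) (b j)).2) := by
    intro b
    refine ⟨rfl, fun j => rfl, fun j => ?_, fun j => ?_⟩
    · rw [((hF j _ (hmem b j)).2 (b j)).1, hPt]
    · rw [← hPG]
      exact ((hF j _ (hmem b j)).2 (b j)).2.1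
  refine ⟨fun b => limSeq (chW F β x b), ?_, ?_⟩
  · intro b b' hbb
    have hbb' : limSeq (chW F β x b) = limSeq (chW F β x b') := hbb
    have key : ∀ j, chW F β x b j = chW F β x b' j := by
      intro j
      have h1 := (hchain b).pre_limSeq hl (le_refl (l j))
      have h2 := (hchain b').pre_limSeq hl (le_refl (l j))
      rw [List.take_of_length_le ((hchain b).len hl j).le] at h1
      rw [List.take_of_length_le ((hchain b').len hl j).le] at h2
      rw [← h1, ← h2, hbb']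
    funext j
    have h1 := key (j + 1)
    rw [chW, chW, key j] at h1
    have h2 := List.append_cancel_left h1
    have hz := hF j _ (hmem b' j)
    have h3 := List.append_inj_left h2 (by rw [(hz.2 _).1, (hz.2 _).1])
    by_contra hne
    cases hb : b j <;> cases hb' : b' j
    · rw [hb, hb'] at hne; exact hne rfl
    · rw [hb, hb'] at h3; exact hz.1 h3.symm
    · rw [hb, hb'] at h3; exact hz.1 h3
    · rw [hb, hb'] at hne; exact hne rfl
  · intro b
    refine ⟨fun i => ?_, fun a => (hchain b).averages hf0 hf1 hq0 hq1 hl a⟩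
    rw [(hchain b).pre_limSeq hl (hl.self_le i)]
    have h1 : T β (chW F β x b i) x ∈ II β m := h.YI_subset P i (hmem b i)
    rw [← List.take_append_drop i (chW F β x b i)] at h1
    exact h.mem_of_append h1

/-- the main theorem, internal form -/
theorem Ok.main [Finite A] (hf0 : ∀ a d, 0 ≤ f a d) (hf1 : ∀ a d, f a d ≤ 1)
    (hq0 : ∀ a, 0 ≤ q a) (hq1 : ∀ a, q a ≤ 1)
    (hE : ∀ᵐ x ∂(volume.restrict (II β m)), (EE β f q x).Nonempty) :
    ∀ᵐ x ∂(volume.restrict (II β m)), Cont β f q x := by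
  obtain ⟨t, n, N, l, P, hl, hPt, hPG, hvol⟩ := h.exists_plan hE
  set H : Set ℝ := {x | x ∈ II β m ∧ ∀ w : List (D m), T β w x ∉ YI β P 0} with hH
  have hHnull : volume H = 0 := by
    by_contra hpos
    have h1 := h.full_of_invariant (H := H) (fun z hz => hz.1) (by
      rintro w z ⟨hz, hz'⟩ hw
      refine ⟨hw, fun w' => ?_⟩
      rw [← T_append]
      exact hz' _) hpos
    have h2 : volume H ≤ volume (II β m \ YI β P 0) := by
      refine measure_mono ?_
      rintro z ⟨hz, hz'⟩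
      exact ⟨hz, hz' []⟩
    have h3 : volume (II β m) / 2 < volume (II β m) :=
      ENNReal.half_lt_self h.vol_II_ne_zero vol_II_ne_top
    exact absurd (h1.trans (h2.trans hvol)) (not_le.2 h3)
  rw [ae_restrict_iff' measurableSet_II, ae_iff]
  refine measure_mono_null ?_ hHnull
  intro x hx
  rw [mem_ofPred_eq] at hx
  push Not at hx
  refine ⟨hx.1, fun w hw => hx.2 ?_⟩
  exact h.cont_of_word hf0 hf1 hq0 hq1 (h.cont_of_YI hf0 hf1 hq0 hq1 hl hPt hPG hw)

end Pool.Agent.R787.Beta
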