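import Pool.Agent.R787.BetaTree

/-!
# Concatenating blocks of good words
-/

set_option autoImplicit false

open MeasureTheory Set Filter Topology

namespace Pool.Agent.R787.Beta

variable {β : ℝ} {m : ℕ}

/-- the beginning of a sequence of digits -/
def pre (e : ℕ → D m) (n : ℕ) : List (D m) := (List.range n).map e

@[simp] lemma length_pre (e : ℕ → D m) (n : ℕ) : (pre e n).length = n := by simp [pre]

lemma pre_take (e : ℕ → D m) {i n : ℕ} (hi : i ≤ n) : (pre e n).take i = pre e i := by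
  rw [pre, ← List.map_take, List.take_range, min_eq_left hi, pre]

/-- the sum of a function of the digits along a word -/
def S (f : D m → ℝ) (w : List (D m)) : ℝ := (w.map f).sum

@[simp] lemma S_nil (f : D m → ℝ) : S f [] = 0 := rfl

@[simp] lemma S_cons (f : D m → ℝ) (d : D m) (w : List (D m)) : S f (d :: w) = f d + S f w := by
  simp [S]

lemma S_append (f : D m → ℝ) (v w : List (D m)) : S f (v ++ w) = S f v + S f w := by
  simp [S]

lemma S_nonneg {f : D m → ℝ} (hf : ∀ d, 0 ≤ f d) (w : List (D m)) : 0 ≤ S f w := by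
  induction w with
  | nil => simp
  | cons d w ih =>
    rw [S_cons]
    have := hf d
    linarith

lemma S_le {f : D m → ℝ} (hf : ∀ d, f d ≤ 1) (w : List (D m)) : S f w ≤ w.length := by
  induction w with
  | nil => simp
  | cons d w ih =>
    rw [S_cons, List.length_cons]
    push_cast
    have := hf d
    linarith

/-- the sequences of digits all of whose tails stay in the interval and whose averages have the
prescribed upper limits -/
def EE (β : ℝ) {m : ℕ} {A : Type} (f : A → D m → ℝ) (q : A → ℝ) (x : ℝ) : Set (ℕ → D m) :=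
  {e | (∀ n, T β (pre e n) x ∈ II β m) ∧ ∀ a,
    (∀ δ > 0, ∃ N, ∀ i ≥ N, S (f a) (pre e i) ≤ (q a + δ) * (i : ℝ)) ∧
    (∀ δ > 0, ∀ L : ℕ, ∃ i ≥ L, (q a - δ) * (i : ℝ) ≤ S (f a) (pre e i))}

/-- good words -/
def GoodW {m : ℕ} {A : Type} (f : A → D m → ℝ) (q : A → ℝ) (N L : ℕ) (δ : ℝ) (n : ℕ) :
    Set (List (D m)) :=
  {u | u.length = n ∧ (∀ a, ∀ i : ℕ, N ≤ i → i ≤ n → S (f a) (u.take i) ≤ (q a + δ) * (i : ℝ)) ∧
    ∀ a, ∃ i : ℕ, L ≤ i ∧ i ≤ n ∧ (q a - δ) * (i : ℝ) ≤ S (f a) (u.take i)}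

variable {A : Type} {f : A → D m → ℝ} {q : A → ℝ}

lemma good_exists [Finite A] (hE : ∀ᵐ x ∂(volume.restrict (II β m)), (EE β f q x).Nonempty)
    {δ : ℝ} (hδ : 0 < δ) {η : ENNReal} (hη : η ≠ 0) :
    ∃ N : ℕ, ∀ L : ℕ, ∃ M : ℕ, ∀ n ≥ M,
      volume (II β m \ {z | ∃ u ∈ GoodW f q N L δ n, T β u z ∈ II β m}) ≤ η := by
  have := Fintype.ofFinite A
  -- first step
  set X : ℕ → Set ℝ := fun N => {x | x ∈ II β m ∧ ∃ e ∈ EE β f q x, ∀ a, ∀ i ≥ N,
    S (f a) (pre e i) ≤ (q a + δ) * (i : ℝ)} with hX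
  have hXm : Monotone X := by
    rintro N N' hN x ⟨hx, e, he, he'⟩
    exact ⟨hx, e, he, fun a i hi => he' a i (hN.trans hi)⟩
  have hXU : ∀ x ∈ II β m, (EE β f q x).Nonempty → x ∈ ⋃ N, X N := by
    rintro x hx ⟨e, he⟩
    choose N hN using fun a => (he.2 a).1 δ hδ
    refine mem_iUnion.2 ⟨Finset.univ.sup N, hx, e, he, fun a i hi => hN a i ?_⟩
    exact (Finset.le_sup (Finset.mem_univ a)).trans hi
  have hvol : volume (II β m) ≤ volume (⋃ N, X N) := by
    have hnull : volume (II β m \ ⋃ N, X N) = 0 := by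
      rw [ae_restrict_iff' measurableSet_II] at hE
      refine measure_mono_null ?_ (ae_iff.1 hE)
      rintro x ⟨hx, hx'⟩
      rw [mem_ofPred_eq]
      intro hc
      exact hx' (hXU x hx (hc hx))
    calc volume (II β m) ≤ volume ((⋃ N, X N) ∪ (II β m \ ⋃ N, X N)) := by
          refine measure_mono ?_
          intro x hx
          by_cases hc : x ∈ ⋃ N, X N
          · exact Or.inl hc
          · exact Or.inr ⟨hx, hc⟩
      _ ≤ volume (⋃ N, X N) + volume (II β m \ ⋃ N, X N) := measure_union_le _ _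
      _ = volume (⋃ N, X N) := by rw [hnull, add_zero]
  by_cases hI0 : volume (II β m) = 0
  · refine ⟨0, fun L => ⟨0, fun n _ => ?_⟩⟩
    have : volume (II β m \ {z | ∃ u ∈ GoodW f q 0 L δ n, T β u z ∈ II β m}) = 0 :=
      measure_mono_null sdiff_subset hI0
    rw [this]
    exact zero_le
  have hlt : volume (II β m) - η < volume (⋃ N, X N) :=
    (ENNReal.sub_lt_self vol_II_ne_top hI0 hη).trans_le hvol
  rw [hXm.measure_iUnion, lt_iSup_iff] at hlt
  obtain ⟨N, hN⟩ := hlt
  refine ⟨N, fun L => ?_⟩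
  set Z : ℕ → Set ℝ := fun M => {x | x ∈ II β m ∧ ∃ e ∈ EE β f q x, (∀ a, ∀ i ≥ N,
    S (f a) (pre e i) ≤ (q a + δ) * (i : ℝ)) ∧ ∀ a, ∃ i : ℕ, L ≤ i ∧ i ≤ M ∧
      (q a - δ) * (i : ℝ) ≤ S (f a) (pre e i)} with hZ
  have hZm : Monotone Z := by
    rintro M M' hM x ⟨hx, e, he, he', he''⟩
    refine ⟨hx, e, he, he', fun a => ?_⟩
    obtain ⟨i, g1, g2, g3⟩ := he'' a
    exact ⟨i, g1, g2.trans hM, g3⟩
  have hXZ : X N ⊆ ⋃ M, Z M := by
    rintro x ⟨hx, e, he, he'⟩
    choose i hi hi' using fun a => (he.2 a).2 δ hδ L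
    exact mem_iUnion.2 ⟨Finset.univ.sup i, hx, e, he, he', fun a =>
      ⟨i a, hi a, Finset.le_sup (Finset.mem_univ a), hi' a⟩⟩
  have hlt2 : volume (II β m) - η < volume (⋃ M, Z M) := hN.trans_le (measure_mono hXZ)
  rw [hZm.measure_iUnion, lt_iSup_iff] at hlt2
  obtain ⟨M, hM⟩ := hlt2
  refine ⟨M, fun n hn => ?_⟩
  set W : Set ℝ := {z | ∃ u ∈ GoodW f q N L δ n, T β u z ∈ II β m} with hW
  have hsub : Z M ⊆ W ∩ II β m := by
    rintro x ⟨hx, e, he, he', he''⟩
    refine ⟨⟨pre e n, ⟨length_pre _ _, ?_, ?_⟩, he.1 n⟩, hx⟩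
    · intro a i hi hin
      rw [pre_take e hin]
      exact he' a i hi
    · intro a
      obtain ⟨i, g1, g2, g3⟩ := he'' a
      refine ⟨i, g1, g2.trans hn, ?_⟩
      rw [pre_take e (g2.trans hn)]
      exact g3
  have hWm : MeasurableSet W := by
    have : W = ⋃ u : List (D m), ⋃ (_ : u ∈ GoodW f q N L δ n), {z | T β u z ∈ II β m} := by
      ext z
      simp only [hW, mem_ofPred_eq, mem_iUnion, exists_prop]
    rw [this]
    exact MeasurableSet.iUnion fun u => MeasurableSet.iUnion fun _ =>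
      measurableSet_T u measurableSet_II
  have h5 : volume (II β m) - η < volume (W ∩ II β m) := hM.trans_le (measure_mono hsub)
  have h6 : II β m \ W = II β m \ (W ∩ II β m) := by
    ext z
    simp only [Set.mem_sdiff, mem_inter_iff]
    tauto
  rw [h6, measure_sdiff inter_subset_right (hWm.inter measurableSet_II).nullMeasurableSet
    ((measure_mono inter_subset_right).trans_lt (lt_top_iff_ne_top.2 vol_II_ne_top)).ne]
  rw [tsub_le_iff_left]
  exact tsub_le_iff_right.1 h5.le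

/-- the numerical requirements on the lengths -/
structure Lens (t n N l : ℕ → ℕ) : Prop where
  l0 : l 0 = 0
  ls : ∀ j, l (j + 1) = l j + t j + n j
  n1 : ∀ j, 1 ≤ n j
  nl : ∀ j, (j + 1) * (l j + t j) ≤ n j
  Nl : ∀ j, (j + 2) * (N (j + 1) + t (j + 1)) ≤ l (j + 1)

/-- a chain of words made of good blocks -/
structure Chain {m : ℕ} {A : Type} (f : A → D m → ℝ) (q : A → ℝ) (t n N l : ℕ → ℕ)
    (W v u : ℕ → List (D m)) : Prop where
  W0 : W 0 = []
  Ws : ∀ j, W (j + 1) = W j ++ (v j ++ u j)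
  hv : ∀ j, (v j).length = t j
  hu : ∀ j, u j ∈ GoodW f q (N j) ((j + 1) * (l j + t j)) (1 / ((j : ℝ) + 1)) (n j)

variable {t n N l : ℕ → ℕ} {W v u : ℕ → List (D m)}

lemma Chain.len (hl : Lens t n N l) (hc : Chain f q t n N l W v u) (j : ℕ) :
    (W j).length = l j := by
  induction j with
  | zero => rw [hc.W0, hl.l0]; rfl
  | succ j ih =>
    rw [hc.Ws, List.length_append, List.length_append, ih, hc.hv, (hc.hu j).1, hl.ls]
    ring

lemma Lens.self_le (hl : Lens t n N l) (j : ℕ) : j ≤ l j := by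
  induction j with
  | zero => exact Nat.zero_le _
  | succ j ih =>
    have := hl.ls j
    have := hl.n1 j
    omega

lemma Lens.mono (hl : Lens t n N l) : Monotone l :=
  monotone_nat_of_le_succ fun j => by
    have := hl.ls j
    omega

lemma Chain.isPrefix (hc : Chain f q t n N l W v u) {j k : ℕ} (hjk : j ≤ k) : W j <+: W k := by
  induction hjk with
  | refl => exact List.prefix_rfl
  | step _ ih => exact ih.trans (by rw [hc.Ws]; exact List.prefix_append _ _)

/-- the limit sequence of a chain -/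
def limSeq {m : ℕ} (W : ℕ → List (D m)) (i : ℕ) : D m := (W (i + 1)).getD i 0

lemma Chain.pre_limSeq (hl : Lens t n N l) (hc : Chain f q t n N l W v u) {i j : ℕ}
    (hi : i ≤ l j) : pre (limSeq W) i = (W j).take i := by
  refine List.ext_getElem? fun k => ?_
  by_cases hk : k < i
  · have h1 : k < (W j).length := by rw [hc.len hl]; omega
    have h2 : k < (W (k + 1)).length := by
      rw [hc.len hl]
      exact hl.self_le (k + 1)
    have h3 : (W (k + 1))[k]? = (W j)[k]? := by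
      rcases le_total (k + 1) j with hle | hle
      · obtain ⟨s, hs⟩ := hc.isPrefix hle
        rw [← hs, List.getElem?_append_left h2]
      · obtain ⟨s, hs⟩ := hc.isPrefix hle
        rw [← hs, List.getElem?_append_left h1]
    rw [List.getElem?_take_of_lt hk, pre, List.getElem?_map, List.getElem?_range hk]
    simp only [Option.map_some, limSeq]
    rw [← h3, List.getD_eq_getElem?_getD, List.getElem?_eq_getElem h2]
    rfl
  · have h1 : (pre (limSeq W) i).length ≤ k := by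
      rw [length_pre]; omega
    have h2 : ((W j).take i).length ≤ k := by
      rw [List.length_take]; omega
    rw [List.getElem?_eq_none h1, List.getElem?_eq_none h2]

lemma good_upper {g : D m → ℝ} (hg1 : ∀ d, g d ≤ 1) {c : ℝ} (hc : 0 ≤ c) {w : List (D m)}
    {N0 n0 : ℕ} (hw : ∀ i : ℕ, N0 ≤ i → i ≤ n0 → S g (w.take i) ≤ c * (i : ℝ)) {i : ℕ}
    (hi : i ≤ n0) : S g (w.take i) ≤ N0 + c * i := by
  by_cases hN : N0 ≤ i
  · have := hw i hN hi
    have : (0 : ℝ) ≤ N0 := by positivity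
    linarith
  · have h1 := S_le hg1 (w.take i)
    have h2 : (w.take i).length ≤ i := by
      rw [List.length_take]; omega
    have h3 : ((w.take i).length : ℝ) ≤ (i : ℝ) := by exact_mod_cast h2
    have h4 : (i : ℝ) ≤ N0 := by exact_mod_cast (not_le.1 hN).le
    have h5 : 0 ≤ c * (i : ℝ) := by positivity
    linarith

section estimates

variable (hf0 : ∀ a d, 0 ≤ f a d) (hf1 : ∀ a d, f a d ≤ 1) (hq0 : ∀ a, 0 ≤ q a)
  (hq1 : ∀ a, q a ≤ 1)

include hf0 hf1 hq0 hq1

lemma Chain.end_upper (hl : Lens t n N l) (hc : Chain f q t n N l W v u) (a : A) (j : ℕ) :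
    S (f a) (W (j + 2)) ≤ (q a + 3 * (1 / ((j : ℝ) + 2))) * (l (j + 2) : ℝ) := by
  set κ : ℝ := 1 / ((j : ℝ) + 2) with hκ
  have hκ0 : 0 < κ := by positivity
  have hκ1 : κ * ((j : ℝ) + 2) = 1 := by rw [hκ]; field_simp
  have e1 : S (f a) (W (j + 1)) ≤ (l (j + 1) : ℝ) := by
    have := S_le (hf1 a) (W (j + 1))
    rwa [hc.len hl] at this
  have e2 : S (f a) (v (j + 1)) ≤ (t (j + 1) : ℝ) := by
    have := S_le (hf1 a) (v (j + 1))
    rwa [hc.hv] at this
  have hδ : (1 : ℝ) / (((j + 1 : ℕ) : ℝ) + 1) = κ := by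
    rw [hκ]; push_cast; ring
  have e3 : S (f a) (u (j + 1)) ≤ (N (j + 1) : ℝ) + (q a + κ) * (n (j + 1) : ℝ) := by
    have h1 := hc.hu (j + 1)
    have h2 := good_upper (hf1 a) (c := q a + κ) (by have := hq0 a; linarith) (w := u (j + 1))
      (N0 := N (j + 1)) (n0 := n (j + 1)) (by
        intro i hi1 hi2
        have := h1.2.1 a i hi1 hi2
        rwa [hδ] at this) le_rfl
    rwa [List.take_of_length_le h1.1.le] at h2
  have e4 : (l (j + 2) : ℝ) = l (j + 1) + t (j + 1) + n (j + 1) := by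
    exact_mod_cast hl.ls (j + 1)
  have e5 : ((j : ℝ) + 2) * (l (j + 1) + t (j + 1)) ≤ n (j + 1) := by
    have := hl.nl (j + 1)
    have h2 : (((j + 1 + 1) * (l (j + 1) + t (j + 1)) : ℕ) : ℝ) ≤ (n (j + 1) : ℝ) := by
      exact_mod_cast this
    push_cast at h2
    linarith
  have e6 : ((j : ℝ) + 2) * (N (j + 1) + t (j + 1)) ≤ l (j + 1) := by
    have := hl.Nl j
    exact_mod_cast this
  have f5 : (l (j + 1) : ℝ) + t (j + 1) ≤ κ * n (j + 1) := by
    have := mul_le_mul_of_nonneg_left e5 hκ0.le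
    rw [← mul_assoc, hκ1, one_mul] at this
    exact this
  have f6 : (N (j + 1) : ℝ) + t (j + 1) ≤ κ * l (j + 1) := by
    have := mul_le_mul_of_nonneg_left e6 hκ0.le
    rw [← mul_assoc, hκ1, one_mul] at this
    exact this
  have g1 : (0 : ℝ) ≤ t (j + 1) := by positivity
  have g2 : (0 : ℝ) ≤ l (j + 1) := by positivity
  have g3 : (0 : ℝ) ≤ n (j + 1) := by positivity
  have g4 := hq0 a
  rw [hc.Ws (j + 1), S_append, S_append, e4]
  have k1 : 0 ≤ q a * (l (j + 1) + t (j + 1)) := by positivity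
  have k2 : 0 ≤ κ * (t (j + 1) : ℝ) := by positivity
  have k3 : 0 ≤ κ * (l (j + 1) : ℝ) := by positivity
  have k4 : 0 ≤ κ * (n (j + 1) : ℝ) := by positivity
  nlinarith

lemma Chain.upper (hl : Lens t n N l) (hc : Chain f q t n N l W v u) (a : A) (j i : ℕ)
    (h1 : l (j + 2) ≤ i) (h2 : i ≤ l (j + 3)) :
    S (f a) (pre (limSeq W) i) ≤ (q a + 4 * (1 / ((j : ℝ) + 2))) * (i : ℝ) := by
  have he := hc.end_upper hf0 hf1 hq0 hq1 hl a j
  set κ : ℝ := 1 / ((j : ℝ) + 2) with hκ
  have hκ0 : 0 < κ := by positivity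
  have hκ1 : κ * ((j : ℝ) + 2) = 1 := by rw [hκ]; field_simp
  set κ' : ℝ := 1 / ((j : ℝ) + 3) with hκ'
  have hκ'0 : 0 < κ' := by positivity
  have hκκ : κ' ≤ κ := by
    rw [hκ, hκ']
    exact one_div_le_one_div_of_le (by positivity) (by linarith)
  have hδ : (1 : ℝ) / (((j + 2 : ℕ) : ℝ) + 1) = κ' := by
    rw [hκ']; push_cast; ring
  obtain ⟨i', rfl⟩ := Nat.exists_eq_add_of_le h1
  rw [hc.pre_limSeq hl h2, hc.Ws (j + 2)]
  have hlen := hc.len hl (j + 2)
  rw [← hlen, List.take_length_add_append, hlen, S_append]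
  have hi' : i' ≤ t (j + 2) + n (j + 2) := by
    have : l (j + 3) = l (j + 2) + t (j + 2) + n (j + 2) := hl.ls (j + 2)
    omega
  have e3 : S (f a) ((v (j + 2) ++ u (j + 2)).take i') ≤
      (t (j + 2) : ℝ) + (N (j + 2) : ℝ) + (q a + κ') * (i' : ℝ) := by
    rw [List.take_append, S_append]
    have h3 : S (f a) ((v (j + 2)).take i') ≤ (t (j + 2) : ℝ) := by
      refine (S_le (hf1 a) _).trans ?_
      have : ((v (j + 2)).take i').length ≤ t (j + 2) := by
        rw [List.length_take, hc.hv]; omega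
      exact_mod_cast this
    have hg := hc.hu (j + 2)
    have h4 := good_upper (hf1 a) (c := q a + κ') (by have := hq0 a; linarith) (w := u (j + 2))
      (N0 := N (j + 2)) (n0 := n (j + 2)) (by
        intro i hi1 hi2
        have := hg.2.1 a i hi1 hi2
        rwa [hδ] at this) (i := i' - (v (j + 2)).length) (by rw [hc.hv]; omega)
    have h5 : ((i' - (v (j + 2)).length : ℕ) : ℝ) ≤ i' := by exact_mod_cast Nat.sub_le _ _
    have h6 : (q a + κ') * ((i' - (v (j + 2)).length : ℕ) : ℝ) ≤ (q a + κ') * i' :=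
      mul_le_mul_of_nonneg_left h5 (by have := hq0 a; linarith)
    linarith
  have e6 : ((j : ℝ) + 3) * (N (j + 2) + t (j + 2)) ≤ l (j + 2) := by
    have := hl.Nl (j + 1)
    have h2 : (((j + 1 + 2) * (N (j + 1 + 1) + t (j + 1 + 1)) : ℕ) : ℝ) ≤ (l (j + 1 + 1) : ℝ) := by
      exact_mod_cast this
    push_cast at h2
    have e : (j : ℝ) + 1 + 2 = j + 3 := by ring
    rw [e] at h2
    exact h2
  have f6 : (N (j + 2) : ℝ) + t (j + 2) ≤ κ' * l (j + 2) := by
    have := mul_le_mul_of_nonneg_left e6 hκ'0.le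
    rw [← mul_assoc] at this
    have h3 : κ' * ((j : ℝ) + 3) = 1 := by rw [hκ']; field_simp
    rw [h3, one_mul] at this
    exact this
  have g2 : (0 : ℝ) ≤ l (j + 2) := by positivity
  have g3 : (0 : ℝ) ≤ (i' : ℝ) := by positivity
  have f7 : κ' * (l (j + 2) : ℝ) ≤ κ * l (j + 2) := mul_le_mul_of_nonneg_right hκκ g2
  have f8 : κ' * (i' : ℝ) ≤ κ * i' := mul_le_mul_of_nonneg_right hκκ g3
  have f9 : 0 ≤ κ * (i' : ℝ) := by positivity
  push_cast
  nlinarith

lemma Chain.lower (hl : Lens t n N l) (hc : Chain f q t n N l W v u) (a : A) (j : ℕ) :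
    ∃ i ≥ j, (q a - 2 * (1 / ((j : ℝ) + 1))) * (i : ℝ) ≤ S (f a) (pre (limSeq W) i) := by
  set κ : ℝ := 1 / ((j : ℝ) + 1) with hκ
  have hκ0 : 0 < κ := by positivity
  have hκ1 : κ * ((j : ℝ) + 1) = 1 := by rw [hκ]; field_simp
  obtain ⟨i, h1, h2, h3⟩ := (hc.hu j).2.2 a
  rw [← hκ] at h3
  refine ⟨l j + (t j + i), ?_, ?_⟩
  · have := hl.self_le j
    omega
  · rw [hc.pre_limSeq hl (j := j + 1) (by rw [hl.ls]; omega), hc.Ws j]
    have hlen := hc.len hl j
    have hv := hc.hv j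
    nth_rewrite 2 [← hlen]
    rw [List.take_length_add_append, S_append]
    nth_rewrite 2 [← hv]
    rw [List.take_length_add_append, S_append]
    have g1 := S_nonneg (hf0 a) (W j)
    have g2 := S_nonneg (hf0 a) (v j)
    have e1 : ((j : ℝ) + 1) * (l j + t j) ≤ i := by exact_mod_cast h1
    have f1 : (l j : ℝ) + t j ≤ κ * i := by
      have := mul_le_mul_of_nonneg_left e1 hκ0.le
      rw [← mul_assoc, hκ1, one_mul] at this
      exact this
    have g3 : (0 : ℝ) ≤ l j := by positivity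
    have g4 : (0 : ℝ) ≤ t j := by positivity
    have g5 := hq1 a
    have g6 : 0 ≤ (1 - q a) * ((l j : ℝ) + t j) := mul_nonneg (by linarith) (by linarith)
    have g7 : 0 ≤ κ * ((l j : ℝ) + t j) := by positivity
    push_cast
    nlinarith

/-- the limit sequence has the prescribed averages -/
lemma Chain.averages (hl : Lens t n N l) (hc : Chain f q t n N l W v u) (a : A) :
    (∀ δ > 0, ∃ N, ∀ i ≥ N, S (f a) (pre (limSeq W) i) ≤ (q a + δ) * (i : ℝ)) ∧
    (∀ δ > 0, ∀ L : ℕ, ∃ i ≥ L, (q a - δ) * (i : ℝ) ≤ S (f a) (pre (limSeq W) i)) := by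
  constructor
  · intro δ hδ
    obtain ⟨J, hJ⟩ := exists_nat_gt (4 / δ)
    refine ⟨l (J + 2), fun i hi => ?_⟩
    have hex : ∃ k, i ≤ l k := ⟨i, hl.self_le i⟩
    set k := Nat.find hex with hk
    have hk1 : i ≤ l k := Nat.find_spec hex
    by_cases hkJ : k ≤ J + 2
    · have h1 : i = l (J + 2) := le_antisymm (hk1.trans (hl.mono hkJ)) hi
      have h2 := hc.upper hf0 hf1 hq0 hq1 hl a J i hi (by rw [h1]; exact hl.mono (by omega))
      refine h2.trans ?_
      refine mul_le_mul_of_nonneg_right ?_ (by positivity)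
      have : 4 * (1 / ((J : ℝ) + 2)) ≤ δ := by
        rw [mul_one_div, div_le_iff₀ (by positivity)]
        rw [div_lt_iff₀ hδ] at hJ
        nlinarith
      linarith
    · push Not at hkJ
      obtain ⟨k', hk'⟩ : ∃ k', k = k' + 3 := ⟨k - 3, by omega⟩
      have h1 : l (k' + 2) ≤ i := by
        by_contra hcon
        push Not at hcon
        have := Nat.find_min' hex hcon.le
        omega
      have h2 := hc.upper hf0 hf1 hq0 hq1 hl a k' i h1 (by rw [← hk']; exact hk1)
      refine h2.trans ?_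
      refine mul_le_mul_of_nonneg_right ?_ (by positivity)
      have : 4 * (1 / ((k' : ℝ) + 2)) ≤ δ := by
        rw [mul_one_div, div_le_iff₀ (by positivity)]
        rw [div_lt_iff₀ hδ] at hJ
        have h3 : (J : ℝ) ≤ k' := by
          have : J ≤ k' := by omega
          exact_mod_cast this
        nlinarith
      linarith
  · intro δ hδ L
    obtain ⟨J, hJ⟩ := exists_nat_gt (2 / δ)
    obtain ⟨i, hi, hi'⟩ := hc.lower hf0 hf1 hq0 hq1 hl a (max J L)
    refine ⟨i, (le_max_right _ _).trans hi, le_trans ?_ hi'⟩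
    refine mul_le_mul_of_nonneg_right ?_ (by positivity)
    have : 2 * (1 / (((max J L : ℕ) : ℝ) + 1)) ≤ δ := by
      rw [mul_one_div, div_le_iff₀ (by positivity)]
      rw [div_lt_iff₀ hδ] at hJ
      have h3 : (J : ℝ) ≤ (max J L : ℕ) := by exact_mod_cast le_max_left J L
      nlinarith
    linarith

end estimates

end Pool.Agent.R787.Beta
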