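import Pool.Agent.R787.BetaDensity

/-!
# The sets of points carrying large trees of words
-/

set_option autoImplicit false

open MeasureTheory Set Filter Topology

namespace Pool.Agent.R787.Beta

variable {β : ℝ} {m : ℕ}

/-- lengths and families of words used by the construction -/
structure Plan (m : ℕ) where
  t : ℕ → ℕ
  n : ℕ → ℕ
  G : ℕ → Set (List (D m))
  hG : ∀ j, ∀ u ∈ G j, u.length = n j

/-- points carrying a binary tree of depth `k` starting at stage `j` -/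
def Y (β : ℝ) {m : ℕ} (P : Plan m) : ℕ → ℕ → Set ℝ
  | 0, _ => II β m
  | k + 1, j => {z | ∃ v w : List (D m), v ≠ w ∧ v.length = P.t j ∧ w.length = P.t j ∧
      (∃ u ∈ P.G j, T β (v ++ u) z ∈ Y β P k (j + 1)) ∧
      ∃ u ∈ P.G j, T β (w ++ u) z ∈ Y β P k (j + 1)}

lemma measurableSet_Y (P : Plan m) (k j : ℕ) : MeasurableSet (Y β P k j) := by
  induction k generalizing j with
  | zero => exact measurableSet_II
  | succ k ih =>
    have : Y β P (k + 1) j = ⋃ v : List (D m), ⋃ w : List (D m),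
        ⋃ (_ : v ≠ w ∧ v.length = P.t j ∧ w.length = P.t j),
        (⋃ u : List (D m), ⋃ (_ : u ∈ P.G j), {z | T β (v ++ u) z ∈ Y β P k (j + 1)}) ∩
        (⋃ u : List (D m), ⋃ (_ : u ∈ P.G j), {z | T β (w ++ u) z ∈ Y β P k (j + 1)}) := by
      ext z
      simp only [Y, mem_ofPred_eq, mem_iUnion, mem_inter_iff, exists_prop]
      constructor
      · rintro ⟨v, w, h1, h2, h3, h4, h5⟩
        exact ⟨v, w, ⟨h1, h2, h3⟩, h4, h5⟩
      · rintro ⟨v, w, ⟨h1, h2, h3⟩, h4, h5⟩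
        exact ⟨v, w, h1, h2, h3, h4, h5⟩
    rw [this]
    refine MeasurableSet.iUnion fun v => MeasurableSet.iUnion fun w =>
      MeasurableSet.iUnion fun _ => MeasurableSet.inter ?_ ?_
    · exact MeasurableSet.iUnion fun u => MeasurableSet.iUnion fun _ => measurableSet_T _ (ih _)
    · exact MeasurableSet.iUnion fun u => MeasurableSet.iUnion fun _ => measurableSet_T _ (ih _)

variable (h : Ok β m)

include h

lemma Ok.Y_subset (P : Plan m) (k j : ℕ) : Y β P k j ⊆ II β m := by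
  induction k generalizing j with
  | zero => exact subset_rfl
  | succ k ih =>
    rintro z ⟨v, w, -, -, -, ⟨u, -, hz⟩, -⟩
    exact h.mem_of_T (ih _ hz)

lemma Ok.Y_anti (P : Plan m) (k j : ℕ) : Y β P (k + 1) j ⊆ Y β P k j := by
  induction k generalizing j with
  | zero => exact h.Y_subset P 1 j
  | succ k ih =>
    rintro z ⟨v, w, h1, h2, h3, ⟨u, hu, hz⟩, ⟨u', hu', hz'⟩⟩
    exact ⟨v, w, h1, h2, h3, ⟨u, hu, ih _ hz⟩, ⟨u', hu', ih _ hz'⟩⟩

lemma Ok.Y_antitone (P : Plan m) (j : ℕ) : Antitone (fun k => Y β P k j) :=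
  antitone_nat_of_succ_le fun k => h.Y_anti P k j

/-- the measure bound -/
lemma Ok.vol_Y {P : Plan m} {τ : ℕ → ENNReal} (h1 : ∀ j, volume (UU β m (P.t j)) ≤ τ j / 2)
    (h2 : ∀ j, volume (II β m \ {z | ∃ u ∈ P.G j, T β u z ∈ II β m}) ≤ τ (j + 1))
    (h3 : ∀ j, ((m + 1 : ℕ) * bb β) ^ P.t j * (5 * τ (j + 1)) ≤ τ j / 2) (k j : ℕ) :
    volume (II β m \ Y β P k j) ≤ τ j := by
  induction k generalizing j with
  | zero => simp [Y]
  | succ k ih =>
    set A : Set ℝ := {z | ∃ u ∈ P.G j, T β u z ∈ Y β P k (j + 1)} with hA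
    have hvA : volume (II β m \ A) ≤ 5 * τ (j + 1) := by
      have hsub : II β m \ A ⊆ (II β m \ {z | ∃ u ∈ P.G j, T β u z ∈ II β m}) ∪
          {z | (∃ u ∈ P.G j, T β u z ∈ II β m) ∧ ∀ u ∈ P.G j, T β u z ∈ II β m →
            T β u z ∈ II β m \ Y β P k (j + 1)} := by
        rintro z ⟨hz, hz'⟩
        by_cases hc : ∃ u ∈ P.G j, T β u z ∈ II β m
        · right
          refine ⟨hc, fun u hu hu' => ⟨hu', fun hc' => hz' ⟨u, hu, hc'⟩⟩⟩
        · left
          exact ⟨hz, hc⟩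
      calc volume (II β m \ A) ≤ _ := measure_mono hsub
        _ ≤ _ := measure_union_le _ _
        _ ≤ τ (j + 1) + 4 * volume (II β m \ Y β P k (j + 1)) := by
          gcongr
          · exact h2 j
          · exact h.vol_bad (P.hG j) _
        _ ≤ τ (j + 1) + 4 * τ (j + 1) := by
          gcongr
          exact ih (j + 1)
        _ = 5 * τ (j + 1) := by ring
    have hsub : II β m \ Y β P (k + 1) j ⊆ UU β m (P.t j) ∪
        {z | ∃ w : List (D m), w.length = P.t j ∧ T β w z ∈ II β m \ A} := by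
      rintro z ⟨hz, hz'⟩
      by_cases hc : z ∈ UU β m (P.t j)
      · left; exact hc
      · right
        have hc' : ∃ v w : List (D m), v ≠ w ∧ v.length = P.t j ∧ w.length = P.t j ∧
            T β v z ∈ II β m ∧ T β w z ∈ II β m := by
          by_contra hcc
          exact hc ⟨hz, hcc⟩
        obtain ⟨v, w, g1, g2, g3, g4, g5⟩ := hc'
        by_cases hv : T β v z ∈ A
        · by_cases hw : T β w z ∈ A
          · exfalso
            obtain ⟨u, hu, hu'⟩ := hv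
            obtain ⟨u', hu1, hu2⟩ := hw
            exact hz' ⟨v, w, g1, g2, g3, ⟨u, hu, by rwa [T_append]⟩, ⟨u', hu1, by rwa [T_append]⟩⟩
          · exact ⟨w, g3, g5, hw⟩
        · exact ⟨v, g2, g4, hv⟩
    calc volume (II β m \ Y β P (k + 1) j) ≤ _ := measure_mono hsub
      _ ≤ _ := measure_union_le _ _
      _ ≤ τ j / 2 + ((m + 1 : ℕ) * bb β) ^ P.t j * volume (II β m \ A) := by
        gcongr
        · exact h1 j
        · exact h.vol_words _ _
      _ ≤ τ j / 2 + ((m + 1 : ℕ) * bb β) ^ P.t j * (5 * τ (j + 1)) := by gcongr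
      _ ≤ τ j / 2 + τ j / 2 := by
        gcongr
        exact h3 j
      _ = τ j := ENNReal.add_halves _

omit h in
/-- points carrying an infinite binary tree starting at stage `j` -/
def YI (β : ℝ) {m : ℕ} (P : Plan m) (j : ℕ) : Set ℝ := ⋂ k, Y β P k j

omit h in
lemma measurableSet_YI (P : Plan m) (j : ℕ) : MeasurableSet (YI β P j) :=
  MeasurableSet.iInter fun k => measurableSet_Y P k j

lemma Ok.YI_subset (P : Plan m) (j : ℕ) : YI β P j ⊆ II β m :=
  (iInter_subset _ 0).trans (h.Y_subset P 0 j)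

lemma Ok.vol_YI {P : Plan m} {τ : ℕ → ENNReal} (h1 : ∀ j, volume (UU β m (P.t j)) ≤ τ j / 2)
    (h2 : ∀ j, volume (II β m \ {z | ∃ u ∈ P.G j, T β u z ∈ II β m}) ≤ τ (j + 1))
    (h3 : ∀ j, ((m + 1 : ℕ) * bb β) ^ P.t j * (5 * τ (j + 1)) ≤ τ j / 2) (j : ℕ) :
    volume (II β m \ YI β P j) ≤ τ j := by
  have e : II β m \ YI β P j = ⋃ k, (II β m \ Y β P k j) := by
    rw [YI, sdiff_iInter]
  have hm : Monotone fun k => II β m \ Y β P k j := by
    intro k l hkl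
    exact sdiff_subset_sdiff_right (h.Y_antitone P j hkl)
  rw [e, hm.measure_iUnion]
  exact iSup_le fun k => h.vol_Y h1 h2 h3 k j

omit h in
/-- a decreasing family of nonempty choices from a finite set stabilizes -/
lemma exists_forall_of_finite {α : Type*} {F : Set α} (hF : F.Finite) {p : ℕ → α → Prop}
    (hanti : ∀ k a, p (k + 1) a → p k a) (hex : ∀ k, ∃ a ∈ F, p k a) : ∃ a ∈ F, ∀ k, p k a := by
  by_contra hc
  push Not at hc
  choose! K hK using hc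
  have hmono : ∀ a k l, k ≤ l → p l a → p k a := by
    intro a k l hkl
    induction hkl with
    | refl => exact id
    | step _ ih => exact fun hh => ih (hanti _ _ hh)
  obtain ⟨N, hN⟩ : ∃ N, ∀ a ∈ F, K a ≤ N := by
    obtain ⟨N, hN⟩ := (hF.image K).bddAbove
    exact ⟨N, fun a ha => hN (mem_image_of_mem K ha)⟩
  obtain ⟨a, ha, hp⟩ := hex N
  exact hK a ha (hmono a _ _ (hN a ha) hp)

lemma Ok.YI_step (P : Plan m) (j : ℕ) {z : ℝ} (hz : z ∈ YI β P j) :
    ∃ F : Bool → List (D m) × List (D m), (F true).1 ≠ (F false).1 ∧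
      ∀ b, (F b).1.length = P.t j ∧ (F b).2 ∈ P.G j ∧
        T β ((F b).1 ++ (F b).2) z ∈ YI β P (j + 1) := by
  have hfin1 : {w : List (D m) | w.length = P.t j}.Finite := List.finite_length_eq _ _
  have hfin2 : {w : List (D m) | w.length = P.n j}.Finite := List.finite_length_eq _ _
  set F : Set ((List (D m) × List (D m)) × (List (D m) × List (D m))) :=
    ({w | w.length = P.t j} ×ˢ {w | w.length = P.n j}) ×ˢ
    ({w | w.length = P.t j} ×ˢ {w | w.length = P.n j}) with hFdef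
  have hF : F.Finite := (hfin1.prod hfin2).prod (hfin1.prod hfin2)
  have hex : ∀ k, ∃ a ∈ F, a.1.1 ≠ a.2.1 ∧ a.1.1.length = P.t j ∧ a.2.1.length = P.t j ∧
      a.1.2 ∈ P.G j ∧ a.2.2 ∈ P.G j ∧ T β (a.1.1 ++ a.1.2) z ∈ Y β P k (j + 1) ∧
      T β (a.2.1 ++ a.2.2) z ∈ Y β P k (j + 1) := by
    intro k
    have := mem_iInter.1 hz (k + 1)
    obtain ⟨v, w, g1, g2, g3, ⟨u, hu, hu'⟩, ⟨u', hv, hv'⟩⟩ := this
    exact ⟨((v, u), (w, u')), ⟨⟨g2, P.hG j u hu⟩, ⟨g3, P.hG j u' hv⟩⟩, g1, g2, g3, hu, hv, hu', hv'⟩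
  obtain ⟨a, ha, hp⟩ := exists_forall_of_finite hF
    (p := fun k a => a.1.1 ≠ a.2.1 ∧ a.1.1.length = P.t j ∧ a.2.1.length = P.t j ∧
      a.1.2 ∈ P.G j ∧ a.2.2 ∈ P.G j ∧ T β (a.1.1 ++ a.1.2) z ∈ Y β P k (j + 1) ∧
      T β (a.2.1 ++ a.2.2) z ∈ Y β P k (j + 1))
    (fun k a hh => ⟨hh.1, hh.2.1, hh.2.2.1, hh.2.2.2.1, hh.2.2.2.2.1,
      h.Y_anti P k _ hh.2.2.2.2.2.1, h.Y_anti P k _ hh.2.2.2.2.2.2⟩) hex
  refine ⟨fun b => if b then a.1 else a.2, by simpa using (hp 0).1, ?_⟩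
  intro b
  cases b with
  | true =>
    simp only [if_true]
    exact ⟨(hp 0).2.1, (hp 0).2.2.2.1, mem_iInter.2 fun k => (hp k).2.2.2.2.2.1⟩
  | false =>
    simp only [Bool.false_eq_true, if_false]
    exact ⟨(hp 0).2.2.1, (hp 0).2.2.2.2.1, mem_iInter.2 fun k => (hp k).2.2.2.2.2.2⟩

/-- choice of the tolerances -/
lemma Ok.exists_tau {τ0 : ENNReal} (hτ0 : τ0 ≠ 0) :
    ∃ t : ℕ → ℕ, ∃ τ : ℕ → ENNReal, τ 0 = τ0 ∧ (∀ j, τ j ≠ 0) ∧
      (∀ j, volume (UU β m (t j)) ≤ τ j / 2) ∧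
      (∀ j, ((m + 1 : ℕ) * bb β) ^ t j * (5 * τ (j + 1)) ≤ τ j / 2) := by
  have hstep : ∀ x : {x : ENNReal // x ≠ 0}, ∃ t : ℕ, ∃ y : {x : ENNReal // x ≠ 0},
      volume (UU β m t) ≤ x.1 / 2 ∧ ((m + 1 : ℕ) * bb β) ^ t * (5 * y.1) ≤ x.1 / 2 := by
    rintro ⟨x, hx⟩
    have hx2 : 0 < x / 2 := ENNReal.div_pos hx (by norm_num)
    obtain ⟨t, ht⟩ := ((h.tendsto_UU.eventually (gt_mem_nhds hx2))).exists
    have hC : ((m + 1 : ℕ) * bb β) ^ t * 5 ≠ ⊤ := by
      refine ENNReal.mul_ne_top (ENNReal.pow_ne_top (ENNReal.mul_ne_top ?_ bb_ne_top)) ?_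
      · exact ENNReal.natCast_ne_top _
      · norm_num
    refine ⟨t, ⟨x / 2 / (((m + 1 : ℕ) * bb β) ^ t * 5), ENNReal.div_ne_zero.2 ⟨hx2.ne', hC⟩⟩,
      ht.le, ?_⟩
    rw [← mul_assoc]
    exact ENNReal.mul_div_le
  choose t y hy1 hy2 using hstep
  let s : ℕ → {x : ENNReal // x ≠ 0} := fun j => Nat.rec ⟨τ0, hτ0⟩ (fun _ x => y x) j
  exact ⟨fun j => t (s j), fun j => (s j).1, rfl, fun j => (s j).2, fun j => hy1 _, fun j => hy2 _⟩

end Pool.Agent.R787.Beta
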