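import Pool.Agent.R972.OP.Stm4

/-!
# OP3-IGD: the L1 inequality for samples with smooth positive log-concave densities
-/

set_option autoImplicit false

namespace Pool.Agent.R787.IGD

open MeasureTheory Set Filter Topology
open scoped ENNReal InnerProductSpace
open Pool.Agent.R972.OP
open Pool.Agent.W695.KH (Eu EU EV VV Sm Pot Uu)
open Pool.Agent.Y506.RG (EW VW LC1 GD ND OB Adm pm)

section basics

/-- `max (0, s)²` -/
theorem der_max (c s : ℝ) : HasDerivAt (fun s : ℝ => c / 2 * (max 0 s) ^ 2) (c * max 0 s) s := by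
  have key : HasDerivAt (fun s : ℝ => (max 0 s) ^ 2) (2 * max 0 s) s := by
    rcases lt_trichotomy s 0 with hs | hs | hs
    · rw [max_eq_left hs.le, mul_zero]
      refine (hasDerivAt_const s (0 : ℝ)).congr_of_eventuallyEq ?_
      filter_upwards [Iio_mem_nhds hs] with t ht
      rw [max_eq_left (le_of_lt ht)]
      norm_num
    · subst hs
      rw [max_self, mul_zero]
      rw [hasDerivAt_iff_isLittleO_nhds_zero]
      simp only [zero_add, max_self, smul_zero, sub_zero]
      have h0 : (fun h : ℝ => (max 0 h) ^ 2 - 0 ^ 2) =O[𝓝 0] fun h : ℝ => h ^ 2 := by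
        refine Asymptotics.isBigO_of_le _ fun h => ?_
        rw [Real.norm_eq_abs, Real.norm_eq_abs]
        rcases le_total h 0 with hh | hh
        · rw [max_eq_left hh]
          norm_num
          positivity
        · rw [max_eq_right hh]
          norm_num
      refine h0.trans_isLittleO ?_
      have := Asymptotics.isLittleO_pow_id (𝕜 := ℝ) (n := 2) (by norm_num)
      exact this
    · rw [max_eq_right hs.le]
      have h1 : HasDerivAt (fun t : ℝ => t ^ 2) (2 * s) s := by
        simpa using hasDerivAt_pow 2 s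
      refine h1.congr_of_eventuallyEq ?_
      filter_upwards [Ioi_mem_nhds hs] with t ht
      rw [max_eq_right (le_of_lt ht)]
  have e : c * max 0 s = c / 2 * (2 * max 0 s) := by ring
  rw [e]
  exact key.const_mul (c / 2)

theorem one_add_sum_le {ι : Type} (s : Finset ι) (a : ι → ℝ) (ha : ∀ i, 0 ≤ a i) :
    1 + ∑ i ∈ s, a i ≤ ∏ i ∈ s, (1 + a i) := by
  classical
  induction s using Finset.induction_on with
  | empty => simp
  | insert i s hi ih =>
    rw [Finset.sum_insert hi, Finset.prod_insert hi]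
    have h0 : 0 ≤ ∑ i ∈ s, a i := Finset.sum_nonneg fun i _ => ha i
    nlinarith [ha i, mul_nonneg (ha i) h0, mul_le_mul_of_nonneg_left ih (ha i)]

theorem max_lip (s t : ℝ) : |max 0 s - max 0 t| ≤ |s - t| := by
  have := abs_max_sub_max_le_abs s t 0
  rwa [max_comm s 0, max_comm t 0] at this

end basics

section dens
variable {n : ℕ} {h : ℝ → ℝ}

theorem cont_h (hG : GD h) : Continuous h := by
  obtain ⟨V', A, _, hder, _, _⟩ := hG.pot
  have h1 : Continuous fun s => -Real.log (h s) :=
    continuous_iff_continuousAt.2 fun s => (hder s).continuousAt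
  have h2 : h = fun s => Real.exp (-(-Real.log (h s))) := by
    funext s
    rw [neg_neg, Real.exp_log (hG.pos s)]
  rw [h2]
  exact Real.continuous_exp.comp h1.neg

theorem int_h2 (hG : GD h) : Integrable fun s => (1 + s ^ 2) * h s := by
  simpa using hG.exps 0

/-- the product density with weight is integrable -/
theorem int_prod (hG : GD h) (n : ℕ) :
    Integrable fun x : Eu (Fin n) => (1 + ‖x‖ ^ 2) * ∏ i, h (x i) := by
  have h1 : Integrable fun y : Fin n → ℝ => ∏ i, ((1 + y i ^ 2) * h (y i)) :=
    Integrable.fintype_prod (f := fun _ s => (1 + s ^ 2) * h s) fun _ => int_h2 hG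
  have h2 : Integrable fun x : Eu (Fin n) => ∏ i, ((1 + x i ^ 2) * h (x i)) := by
    have hmp := EuclideanSpace.volume_preserving_symm_measurableEquiv_toLp (Fin n)
    exact (hmp.integrable_comp_emb
      (MeasurableEquiv.toLp 2 (Fin n → ℝ)).symm.measurableEmbedding).2 h1
  have hc : Continuous fun x : Eu (Fin n) => (1 + ‖x‖ ^ 2) * ∏ i, h (x i) := by
    have := cont_h hG
    fun_prop
  refine Integrable.mono' h2 hc.aestronglyMeasurable (Eventually.of_forall fun x => ?_)
  have hp : 0 < ∏ i, h (x i) := Finset.prod_pos fun i _ => hG.pos _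
  rw [Real.norm_of_nonneg (by positivity), Finset.prod_mul_distrib]
  refine mul_le_mul_of_nonneg_right ?_ hp.le
  rw [EuclideanSpace.norm_sq_eq]
  simp only [Real.norm_eq_abs, sq_abs]
  exact one_add_sum_le _ _ fun i => sq_nonneg _

theorem int_prod0 (hG : GD h) (n : ℕ) :
    Integrable fun x : Eu (Fin n) => ∏ i, h (x i) := by
  have hc : Continuous fun x : Eu (Fin n) => ∏ i, h (x i) := by
    have := cont_h hG
    fun_prop
  refine Integrable.mono' (int_prod hG n) hc.aestronglyMeasurable
    (Eventually.of_forall fun x => ?_)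
  have hp : 0 < ∏ i, h (x i) := Finset.prod_pos fun i _ => hG.pos _
  rw [Real.norm_of_nonneg hp.le]
  nlinarith [sq_nonneg ‖x‖, mul_nonneg (sq_nonneg ‖x‖) hp.le]

theorem meas_Cn (R : Fin n → Fin n → Prop) : MeasurableSet (Cn R) := by
  have e : Cn R = ⋂ i, ⋂ j, ⋂ _ : R i j, {x : Eu (Fin n) | x i ≤ x j} := by
    ext x
    simp [Cn]
  rw [e]
  refine MeasurableSet.iInter fun i => MeasurableSet.iInter fun j => MeasurableSet.iInter fun _ => ?_
  exact measurableSet_le (by fun_prop) (by fun_prop)

theorem wR_le (hG : GD h) (R : Fin n → Fin n → Prop) (x : Eu (Fin n)) :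
    0 ≤ wR R h x ∧ wR R h x ≤ ∏ i, h (x i) := by
  have hp : 0 < ∏ i, h (x i) := Finset.prod_pos fun i _ => hG.pos _
  unfold wR
  by_cases hx : x ∈ Cn R
  · rw [indicator_of_mem hx]
    exact ⟨hp.le, le_rfl⟩
  · rw [indicator_of_notMem hx]
    exact ⟨le_rfl, hp.le⟩

theorem meas_wR (hG : GD h) (R : Fin n → Fin n → Prop) : Measurable (wR R h) := by
  have hc : Continuous fun x : Eu (Fin n) => ∏ i, h (x i) := by
    have := cont_h hG
    fun_prop
  exact hc.measurable.indicator (meas_Cn R)

theorem adm_wR (hG : GD h) (R : Fin n → Fin n → Prop) (hpos : 0 < ∫ x, wR R h x) :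
    Adm (wR R h) := by
  refine ⟨fun x => (wR_le hG R x).1, ?_, hpos, meas_wR hG R⟩
  refine Integrable.mono' (int_prod hG n) ?_ (Eventually.of_forall fun x => ?_)
  · exact ((by fun_prop : Measurable fun x : Eu (Fin n) => 1 + ‖x‖ ^ 2).mul
      (meas_wR hG R)).aestronglyMeasurable
  · obtain ⟨a1, a2⟩ := wR_le hG R x
    rw [Real.norm_of_nonneg (by positivity)]
    exact mul_le_mul_of_nonneg_left a2 (by positivity)

theorem vh_pos (hG : GD h) : 0 < vh h := by
  have hc := cont_h hG
  have i2 := int_h2 hG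
  have i0 : Integrable h := by
    refine Integrable.mono' i2 hc.aestronglyMeasurable (Eventually.of_forall fun s => ?_)
    have := hG.pos s
    rw [Real.norm_of_nonneg this.le]
    nlinarith [mul_nonneg (sq_nonneg s) this.le]
  have is2 : Integrable fun s => s ^ 2 * h s := by
    refine (i2.sub i0).congr (Eventually.of_forall fun s => ?_)
    simp only [Pi.sub_apply]
    ring
  have i1 : Integrable fun s => s * h s := by
    refine Integrable.mono' i2 (by fun_prop) (Eventually.of_forall fun s => ?_)
    have := hG.pos s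
    rw [norm_mul, Real.norm_eq_abs, Real.norm_of_nonneg this.le]
    refine mul_le_mul_of_nonneg_right ?_ this.le
    rw [abs_le]
    constructor <;> nlinarith [sq_nonneg (s - 1), sq_nonneg (s + 1)]
  have hZ : 0 < ∫ s, h s := by
    rw [integral_pos_iff_support_of_nonneg (fun s => (hG.pos s).le) i0]
    have : Function.support h = univ := by
      ext s
      simp [(hG.pos s).ne']
    rw [this]
    simp
  set m := mh h with hm
  have hI : Integrable fun s => (s - m) ^ 2 * h s := by
    refine ((is2.sub (i1.const_mul (2 * m))).add (i0.const_mul (m ^ 2))).congr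
      (Eventually.of_forall fun s => ?_)
    simp only [Pi.sub_apply, Pi.add_apply]
    ring
  have hpos : 0 < ∫ s, (s - m) ^ 2 * h s := by
    rw [integral_pos_iff_support_of_nonneg
      (fun s => mul_nonneg (sq_nonneg _) (hG.pos s).le) hI]
    have hsub : Ioi m ⊆ Function.support fun s => (s - m) ^ 2 * h s := by
      intro s hs
      rw [Function.mem_support]
      have h1 : s - m ≠ 0 := (sub_pos.2 hs).ne'
      exact mul_ne_zero (pow_ne_zero 2 h1) (hG.pos s).ne'
    refine lt_of_lt_of_le ?_ (measure_mono hsub)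
    simp
  have e : ∫ s, (s - m) ^ 2 * h s =
      (∫ s, s ^ 2 * h s) - 2 * m * (∫ s, s * h s) + m ^ 2 * ∫ s, h s := by
    have e0 : ∫ s, (s - m) ^ 2 * h s =
        ∫ s, ((s ^ 2 * h s - 2 * m * (s * h s)) + m ^ 2 * h s) :=
      integral_congr_ae (Eventually.of_forall fun s => by ring)
    have i3 : Integrable fun s => s ^ 2 * h s - 2 * m * (s * h s) :=
      is2.sub (i1.const_mul (2 * m))
    rw [e0, integral_add i3 (i0.const_mul (m ^ 2)),
      integral_sub is2 (i1.const_mul (2 * m)), integral_const_mul, integral_const_mul]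
  have hm1 : ∫ s, s * h s = m * ∫ s, h s := by
    rw [hm, mh, div_mul_cancel₀ _ hZ.ne']
  have : vh h = (∫ s, (s - m) ^ 2 * h s) / ∫ s, h s := by
    rw [e, hm1, vh, ← hm]
    field_simp
    ring
  rw [this]
  exact div_pos hpos hZ

end dens

section main
variable {n : ℕ}

open Classical in
/-- vectors of the ridge functions -/
noncomputable def vec (n : ℕ) : (Fin n ⊕ (Fin n × Fin n)) → Eu (Fin n)
  | .inl i => EuclideanSpace.single i 1
  | .inr p => EuclideanSpace.single p.1 1 - EuclideanSpace.single p.2 1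

open Classical in
/-- profiles of the ridge functions -/
noncomputable def rd (R : Fin n → Fin n → Prop) (h : ℝ → ℝ) (k : ℕ) :
    (Fin n ⊕ (Fin n × Fin n)) → ℝ → ℝ
  | .inl _, s => -Real.log (h s)
  | .inr p, s => if R p.1 p.2 then ((k : ℝ) + 1) / 2 * (max 0 s) ^ 2 else 0

open Classical in
/-- derivatives of the profiles -/
noncomputable def rd' (R : Fin n → Fin n → Prop) (V' : ℝ → ℝ) (k : ℕ) :
    (Fin n ⊕ (Fin n × Fin n)) → ℝ → ℝ
  | .inl _, s => V' s
  | .inr p, s => if R p.1 p.2 then ((k : ℝ) + 1) * max 0 s else 0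

open Classical in
/-- the penalty -/
noncomputable def pen (R : Fin n → Fin n → Prop) (x : Eu (Fin n)) : ℝ :=
  ∑ p : Fin n × Fin n, if R p.1 p.2 then (max 0 (x p.1 - x p.2)) ^ 2 / 2 else 0

theorem pen_nonneg (R : Fin n → Fin n → Prop) (x : Eu (Fin n)) : 0 ≤ pen R x := by
  unfold pen
  refine Finset.sum_nonneg fun p _ => ?_
  split_ifs <;> positivity

theorem pen_zero (R : Fin n → Fin n → Prop) (x : Eu (Fin n)) (hx : x ∈ Cn R) : pen R x = 0 := by
  unfold pen
  refine Finset.sum_eq_zero fun p _ => ?_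
  split_ifs with hp
  · have := hx p.1 p.2 hp
    rw [max_eq_left (by linarith)]
    norm_num
  · rfl

theorem pen_pos (R : Fin n → Fin n → Prop) (x : Eu (Fin n)) (hx : x ∉ Cn R) : 0 < pen R x := by
  simp only [Cn, Set.mem_ofPred_eq, not_forall, not_le] at hx
  obtain ⟨i, j, hij, hlt⟩ := hx
  unfold pen
  refine Finset.sum_pos' (fun p _ => ?_) ⟨(i, j), Finset.mem_univ _, ?_⟩
  · split_ifs <;> positivity
  · simp only [hij, if_true]
    rw [max_eq_right (by linarith)]
    have : 0 < x i - x j := by linarith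
    positivity

theorem cont_pen (R : Fin n → Fin n → Prop) : Continuous (pen R) := by
  unfold pen
  refine continuous_finsetSum _ fun p _ => ?_
  split_ifs
  · fun_prop
  · exact continuous_const

theorem inner_vec_inl (i : Fin n) (x : Eu (Fin n)) : ⟪vec n (.inl i), x⟫_ℝ = x i := by
  simp [vec, EuclideanSpace.inner_single_left]

theorem inner_vec_inr (p : Fin n × Fin n) (x : Eu (Fin n)) :
    ⟪vec n (.inr p), x⟫_ℝ = x p.1 - x p.2 := by
  simp [vec, inner_sub_left, EuclideanSpace.inner_single_left]

theorem exp_sum {h : ℝ → ℝ} (hG : GD h) (R : Fin n → Fin n → Prop) (k : ℕ) (c : ℝ)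
    (x : Eu (Fin n)) :
    Real.exp (-(∑ i, rd R h k i ⟪vec n i, x⟫_ℝ + c)) =
      Real.exp (-c) * ((∏ i, h (x i)) * Real.exp (-(((k : ℝ) + 1) * pen R x))) := by
  have e1 : ∑ i, rd R h k i ⟪vec n i, x⟫_ℝ =
      -(∑ i, Real.log (h (x i))) + ((k : ℝ) + 1) * pen R x := by
    rw [Fintype.sum_sum_type]
    simp only [inner_vec_inl, inner_vec_inr, rd, pen]
    rw [Finset.sum_neg_distrib, Finset.mul_sum]
    congr 1
    refine Finset.sum_congr rfl fun p _ => ?_
    split_ifs
    · ring
    · ring
  have e2 : ∏ i, h (x i) = Real.exp (∑ i, Real.log (h (x i))) := by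
    rw [Real.exp_sum]
    exact Finset.prod_congr rfl fun i _ => (Real.exp_log (hG.pos _)).symm
  rw [e1, e2, ← Real.exp_add, ← Real.exp_add]
  congr 1
  ring

/-- the approximating unnormalised densities -/
noncomputable def gk (R : Fin n → Fin n → Prop) (h : ℝ → ℝ) (k : ℕ) (x : Eu (Fin n)) : ℝ :=
  (∏ i, h (x i)) * Real.exp (-(((k : ℝ) + 1) * pen R x))

theorem gk_le {h : ℝ → ℝ} (hG : GD h) (R : Fin n → Fin n → Prop) (k : ℕ) (x : Eu (Fin n)) :
    0 < gk R h k x ∧ gk R h k x ≤ ∏ i, h (x i) ∧ wR R h x ≤ gk R h k x := by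
  have hp : 0 < ∏ i, h (x i) := Finset.prod_pos fun i _ => hG.pos _
  have hpen := pen_nonneg R x
  have hk : (0 : ℝ) ≤ (k : ℝ) + 1 := by positivity
  refine ⟨mul_pos hp (Real.exp_pos _), ?_, ?_⟩
  · unfold gk
    have : Real.exp (-(((k : ℝ) + 1) * pen R x)) ≤ 1 := by
      rw [Real.exp_le_one_iff]
      have := mul_nonneg hk hpen
      linarith
    calc (∏ i, h (x i)) * Real.exp (-(((k : ℝ) + 1) * pen R x)) ≤ (∏ i, h (x i)) * 1 :=
          mul_le_mul_of_nonneg_left this hp.le
      _ = _ := mul_one _
  · unfold wR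
    by_cases hx : x ∈ Cn R
    · rw [indicator_of_mem hx]
      unfold gk
      rw [pen_zero R x hx, mul_zero, neg_zero, Real.exp_zero, mul_one]
    · rw [indicator_of_notMem hx]
      exact (mul_pos hp (Real.exp_pos _)).le

theorem gk_tendsto {h : ℝ → ℝ} (R : Fin n → Fin n → Prop) (x : Eu (Fin n)) :
    Tendsto (fun k => gk R h k x) atTop (𝓝 (wR R h x)) := by
  unfold wR
  by_cases hx : x ∈ Cn R
  · rw [indicator_of_mem hx]
    have : (fun k => gk R h k x) = fun _ => ∏ i, h (x i) := by
      funext k
      unfold gk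
      rw [pen_zero R x hx, mul_zero, neg_zero, Real.exp_zero, mul_one]
    rw [this]
    exact tendsto_const_nhds
  · rw [indicator_of_notMem hx]
    have hpp := pen_pos R x hx
    have h1 : Tendsto (fun k : ℕ => ((k : ℝ) + 1) * pen R x) atTop atTop :=
      (tendsto_atTop_add_const_right _ _ tendsto_natCast_atTop_atTop).atTop_mul_const hpp
    have h2 : Tendsto (fun k : ℕ => Real.exp (-(((k : ℝ) + 1) * pen R x))) atTop (𝓝 0) :=
      Real.tendsto_exp_neg_atTop_nhds_zero.comp h1
    have := h2.const_mul (∏ i, h (x i))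
    rw [mul_zero] at this
    exact this

theorem cont_gk {h : ℝ → ℝ} (hG : GD h) (R : Fin n → Fin n → Prop) (k : ℕ) :
    Continuous (gk R h k) := by
  have h1 := cont_h hG
  have h2 := cont_pen R
  unfold gk
  fun_prop

theorem int_gk {h : ℝ → ℝ} (hG : GD h) (R : Fin n → Fin n → Prop) (k : ℕ) :
    Integrable (gk R h k) :=
  Integrable.mono' (int_prod0 hG n) (cont_gk hG R k).aestronglyMeasurable
    (Eventually.of_forall fun x => by
      rw [Real.norm_of_nonneg (gk_le hG R k x).1.le]
      exact (gk_le hG R k x).2.1)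

theorem igd (h1 : S_PGD) (h2 : S_RID) (h3 : S_CHD) : S_IGD := by
  obtain ⟨K, hK, HP⟩ := h1
  refine ⟨4 * Real.sqrt K, ?_, ?_⟩
  · have : 1 ≤ Real.sqrt K := Real.one_le_sqrt.2 hK
    linarith
  intro n R h hG hpos f L M hf hfb
  obtain ⟨V', A, hA, hder, hmono, hlip⟩ := hG.pot
  have hadm := adm_wR hG R hpos
  set Z : ℝ := ∫ x, wR R h x with hZ
  -- the constants
  set z : ℕ → ℝ := fun k => ∫ x, gk R h k x with hz
  have hwint : Integrable (wR R h) := by
    refine Integrable.mono' (int_prod0 hG n) (meas_wR hG R).aestronglyMeasurable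
      (Eventually.of_forall fun x => ?_)
    rw [Real.norm_of_nonneg (wR_le hG R x).1]
    exact (wR_le hG R x).2
  have hzZ : ∀ k, Z ≤ z k := fun k =>
    integral_mono hwint (int_gk hG R k) fun x => (gk_le hG R k x).2.2
  have hz0 : ∀ k, 0 < z k := fun k => lt_of_lt_of_le hpos (hzZ k)
  have hzlim : Tendsto z atTop (𝓝 Z) := by
    refine tendsto_integral_of_dominated_convergence (fun x : Eu (Fin n) => ∏ i, h (x i))
      (fun k => (cont_gk hG R k).aestronglyMeasurable) (int_prod0 hG n)
      (fun k => Eventually.of_forall fun x => ?_) (Eventually.of_forall fun x => gk_tendsto R x)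
    rw [Real.norm_of_nonneg (gk_le hG R k x).1.le]
    exact (gk_le hG R k x).2.1
  have hexp : ∀ (k : ℕ) (x : Eu (Fin n)),
      Real.exp (-(∑ i, rd R h k i ⟪vec n i, x⟫_ℝ + Real.log (z k))) = gk R h k x / z k := by
    intro k x
    rw [exp_sum hG, Real.exp_neg, Real.exp_log (hz0 k)]
    unfold gk
    rw [inv_mul_eq_div]
  have hpot : ∀ k : ℕ, ∃ (b : Eu (Fin n) → Eu (Fin n)) (A' : ℝ),
      Pot (fun x => ∑ i, rd R h k i ⟪vec n i, x⟫_ℝ + Real.log (z k)) b A' := by
    intro k
    have hk : (0 : ℝ) < (k : ℝ) + 1 := by positivity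
    refine h2 n (Fin n ⊕ (Fin n × Fin n)) (vec n) (rd R h k) (rd' R V' k) (A + ((k : ℝ) + 1))
      (Real.log (z k)) (by positivity) ?_ ?_ ?_ ?_
    · rintro (i | p) s
      · exact hder s
      · by_cases hp : R p.1 p.2
        · have e1 : rd R h k (.inr p) = fun s => ((k : ℝ) + 1) / 2 * (max 0 s) ^ 2 := by
            funext s
            simp [rd, hp]
          have e2 : rd' R V' k (.inr p) s = ((k : ℝ) + 1) * max 0 s := by simp [rd', hp]
          rw [e1, e2]
          exact der_max _ s
        · have e1 : rd R h k (.inr p) = fun _ => 0 := by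
            funext s
            simp [rd, hp]
          have e2 : rd' R V' k (.inr p) s = 0 := by simp [rd', hp]
          rw [e1, e2]
          exact hasDerivAt_const s _
    · rintro (i | p)
      · exact hmono
      · intro s t hst
        simp only [rd']
        split_ifs
        · exact mul_le_mul_of_nonneg_left (max_le_max le_rfl hst) hk.le
        · exact le_rfl
    · rintro (i | p) s t
      · simp only [rd']
        refine (hlip s t).trans (mul_le_mul_of_nonneg_right (by linarith) (abs_nonneg _))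
      · simp only [rd']
        split_ifs
        · rw [← mul_sub, abs_mul, abs_of_pos hk]
          calc ((k : ℝ) + 1) * |max 0 s - max 0 t| ≤ ((k : ℝ) + 1) * |s - t| :=
                mul_le_mul_of_nonneg_left (max_lip s t) hk.le
            _ ≤ (A + ((k : ℝ) + 1)) * |s - t| :=
                mul_le_mul_of_nonneg_right (by linarith) (abs_nonneg _)
        · rw [sub_self, abs_zero]
          exact mul_nonneg (by linarith) (abs_nonneg _)
    · simp only [hexp]
      refine Integrable.mono' ((int_prod hG n).const_mul (z k)⁻¹) ?_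
        (Eventually.of_forall fun x => ?_)
      · have := cont_gk hG R k
        exact (by fun_prop : Continuous fun x : Eu (Fin n) =>
          (1 + ‖x‖ ^ 2) * (gk R h k x / z k)).aestronglyMeasurable
      · have a1 := gk_le hG R k x
        rw [Real.norm_of_nonneg (mul_nonneg (by positivity) (div_pos a1.1 (hz0 k)).le)]
        calc (1 + ‖x‖ ^ 2) * (gk R h k x / z k) = (z k)⁻¹ * ((1 + ‖x‖ ^ 2) * gk R h k x) := by
              ring
          _ ≤ (z k)⁻¹ * ((1 + ‖x‖ ^ 2) * ∏ i, h (x i)) := by
              refine mul_le_mul_of_nonneg_left (mul_le_mul_of_nonneg_left a1.2.1 (by positivity))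
                (inv_pos.2 (hz0 k)).le
  choose b A' hP using hpot
  have hCp : 0 < K * vh h := mul_pos (by linarith) (vh_pos hG)
  have key := h3 n (wR R h)
    (fun k x => ∑ i, rd R h k i ⟪vec n i, x⟫_ℝ + Real.log (z k)) b A' (K * vh h) hadm hCp
    hP ?_ ?_ (fun g hg hgb hgl => HP n R h hG g hg hgb hgl) f L M hf hfb
  · rw [Real.sqrt_mul (by linarith)] at key
    calc VW (wR R h) f ≤ 4 * (Real.sqrt K * Real.sqrt (vh h)) *
          EW (wR R h) fun x => ‖fderiv ℝ f x‖ := key
      _ = 4 * Real.sqrt K * Real.sqrt (vh h) * EW (wR R h) fun x => ‖fderiv ℝ f x‖ := by ring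
  · intro k
    unfold EU
    simp only [one_mul, hexp]
    rw [integral_div]
    exact div_self (hz0 k).ne'
  · simp only [hexp]
    have hlim : Tendsto (fun k => ∫ x, |gk R h k x / z k - wR R h x / Z|) atTop
        (𝓝 (∫ _ : Eu (Fin n), (0 : ℝ))) := by
      refine tendsto_integral_of_dominated_convergence
        (fun x : Eu (Fin n) => 2 / Z * ∏ i, h (x i)) (fun k => ?_)
        ((int_prod0 hG n).const_mul _) (fun k => Eventually.of_forall fun x => ?_)
        (Eventually.of_forall fun x => ?_)
      · exact ((((cont_gk hG R k).measurable.div_const _).sub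
          ((meas_wR hG R).div_const _)).abs).aestronglyMeasurable
      · have a1 := gk_le hG R k x
        have a2 := wR_le hG R x
        rw [Real.norm_eq_abs, abs_abs]
        have b1 : gk R h k x / z k ≤ (∏ i, h (x i)) / Z :=
          div_le_div₀ (a2.1.trans a2.2) a1.2.1 hpos (hzZ k)
        have b2 : wR R h x / Z ≤ (∏ i, h (x i)) / Z := div_le_div_of_nonneg_right a2.2 hpos.le
        have b3 : 0 ≤ gk R h k x / z k := (div_pos a1.1 (hz0 k)).le
        have b4 : 0 ≤ wR R h x / Z := div_nonneg a2.1 hpos.le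
        have b5 : 2 / Z * ∏ i, h (x i) = (∏ i, h (x i)) / Z + (∏ i, h (x i)) / Z := by ring
        rw [b5, abs_le]
        constructor <;> linarith
      · have c1 := (gk_tendsto (h := h) R x).div hzlim hpos.ne'
        have c2 := (c1.sub_const (wR R h x / Z)).abs
        rw [sub_self, abs_zero] at c2
        exact c2
    simpa using hlim

end main

end Pool.Agent.R787.IGD
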