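import Mathlib

/-!
# A cone lemma for perturbed linear differential equations
-/

set_option autoImplicit false

namespace Pool.Agent.R787.Oper

variable {ι : Type*} [Fintype ι]

lemma hasDerivAt_coord {v : ℝ → EuclideanSpace ℂ ι} {v' : EuclideanSpace ℂ ι} {s : ℝ}
    (h : HasDerivAt v v' s) (j : ι) : HasDerivAt (fun s => v s j) (v' j) s := by
  have := ((EuclideanSpace.proj j : EuclideanSpace ℂ ι →L[ℂ] ℂ).restrictScalars ℝ).hasFDerivAt.comp_hasDerivAt s h
  exact this

lemma cross_bound (A : Finset ι) (x y : EuclideanSpace ℂ ι) :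
    |∑ j ∈ A, inner ℝ (x j) (y j)| ≤ ‖x‖ * ‖y‖ := by
  calc |∑ j ∈ A, inner ℝ (x j) (y j)| ≤ ∑ j ∈ A, |inner ℝ (x j) (y j)| :=
        Finset.abs_sum_le_sum_abs _ _
    _ ≤ ∑ j ∈ A, ‖x j‖ * ‖y j‖ := Finset.sum_le_sum fun j _ => abs_real_inner_le_norm _ _
    _ ≤ ∑ j, ‖x j‖ * ‖y j‖ := Finset.sum_le_sum_of_subset_of_nonneg (Finset.subset_univ _)
        fun j _ _ => by positivity
    _ ≤ √(∑ j, ‖x j‖ ^ 2) * √(∑ j, ‖y j‖ ^ 2) := Real.sum_mul_le_sqrt_mul_sqrt _ _ _
    _ = ‖x‖ * ‖y‖ := by rw [EuclideanSpace.norm_eq, EuclideanSpace.norm_eq]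

open Classical in
/-- The cone lemma. -/
theorem cone (w : ι → ℝ) (hw : ∀ j, 0 ≤ w j ∨ w j ≤ -1) {η : ℝ} (hη' : η ≤ 1 / 8) {t : ℝ}
    (ht : 0 ≤ t) (v r : ℝ → EuclideanSpace ℂ ι)
    (hv : ∀ s j, HasDerivAt (fun s => v s j) ((w j : ℂ) * v s j + r s j) s)
    (hr : ∀ s, ‖r s‖ ≤ η * ‖v s‖) :
    ((∀ j, w j < 0 → v 0 j = 0) → ‖v 0‖ ^ 2 ≤ Real.exp (4 * η * t) * ‖v t‖ ^ 2) ∧
    ((∀ j, 0 ≤ w j → v t j = 0) → ‖v t‖ ^ 2 ≤ Real.exp (-((2 - 4 * η) * t)) * ‖v 0‖ ^ 2) := by
  set P : Finset ι := Finset.univ.filter fun j => 0 ≤ w j with hP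
  set N : Finset ι := Finset.univ.filter fun j => ¬ 0 ≤ w j with hN
  set p : ℝ → ℝ := fun s => ∑ j ∈ P, ‖v s j‖ ^ 2 with hp
  set q : ℝ → ℝ := fun s => ∑ j ∈ N, ‖v s j‖ ^ 2 with hq
  have hn : ∀ s, ‖v s‖ ^ 2 = p s + q s := by
    intro s
    rw [EuclideanSpace.norm_sq_eq, hp, hq]
    exact (Finset.sum_filter_add_sum_filter_not _ _ _).symm
  have hp0 : ∀ s, 0 ≤ p s := fun s => Finset.sum_nonneg fun j _ => by positivity
  have hq0 : ∀ s, 0 ≤ q s := fun s => Finset.sum_nonneg fun j _ => by positivity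
  have hd : ∀ s j, HasDerivAt (fun s => ‖v s j‖ ^ 2)
      (2 * (w j * ‖v s j‖ ^ 2 + inner ℝ (v s j) (r s j))) s := by
    intro s j
    have h := (hv s j).norm_sq
    convert! h using 2
    rw [inner_add_right]
    congr 1
    rw [Complex.inner, mul_assoc, Complex.mul_conj', Complex.re_ofReal_mul]
    norm_cast
  have hpd : ∀ s, HasDerivAt p (∑ j ∈ P, 2 * (w j * ‖v s j‖ ^ 2 + inner ℝ (v s j) (r s j))) s := by
    intro s
    have := HasDerivAt.sum (u := P) (fun j _ => hd s j)
    convert! this using 1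
    ext s; simp [hp]
  have hqd : ∀ s, HasDerivAt q (∑ j ∈ N, 2 * (w j * ‖v s j‖ ^ 2 + inner ℝ (v s j) (r s j))) s := by
    intro s
    have := HasDerivAt.sum (u := N) (fun j _ => hd s j)
    convert! this using 1
    ext s; simp [hq]
  have hcr : ∀ (A : Finset ι) s, |∑ j ∈ A, inner ℝ (v s j) (r s j)| ≤ η * (p s + q s) := by
    intro A s
    rw [← hn]
    calc _ ≤ ‖v s‖ * ‖r s‖ := cross_bound A _ _
      _ ≤ ‖v s‖ * (η * ‖v s‖) := by gcongr; exact hr s
      _ = _ := by ring
  have hpl : ∀ s, -(2 * η * (p s + q s)) ≤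
      ∑ j ∈ P, 2 * (w j * ‖v s j‖ ^ 2 + inner ℝ (v s j) (r s j)) := by
    intro s
    have h1 : 0 ≤ ∑ j ∈ P, w j * ‖v s j‖ ^ 2 := Finset.sum_nonneg fun j hj => by
      rw [hP, Finset.mem_filter] at hj
      have := hj.2
      positivity
    have h2 := (abs_le.1 (hcr P s)).1
    rw [← Finset.mul_sum, Finset.sum_add_distrib]
    linarith
  have hql : ∀ s, ∑ j ∈ N, 2 * (w j * ‖v s j‖ ^ 2 + inner ℝ (v s j) (r s j)) ≤
      -(2 * q s) + 2 * η * (p s + q s) := by
    intro s
    have h1 : ∑ j ∈ N, w j * ‖v s j‖ ^ 2 ≤ - q s := by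
      rw [hq, ← Finset.sum_neg_distrib]
      refine Finset.sum_le_sum fun j hj => ?_
      rw [hN, Finset.mem_filter] at hj
      have h3 : w j ≤ -1 := (hw j).resolve_left hj.2
      nlinarith [sq_nonneg ‖v s j‖]
    have h2 := (abs_le.1 (hcr N s)).2
    rw [← Finset.mul_sum, Finset.sum_add_distrib]
    linarith
  -- the difference
  have hexpd : ∀ (a s : ℝ), HasDerivAt (fun s => Real.exp (a * s)) (Real.exp (a * s) * a) s := by
    intro a s
    have := ((hasDerivAt_id s).const_mul a).exp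
    simpa using this
  have hDmono : MonotoneOn (fun s => Real.exp (1 * s) * (p s - q s)) (Set.univ : Set ℝ) := by
    apply monotoneOn_of_hasDerivWithinAt_nonneg (f' := fun s => Real.exp (1 * s) * 1 * (p s - q s) +
      Real.exp (1 * s) * (∑ j ∈ P, 2 * (w j * ‖v s j‖ ^ 2 + inner ℝ (v s j) (r s j)) -
        ∑ j ∈ N, 2 * (w j * ‖v s j‖ ^ 2 + inner ℝ (v s j) (r s j)))) convex_univ
    · exact fun s _ => (((hexpd 1 s).mul ((hpd s).sub (hqd s))).continuousAt).continuousWithinAt
    · exact fun s _ => ((hexpd 1 s).mul ((hpd s).sub (hqd s))).hasDerivWithinAt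
    · intro s _
      have h1 := hpl s
      have h2 := hql s
      have h3 := hp0 s
      have h4 := hq0 s
      have h5 : 0 ≤ (p s - q s) + (∑ j ∈ P, 2 * (w j * ‖v s j‖ ^ 2 + inner ℝ (v s j) (r s j)) -
        ∑ j ∈ N, 2 * (w j * ‖v s j‖ ^ 2 + inner ℝ (v s j) (r s j))) := by nlinarith
      have h6 := mul_nonneg (Real.exp_pos (1 * s)).le h5
      linarith
  constructor
  · intro h0
    have hq00 : q 0 = 0 := Finset.sum_eq_zero fun j hj => by
      rw [hN, Finset.mem_filter, not_le] at hj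
      rw [h0 j hj.2]; simp
    have hD : ∀ s, 0 ≤ s → q s ≤ p s := by
      intro s hs
      have := hDmono (Set.mem_univ 0) (Set.mem_univ s) hs
      simp only [mul_zero, Real.exp_zero, one_mul, hq00, sub_zero] at this
      have h1 : 0 ≤ Real.exp s * (p s - q s) := (hp0 0).trans this
      have := nonneg_of_mul_nonneg_right h1 (Real.exp_pos s)
      linarith
    have hmono : MonotoneOn (fun s => Real.exp ((4 * η) * s) * p s) (Set.Ici (0 : ℝ)) := by
      apply monotoneOn_of_hasDerivWithinAt_nonneg (f' := fun s => Real.exp ((4 * η) * s) * (4 * η) * p s +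
        Real.exp ((4 * η) * s) * (∑ j ∈ P, 2 * (w j * ‖v s j‖ ^ 2 + inner ℝ (v s j) (r s j))))
        (convex_Ici 0)
      · exact fun s _ => (((hexpd _ s).mul (hpd s)).continuousAt).continuousWithinAt
      · exact fun s _ => ((hexpd _ s).mul (hpd s)).hasDerivWithinAt
      · intro s hs
        rw [interior_Ici] at hs
        have h1 := hpl s
        have h2 := hD s (le_of_lt hs)
        have h3 := hp0 s
        have h4 := hq0 s
        by_cases hη : 0 ≤ η
        · have h5 : 0 ≤ (4 * η) * p s + ∑ j ∈ P, 2 * (w j * ‖v s j‖ ^ 2 + inner ℝ (v s j) (r s j)) := by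
            nlinarith [mul_le_mul_of_nonneg_left h2 hη]
          have h6 := mul_nonneg (Real.exp_pos ((4 * η) * s)).le h5
          linarith
        · -- then everything vanishes
          have h7 : ‖v s‖ = 0 := by
            have h8 := hr s
            have h9 := norm_nonneg (r s)
            by_contra hne
            have h10 : 0 < ‖v s‖ := lt_of_le_of_ne (norm_nonneg _) (Ne.symm hne)
            nlinarith
          have h11 := hn s
          rw [h7] at h11
          have h12 : p s = 0 := by nlinarith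
          have h13 : q s = 0 := by nlinarith
          rw [h12, h13] at h1
          rw [h12]
          have h14 : 0 ≤ ∑ j ∈ P, 2 * (w j * ‖v s j‖ ^ 2 + inner ℝ (v s j) (r s j)) := by linarith
          have := mul_nonneg (Real.exp_pos ((4 * η) * s)).le h14
          linarith
    have := hmono Set.self_mem_Ici (Set.mem_Ici.2 ht) ht
    simp only [mul_zero, Real.exp_zero, one_mul] at this
    rw [hn 0, hq00, add_zero]
    refine this.trans ?_
    gcongr
    rw [hn t]
    linarith [hq0 t]
  · intro h0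
    have hp00 : p t = 0 := Finset.sum_eq_zero fun j hj => by
      rw [hP, Finset.mem_filter] at hj
      rw [h0 j hj.2]; simp
    have hD : ∀ s, s ≤ t → p s ≤ q s := by
      intro s hs
      have := hDmono (Set.mem_univ s) (Set.mem_univ t) hs
      simp only [one_mul, hp00, zero_sub] at this
      have h1 : Real.exp s * (p s - q s) ≤ 0 := by
        refine this.trans ?_
        have := mul_nonneg (Real.exp_pos t).le (hq0 t)
        linarith
      by_contra hcon
      have := mul_pos (Real.exp_pos s) (sub_pos.2 (not_le.1 hcon))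
      linarith
    have hanti : AntitoneOn (fun s => Real.exp ((2 - 4 * η) * s) * q s) (Set.Iic t) := by
      apply antitoneOn_of_hasDerivWithinAt_nonpos (f' := fun s => Real.exp ((2 - 4 * η) * s) * (2 - 4 * η) * q s +
        Real.exp ((2 - 4 * η) * s) * (∑ j ∈ N, 2 * (w j * ‖v s j‖ ^ 2 + inner ℝ (v s j) (r s j))))
        (convex_Iic t)
      · exact fun s _ => (((hexpd _ s).mul (hqd s)).continuousAt).continuousWithinAt
      · exact fun s _ => ((hexpd _ s).mul (hqd s)).hasDerivWithinAt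
      · intro s hs
        rw [interior_Iic] at hs
        have h1 := hql s
        have h2 := hD s (le_of_lt hs)
        have h3 := hp0 s
        have h4 := hq0 s
        by_cases hη : 0 ≤ η
        · have h5 : (2 - 4 * η) * q s + ∑ j ∈ N, 2 * (w j * ‖v s j‖ ^ 2 + inner ℝ (v s j) (r s j)) ≤ 0 := by
            nlinarith [mul_le_mul_of_nonneg_left h2 hη]
          have h6 := mul_nonneg (Real.exp_pos ((2 - 4 * η) * s)).le (neg_nonneg.2 h5)
          linarith
        · have h7 : ‖v s‖ = 0 := by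
            have h8 := hr s
            have h9 := norm_nonneg (r s)
            by_contra hne
            have h10 : 0 < ‖v s‖ := lt_of_le_of_ne (norm_nonneg _) (Ne.symm hne)
            nlinarith
          have h11 := hn s
          rw [h7] at h11
          have h12 : p s = 0 := by nlinarith
          have h13 : q s = 0 := by nlinarith
          rw [h12, h13] at h1
          rw [h13]
          have h14 : ∑ j ∈ N, 2 * (w j * ‖v s j‖ ^ 2 + inner ℝ (v s j) (r s j)) ≤ 0 := by linarith
          have := mul_nonneg (Real.exp_pos ((2 - 4 * η) * s)).le (neg_nonneg.2 h14)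
          linarith
    have := hanti (Set.mem_Iic.2 ht) Set.self_mem_Iic ht
    simp only [mul_zero, Real.exp_zero, one_mul] at this
    rw [hn t, hp00, zero_add]
    have h5 : q t ≤ Real.exp (-((2 - 4 * η) * t)) * q 0 := by
      rw [Real.exp_neg, ← div_eq_inv_mul, le_div_iff₀ (Real.exp_pos _), mul_comm]
      exact this
    refine h5.trans ?_
    gcongr
    rw [hn 0]
    linarith [hp0 0]

end Pool.Agent.R787.Oper
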