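import Pool.Agent.R787.OpGeo
import Pool.Agent.R787.OpCone

/-!
# The change of frame along geodesics, in matrix form
-/

set_option autoImplicit false

open UpperHalfPlane Matrix MatrixGroups Module NormedSpace

namespace Pool.Agent.R787.Oper

section alg

variable {𝔸 : Type*} [NormedRing 𝔸] [NormedAlgebra ℂ 𝔸] [CompleteSpace 𝔸]

lemma exp_mul_exp_neg (X : 𝔸) : exp X * exp (-X) = 1 := by
  rw [← NormedSpace.exp_add_of_commute_of_mem_ball (𝕂 := ℂ) (Commute.neg_right (Commute.refl X))]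
  · simp
  · rw [NormedSpace.expSeries_radius_eq_top]; simp
  · rw [NormedSpace.expSeries_radius_eq_top]; simp

lemma exp_neg_mul_exp (X : 𝔸) : exp (-X) * exp X = 1 := by
  have := exp_mul_exp_neg (-X)
  rwa [neg_neg] at this

lemma hasDerivAt_expX (X : 𝔸) (t : ℂ) :
    HasDerivAt (fun u : ℂ => exp (u • X)) (exp (t • X) * X) t :=
  hasDerivAt_exp_smul_const X t

lemma hasDerivAt_expX' (X : 𝔸) (t : ℂ) :
    HasDerivAt (fun u : ℂ => exp (u • X)) (X * exp (t • X)) t :=
  hasDerivAt_exp_smul_const' X t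

lemma exp_intertwine (X : 𝔸) (P P' : ℂ → 𝔸) (hP : ∀ t, HasDerivAt P (P' t) t)
    (h : ∀ t, X * P t - P t * X + P' t = 0) (t : ℂ) :
    exp (t • X) * P t = P 0 * exp (t • X) := by
  set G : ℂ → 𝔸 := fun t => exp (t • X) * P t * exp (t • (-X)) with hG
  have hGd : ∀ t, HasDerivAt G 0 t := by
    intro t
    have := ((hasDerivAt_expX X t).mul (hP t)).mul (hasDerivAt_expX' (-X) t)
    convert! this using 1
    have h1 := h t
    calc (0 : 𝔸) = exp (t • X) * (X * P t - P t * X + P' t) * exp (t • -X) := by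
          rw [h1]; simp
      _ = _ := by simp only [Pi.mul_apply]; noncomm_ring
  have hc : G t = G 0 := is_const_of_deriv_eq_zero (fun t => (hGd t).differentiableAt)
    (fun t => (hGd t).deriv) t 0
  have h0 : G 0 = P 0 := by simp [hG]
  rw [h0] at hc
  rw [← hc, hG]
  simp only
  rw [mul_assoc (exp (t • X) * P t), smul_neg, exp_neg_mul_exp, mul_one]

lemma abs_exp_F {X F H : 𝔸} (hX : H * X - X * H = (2 : ℂ) • X) (hXF : X * F - F * X = H) (κ : ℂ) :
    exp (κ • (-X)) * F = (F - κ • H - κ ^ 2 • X) * exp (κ • (-X)) := by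
  have h := exp_intertwine X (fun t => F - t • H - t ^ 2 • X)
    (fun t => - H - (2 * t) • X) (fun t => by
      have h1 := ((hasDerivAt_const t F).sub ((hasDerivAt_id t).smul_const H)).sub
        (((hasDerivAt_id t).pow 2).smul_const X)
      convert! h1 using 1
      simp) (fun t => by
      have e1 : X * H = H * X - (2 : ℂ) • X := by rw [← hX]; abel
      simp only [mul_sub, sub_mul, mul_smul_comm, smul_mul_assoc]
      rw [e1, ← hXF]
      simp only [smul_sub, smul_smul]
      module) κ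
  simp only [zero_smul, sub_zero, ne_eq, OfNat.ofNat_ne_zero, not_false_eq_true, zero_pow] at h
  rw [smul_neg]
  have e3 := exp_neg_mul_exp (κ • X)
  have e4 := exp_mul_exp_neg (κ • X)
  calc exp (-(κ • X)) * F = exp (-(κ • X)) * (F * exp (κ • X)) * exp (-(κ • X)) := by
        rw [mul_assoc, mul_assoc, e4, mul_one]
    _ = exp (-(κ • X)) * (exp (κ • X) * (F - κ • H - κ ^ 2 • X)) *
        exp (-(κ • X)) := by rw [h]
    _ = _ := by rw [← mul_assoc (exp (-(κ • X))), e3, one_mul]

lemma abs_exp_A {X A : 𝔸} (h : X * A = A * X) (κ : ℂ) : exp (κ • (-X)) * A =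
    A * exp (κ • (-X)) := by
  have h := exp_intertwine (-X) (fun _ => A) (fun _ => 0)
    (fun t => hasDerivAt_const t _) (fun t => by
      rw [add_zero, neg_mul, mul_neg, h]; simp) κ
  exact h

lemma abs_exp_conj {F H : 𝔸} (hF : H * F - F * H = (-2 : ℂ) • F) :
    exp (Complex.I • F) * ((1 / 2 : ℂ) • H - Complex.I • F) =
    (1 / 2 : ℂ) • H * exp (Complex.I • F) := by
  have h := exp_intertwine F (fun t => (1 / 2 : ℂ) • H - t • F) (fun t => - F)
    (fun t => by
      have h1 := (hasDerivAt_const t ((1 / 2 : ℂ) • H)).sub ((hasDerivAt_id t).smul_const F)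
      convert! h1 using 1
      simp) (fun t => by
      have e1 : F * H = H * F + (2 : ℂ) • F := by
        have : (2 : ℂ) • F = -((-2 : ℂ) • F) := by module
        rw [this, ← hF]; abel
      simp only [mul_sub, sub_mul, mul_smul_comm, smul_mul_assoc]
      rw [e1]
      module) Complex.I
  simpa using h

lemma exists_exp_bound (X : 𝔸) : ∃ K : ℝ, 0 < K ∧ ∀ κ : ℂ, ‖κ‖ ≤ 1 → ‖exp (κ • X)‖ ≤ K := by
  have hc : Continuous fun κ : ℂ => exp (κ • X) :=
    continuous_iff_continuousAt.2 fun κ => (hasDerivAt_expX X κ).continuousAt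
  obtain ⟨K, hK⟩ := (isCompact_closedBall (0 : ℂ) 1).exists_bound_of_continuousOn hc.continuousOn
  refine ⟨max K 1, by positivity, fun κ hκ => (hK κ ?_).trans (le_max_left _ _)⟩
  rw [Metric.mem_closedBall, dist_zero_right]
  exact hκ

end alg

section mat

variable {ι : Type*} [Fintype ι] [DecidableEq ι]

/-- coordinate projections -/
noncomputable def cp (j : ι) : EuclideanSpace ℂ ι →L[ℂ] EuclideanSpace ℂ ι :=
  (EuclideanSpace.proj j : EuclideanSpace ℂ ι →L[ℂ] ℂ).smulRight (EuclideanSpace.single j 1)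

lemma cp_apply (j : ι) (x : EuclideanSpace ℂ ι) (i : ι) :
    (cp j x) i = if i = j then x j else 0 := by
  simp [cp]

/-- diagonal operators -/
noncomputable def dop (c : ι → ℂ) : EuclideanSpace ℂ ι →L[ℂ] EuclideanSpace ℂ ι :=
  ∑ j, c j • cp j

lemma dop_apply (c : ι → ℂ) (x : EuclideanSpace ℂ ι) (i : ι) : (dop c x) i = c i * x i := by
  rw [dop, _root_.sum_apply]
  rw [WithLp.ofLp_sum, Finset.sum_apply]
  simp only [_root_.smul_apply, PiLp.smul_apply, cp_apply, smul_eq_mul, mul_ite,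
    mul_zero]
  simp

lemma dop_mul (c d : ι → ℂ) : dop c * dop d = dop (fun j => c j * d j) := by
  ext x i
  rw [mul_apply_eq_comp]
  rw [dop_apply, dop_apply, dop_apply, mul_assoc]

lemma dop_one : dop (fun _ : ι => (1 : ℂ)) = 1 := by
  ext x i
  rw [dop_apply]; simp

lemma norm_dop_le (c : ι → ℂ) {K : ℝ} (hK : 0 ≤ K) (h : ∀ j, ‖c j‖ ≤ K) : ‖dop c‖ ≤ K := by
  refine ContinuousLinearMap.opNorm_le_bound _ hK fun x => ?_
  rw [← sq_le_sq₀ (norm_nonneg _) (by positivity), mul_pow, EuclideanSpace.norm_sq_eq,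
    EuclideanSpace.norm_sq_eq, Finset.mul_sum]
  refine Finset.sum_le_sum fun j _ => ?_
  rw [dop_apply, norm_mul, mul_pow]
  gcongr
  exact h j

/-- the torus -/
noncomputable def torE (w : ι → ℤ) (t : ℂ) : EuclideanSpace ℂ ι →L[ℂ] EuclideanSpace ℂ ι :=
  dop fun j => t ^ (w j)

lemma op_ext {A B : EuclideanSpace ℂ ι →L[ℂ] EuclideanSpace ℂ ι}
    (h : ∀ j, A (EuclideanSpace.single j 1) = B (EuclideanSpace.single j 1)) : A = B := by
  apply ContinuousLinearMap.coe_injective
  apply (EuclideanSpace.basisFun ι ℂ).toBasis.ext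
  intro j
  simpa using h j

lemma dop_single (c : ι → ℂ) (j : ι) : dop c (EuclideanSpace.single j 1) =
    c j • EuclideanSpace.single j (1 : ℂ) := by
  ext i
  rw [dop_apply]
  simp only [PiLp.smul_apply, PiLp.single_apply, smul_eq_mul]
  split_ifs with h
  · rw [h]
  · simp

lemma torE_comm (w : ι → ℤ) {B : EuclideanSpace ℂ ι →L[ℂ] EuclideanSpace ℂ ι} {k : ℤ}
    (hB : dop (fun j => (w j : ℂ)) * B - B * dop (fun j => (w j : ℂ)) = (k : ℂ) • B) {t : ℂ}
    (ht : t ≠ 0) : torE w t * B = t ^ k • (B * torE w t) := by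
  apply op_ext
  intro j
  ext i
  have h := congrArg (fun A : EuclideanSpace ℂ ι →L[ℂ] EuclideanSpace ℂ ι =>
    (A (EuclideanSpace.single j 1)) i) hB
  simp only [_root_.sub_apply, mul_apply_eq_comp,
    _root_.smul_apply, dop_single, map_smul, PiLp.sub_apply, PiLp.smul_apply,
    dop_apply, smul_eq_mul] at h
  simp only [torE, mul_apply_eq_comp, _root_.smul_apply, dop_single,
    map_smul, PiLp.smul_apply, dop_apply, smul_eq_mul]
  set b := (B (EuclideanSpace.single j 1)) i with hb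
  by_cases hb0 : b = 0
  · rw [hb0]; simp
  · have h2 : (w i : ℂ) - w j = k := by
      apply mul_right_cancel₀ hb0
      linear_combination h
    have h3 : w i = w j + k := by
      have : w i - w j = k := by exact_mod_cast h2
      omega
    rw [h3, zpow_add₀ ht]
    ring

lemma torE_mul (w : ι → ℤ) (s t : ℂ) : torE w s * torE w t = torE w (s * t) := by
  rw [torE, torE, dop_mul]
  congr 1
  ext j
  rw [mul_zpow]

lemma torE_one (w : ι → ℤ) : torE w 1 = 1 := by
  rw [torE, ← dop_one]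
  congr 1
  ext j
  simp

lemma hasDerivAt_torE (w : ι → ℤ) {f : ℂ → ℂ} {f' s : ℂ} (hf : HasDerivAt f f' s)
    (h0 : f s ≠ 0) : HasDerivAt (fun s => torE w (f s)⁻¹)
      ((-(f' / f s)) • (dop (fun j => (w j : ℂ)) * torE w (f s)⁻¹)) s := by
  have h1 : HasDerivAt (fun s => ∑ j, ((f s)⁻¹ ^ (w j)) • cp j)
      (∑ j, ((w j : ℂ) * (f s)⁻¹ ^ (w j - 1) * (-f' / (f s) ^ 2)) • cp j) s := by
    have := HasDerivAt.sum (u := Finset.univ) (fun (j : ι) _ =>
      (((hasDerivAt_zpow (w j) (f s)⁻¹ (Or.inl (inv_ne_zero h0))).comp s (hf.inv h0)).smul_const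
        (cp j)))
    convert! this using 1
    ext s
    simp
  have h2 : (fun s => torE w (f s)⁻¹) = (fun s => ∑ j, ((f s)⁻¹ ^ (w j)) • cp j) := rfl
  rw [h2]
  convert! h1 using 1
  rw [torE, dop_mul, dop, Finset.smul_sum]
  refine Finset.sum_congr rfl fun j _ => ?_
  rw [smul_smul]
  congr 1
  rw [zpow_sub_one₀ (inv_ne_zero h0)]
  field_simp

end mat

end Pool.Agent.R787.Oper
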