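import Pool.Agent.R787.OpTrans

/-!
# Uniform smallness implies Anosov
-/

set_option autoImplicit false

open UpperHalfPlane Matrix MatrixGroups Module NormedSpace

namespace Pool.Agent.R787.Oper

lemma exp_finite {𝔸 : Type*} [NormedRing 𝔸] [NormedAlgebra ℂ 𝔸] [CompleteSpace 𝔸] {X : 𝔸} {N : ℕ}
    (h : X ^ N = 0) (κ : ℂ) : exp (κ • X) =
      ∑ n ∈ Finset.range N, (κ ^ n / (n.factorial : ℂ)) • X ^ n := by
  rw [NormedSpace.exp_eq_tsum ℂ]
  simp only
  rw [tsum_eq_sum (s := Finset.range N)]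
  · refine Finset.sum_congr rfl fun n _ => ?_
    rw [smul_pow, smul_smul, div_eq_inv_mul]
  · intro n hn
    rw [Finset.mem_range, not_lt] at hn
    rw [smul_pow, pow_eq_zero_of_le hn h]
    simp

/-- coordinate subspaces -/
def coordSub {ι : Type*} [Fintype ι] (A : ι → Prop) : Submodule ℂ (EuclideanSpace ℂ ι) where
  carrier := {x | ∀ j, A j → x j = 0}
  add_mem' := by
    intro x y hx hy j hj
    rw [PiLp.add_apply, hx j hj, hy j hj, add_zero]
  zero_mem' := by intro j _; simp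
  smul_mem' := by
    intro c x hx j hj
    rw [PiLp.smul_apply, hx j hj, smul_zero]

lemma mem_coordSub {ι : Type*} [Fintype ι] (A : ι → Prop) (x : EuclideanSpace ℂ ι) :
    x ∈ coordSub A ↔ ∀ j, A j → x j = 0 := Iff.rfl

open Classical in
lemma finrank_coordSub {ι : Type*} [Fintype ι] (A : ι → Prop) :
    finrank ℂ (coordSub A) = Fintype.card {j // ¬ A j} := by
  have e : coordSub A ≃ₗ[ℂ] ({j // ¬ A j} → ℂ) :=
    { toFun := fun x j => x.1 j.1
      map_add' := fun x y => rfl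
      map_smul' := fun c x => rfl
      invFun := fun f => ⟨WithLp.toLp 2 fun j => if h : ¬ A j then f ⟨j, h⟩ else 0, by
        intro j hj
        simp [hj]⟩
      left_inv := by
        intro x
        ext j
        by_cases h : A j
        · simp [h, x.2 j h]
        · simp [h]
      right_inv := by
        intro f
        ext j
        simp [j.2] }
  rw [e.finrank_eq, Module.finrank_fintype_fun_eq_card]

lemma card_neg (m : ℕ) : ∑ j : Fin (2 * m + 1), (if (m : ℤ) < ((j : ℕ) : ℤ) then 1 else 0) = m := by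
  rw [Fin.sum_univ_eq_sum_range (fun j : ℕ => if (m : ℤ) < (j : ℤ) then 1 else 0) (2 * m + 1)]
  rw [Finset.sum_ite, Finset.sum_const_zero, add_zero, Finset.sum_const, smul_eq_mul, mul_one]
  have : (Finset.range (2 * m + 1)).filter (fun j : ℕ => (m : ℤ) < (j : ℤ)) =
      Finset.Ioc m (2 * m) := by
    ext j
    rw [Finset.mem_filter, Finset.mem_range, Finset.mem_Ioc]
    omega
  rw [this, Nat.card_Ioc]
  omega

variable {𝔤 : Type*} [LieRing 𝔤] [LieAlgebra ℂ 𝔤] [FiniteDimensional ℂ 𝔤]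

namespace PrincipalData

lemma card_idx (D : PrincipalData 𝔤) : Fintype.card D.Idx =
    2 * ∑ i, D.m i + LieAlgebra.rank ℂ 𝔤 := by
  rw [Fintype.card_sigma]
  simp only [Fintype.card_fin]
  rw [Finset.sum_add_distrib, ← Finset.mul_sum]
  simp

open Classical in
lemma card_wt_neg (D : PrincipalData 𝔤) : Fintype.card {p : D.Idx // ¬ (0 ≤ D.wt p)} =
    ∑ i, D.m i := by
  rw [Fintype.card_subtype, Finset.card_filter, Fintype.sum_sigma]
  refine Finset.sum_congr rfl fun i _ => ?_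
  conv_rhs => rw [← card_neg (D.m i)]
  refine Finset.sum_congr rfl fun j _ => ?_
  refine if_congr ?_ rfl rfl
  rw [wt]
  simp only
  omega

open Classical in
lemma card_wt_pos (D : PrincipalData 𝔤) : Fintype.card {p : D.Idx // ¬ (D.wt p < 0)} +
    ∑ i, D.m i = Fintype.card D.Idx := by
  rw [← card_wt_neg D]
  have h := Fintype.card_subtype_compl (fun p : D.Idx => D.wt p < 0)
  have h2 := Fintype.card_subtype_le (fun p : D.Idx => D.wt p < 0)
  have h3 : Fintype.card {p : D.Idx // ¬ (0 ≤ D.wt p)} = Fintype.card {p : D.Idx // D.wt p < 0} :=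
    Fintype.card_congr (Equiv.subtypeEquivRight fun p => not_le)
  rw [h3, h]
  omega

lemma finrank_eq (D : PrincipalData 𝔤) : finrank ℂ 𝔤 = Fintype.card D.Idx := by
  rw [Module.finrank_eq_card_basis D.basis]

lemma Φ_expE (D : PrincipalData 𝔤) (κ : ℂ) (x : 𝔤) :
    D.Φ (expE D κ x) = exp (κ • D.sys.X) (D.Φ x) := by
  have hN : D.sys.X ^ (finrank ℂ 𝔤) = 0 := by
    apply D.ext'
    intro u
    have h1 : ∀ n x, (D.sys.X ^ n) (D.Φ x) = D.Φ (((LieAlgebra.ad ℂ 𝔤 D.e) ^ n) x) := by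
      intro n
      induction n with
      | zero => intro x; simp
      | succ n ih =>
        intro x
        rw [pow_succ, pow_succ, mul_apply_eq_comp, Module.End.mul_apply, ← ih]
        congr 1
        exact D.toE_apply _ x
    rw [h1, ad_e_pow]
    simp
  have h1 : ∀ n x, (D.sys.X ^ n) (D.Φ x) = D.Φ (((LieAlgebra.ad ℂ 𝔤 D.e) ^ n) x) := by
    intro n
    induction n with
    | zero => intro x; simp
    | succ n ih =>
      intro x
      rw [pow_succ, pow_succ, mul_apply_eq_comp, Module.End.mul_apply, ← ih]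
      congr 1
      exact D.toE_apply _ x
  have h2 := exp_finite hN κ
  have h3 : exp (κ • D.sys.X) = ∑ n ∈ Finset.range (finrank ℂ 𝔤),
    (κ ^ n / (n.factorial : ℂ)) • D.sys.X ^ n := h2
  rw [h3, _root_.sum_apply, expE, LinearMap.sum_apply, map_sum]
  refine Finset.sum_congr rfl fun n _ => ?_
  change D.Φ ((κ ^ n / (n.factorial : ℂ)) • ((LieAlgebra.ad ℂ 𝔤 D.e) ^ n) x) =
    (κ ^ n / (n.factorial : ℂ)) • (D.sys.X ^ n) (D.Φ x)
  rw [map_smul, h1]

lemma Φ_autFactor (D : PrincipalData 𝔤) (g : SL(2, ℝ)) (z : ℂ) (x : 𝔤) :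
    D.Φ (autFactor D g z x) = JE D.sys g z (D.Φ x) := by
  rw [autFactor, LinearMap.comp_apply, Φ_expE, Φ_tor]
  rfl

lemma Φ_conn (D : PrincipalData 𝔤) (α : Fin (LieAlgebra.rank ℂ 𝔤) → ℂ → ℂ) (z : ℂ) (x : 𝔤) :
    D.Φ ⁅conn D α z, x⁆ = D.sys.F (D.Φ x) + ∑ i, α i z • D.sys.A i (D.Φ x) := by
  have h1 : D.sys.F (D.Φ x) = D.Φ ⁅D.f, x⁆ := D.toE_apply _ x
  have h2 : ∀ i, D.sys.A i (D.Φ x) = D.Φ ⁅D.E i, x⁆ := fun i => D.toE_apply _ x
  simp only [h1, h2]
  rw [conn, add_lie, map_add, sum_lie, map_sum]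
  congr 1
  refine Finset.sum_congr rfl fun i _ => ?_
  rw [smul_lie, map_smul]

lemma wt_or (D : PrincipalData 𝔤) (p : D.Idx) : 0 ≤ D.wt p ∨ D.wt p ≤ -2 := by
  rw [wt]; omega

/-- the vector-valued differential equation from the scalar ones -/
lemma hasDerivAt_Φ (D : PrincipalData 𝔤) {y : ℂ → 𝔤} {y' : 𝔤} {z : ℂ}
    (h : ∀ φ : Module.Dual ℂ 𝔤, HasDerivAt (fun w => φ (y w)) (φ y') z) :
    HasDerivAt (fun w => D.Φ (y w)) (D.Φ y') z := by
  have h1 : HasDerivAt (fun w => WithLp.ofLp (D.Φ (y w))) (WithLp.ofLp (D.Φ y')) z := by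
    rw [hasDerivAt_pi]
    intro p
    exact h (D.basis.coord p)
  exact ((PiLp.continuousLinearEquiv 2 ℂ (fun _ : D.Idx => ℂ)).symm.hasFDerivAt).comp_hasDerivAt z h1

end PrincipalData

lemma exists_hermNorm_bound (D : PrincipalData 𝔤) {n : ℕ} (b : Basis (Fin n) ℂ 𝔤) :
    ∃ K : ℝ, 0 < K ∧ ∀ x, hermNorm b x ≤ K * ‖D.Φ x‖ ∧ ‖D.Φ x‖ ≤ K * hermNorm b x := by
  set e : 𝔤 ≃ₗ[ℂ] EuclideanSpace ℂ (Fin n) :=
    b.equivFun.trans (WithLp.linearEquiv 2 ℂ (Fin n → ℂ)).symm with he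
  set T : EuclideanSpace ℂ D.Idx →L[ℂ] EuclideanSpace ℂ (Fin n) :=
    LinearMap.toContinuousLinearMap (e.toLinearMap ∘ₗ D.Φ.symm.toLinearMap) with hT
  set T' : EuclideanSpace ℂ (Fin n) →L[ℂ] EuclideanSpace ℂ D.Idx :=
    LinearMap.toContinuousLinearMap (D.Φ.toLinearMap ∘ₗ e.symm.toLinearMap) with hT'
  have h1 : ∀ x, T (D.Φ x) = e x := by
    intro x
    change e (D.Φ.symm (D.Φ x)) = _
    rw [LinearEquiv.symm_apply_apply]
  have h2 : ∀ x, T' (e x) = D.Φ x := by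
    intro x
    change D.Φ (e.symm (e x)) = _
    rw [LinearEquiv.symm_apply_apply]
  have h3 : ∀ x, hermNorm b x = ‖e x‖ := fun x => rfl
  refine ⟨max ‖T‖ ‖T'‖ + 1, by positivity, fun x => ⟨?_, ?_⟩⟩
  · rw [h3, ← h1]
    refine (ContinuousLinearMap.le_opNorm _ _).trans ?_
    gcongr
    linarith [le_max_left ‖T‖ ‖T'‖]
  · rw [h3]
    conv_lhs => rw [← h2]
    refine (ContinuousLinearMap.le_opNorm _ _).trans ?_
    gcongr
    linarith [le_max_right ‖T‖ ‖T'‖]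

theorem anosov (D : PrincipalData 𝔤) : ∃ ε : ℝ, 0 < ε ∧
    ∀ (Γ : Subgroup SL(2, ℝ)) [DiscreteTopology Γ], IsCocompact Γ →
    ∀ α : Fin (LieAlgebra.rank ℂ 𝔤) → ℂ → ℂ,
    (∀ i, ∀ z : ℍ, hypNorm (D.m i + 1) (α i) z ≤ ε) →
    ∀ ρ : Γ →* (𝔤 ≃ₗ[ℂ] 𝔤), IsHolonomy D Γ α ρ → IsDeltaAnosov Γ ρ := by
  obtain ⟨ε, hε, K, hK, H⟩ := growth_hol D.sys D.wt_or
  refine ⟨ε, hε, fun Γ _ hΓ α hα ρ hρ => ?_⟩
  obtain ⟨S, hS1, hS2, hS3⟩ := exists_generating Γ hΓ
  refine ⟨S, hS1, hS2, fun n b => ?_⟩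
  obtain ⟨K', hK', hb⟩ := exists_hermNorm_bound D b
  obtain ⟨Y, hY1, hY2, hY3⟩ := hρ
  refine ⟨Real.exp (-1) / (K' ^ 4 * K ^ 2), by positivity, 1 / 2, by norm_num, fun γ => ?_⟩
  have hα' : ∀ i, ∀ z : ℍ, ‖α i z‖ * z.im ^ (D.sys.m i + 1) ≤ ε := by
    intro i z
    refine le_trans ?_ (hα i z)
    rw [hypNorm]
    have hm : D.sys.m i = D.m i := rfl
    rw [hm]
    gcongr
    have : (1 : ℝ) ≤ √2 := by rw [Real.one_le_sqrt]; norm_num
    nlinarith [z.im_pos]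
  obtain ⟨P, Q, hP, hQ, H'⟩ := H α hα' (γ : SL(2, ℝ))
  set eQ : 𝔤 ≃ₗ[ℂ] EuclideanSpace ℂ D.Idx := D.Φ.trans (LinearEquiv.ofBijective Q hQ) with heQ
  set eP : 𝔤 ≃ₗ[ℂ] EuclideanSpace ℂ D.Idx :=
    ((ρ γ).trans D.Φ).trans (LinearEquiv.ofBijective P hP) with heP
  set V : Submodule ℂ 𝔤 := (coordSub fun p => 0 ≤ D.wt p).map eQ.symm.toLinearMap with hV
  set W : Submodule ℂ 𝔤 := (coordSub fun p => D.wt p < 0).map eP.symm.toLinearMap with hW
  have hVr : finrank ℂ V = ∑ i, D.m i := by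
    rw [hV, LinearEquiv.finrank_map_eq, finrank_coordSub]
    convert D.card_wt_neg
  have hWr : finrank ℂ W + ∑ i, D.m i = Fintype.card D.Idx := by
    rw [hW, LinearEquiv.finrank_map_eq, finrank_coordSub]
    convert D.card_wt_pos
  refine ⟨V, W, ?_, ?_, ?_⟩
  · rw [hVr, D.finrank_eq, D.card_idx]
  · rw [hVr, D.finrank_eq]; omega
  intro v hv w hw
  set d := dist UpperHalfPlane.I ((γ : SL(2, ℝ)) • UpperHalfPlane.I) with hd
  have hode : ∀ x : 𝔤, ∀ z : ℍ, HasDerivAt (fun w => D.Φ (Y w x))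
      (-(D.sys.F (D.Φ (Y z x)) + ∑ i, α i z • D.sys.A i (D.Φ (Y z x)))) (z : ℂ) := by
    intro x z
    rw [← D.Φ_conn, ← map_neg]
    apply D.hasDerivAt_Φ
    intro φ
    rw [map_neg]
    exact hY2 z x φ
  have hval : ∀ x : 𝔤, D.Φ (Y (((γ : SL(2, ℝ)) • UpperHalfPlane.I : ℍ) : ℂ) (ρ γ x)) =
      JE D.sys (γ : SL(2, ℝ)) Complex.I (D.Φ x) := by
    intro x
    have := hY3 γ UpperHalfPlane.I x
    rw [this, UpperHalfPlane.coe_I, hY1, LinearMap.id_apply, D.Φ_autFactor]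
  have hYI : ∀ x, D.Φ (Y Complex.I x) = D.Φ x := fun x => by rw [hY1, LinearMap.id_apply]
  have hv' : ∀ p, 0 ≤ D.wt p → (Q (D.Φ v)) p = 0 := by
    rw [hV, Submodule.mem_map] at hv
    obtain ⟨u, hu, rfl⟩ := hv
    intro p hp
    have : Q (D.Φ (eQ.symm.toLinearMap u)) = u := eQ.apply_symm_apply u
    rw [this]
    exact hu p hp
  have hw' : ∀ p, D.wt p < 0 → (P (D.Φ (ρ γ w))) p = 0 := by
    rw [hW, Submodule.mem_map] at hw
    obtain ⟨u, hu, rfl⟩ := hw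
    intro p hp
    have : P (D.Φ (ρ γ (eP.symm.toLinearMap u))) = u := eP.apply_symm_apply u
    rw [this]
    exact hu p hp
  have b1 := (H' (fun z => D.Φ (Y z (ρ γ w))) (hode (ρ γ w)) (D.Φ w) (hval w)).1 (by
    simp only [hYI]; exact hw')
  have b2 := (H' (fun z => D.Φ (Y z (ρ γ v))) (hode (ρ γ v)) (D.Φ v) (hval v)).2 hv'
  simp only [hYI] at b1 b2
  have hlen := hS3 γ
  rw [← hd] at hlen
  have e1 : Real.exp (1 / 2 * (wordLen S γ : ℝ)) * (Real.exp (-1) *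
      (Real.exp (d / 4) * Real.exp (-(3 / 4 * d)))) ≤ 1 := by
    rw [← Real.exp_add, ← Real.exp_add, ← Real.exp_add]
    rw [Real.exp_le_one_iff]
    linarith
  have hnn : ∀ x, 0 ≤ hermNorm b x := fun x => norm_nonneg _
  have c1 : hermNorm b (ρ γ w) * hermNorm b v ≤ (K' * ‖D.Φ (ρ γ w)‖) * (K' * ‖D.Φ v‖) :=
    mul_le_mul (hb _).1 (hb _).1 (hnn _) (by positivity)
  have c2 : (K' * ‖D.Φ (ρ γ w)‖) * (K' * ‖D.Φ v‖) ≤
      (K' * (K * Real.exp (d / 4) * (K' * hermNorm b w))) *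
        (K' * (K * Real.exp (-(3 / 4 * d)) * (K' * hermNorm b (ρ γ v)))) := by
    gcongr
    · have := hnn w
      positivity
    · refine b1.trans ?_
      gcongr
      exact (hb _).2
    · refine b2.trans ?_
      gcongr
      exact (hb _).2
  have hww := hnn w
  have hvv := hnn (ρ γ v)
  calc Real.exp (-1) / (K' ^ 4 * K ^ 2) * Real.exp (1 / 2 * (wordLen S γ : ℝ)) *
        (hermNorm b (ρ γ w) * hermNorm b v)
      ≤ Real.exp (-1) / (K' ^ 4 * K ^ 2) * Real.exp (1 / 2 * (wordLen S γ : ℝ)) *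
        ((K' * (K * Real.exp (d / 4) * (K' * hermNorm b w))) *
        (K' * (K * Real.exp (-(3 / 4 * d)) * (K' * hermNorm b (ρ γ v))))) :=
        mul_le_mul_of_nonneg_left (c1.trans c2) (by positivity)
    _ = (Real.exp (1 / 2 * (wordLen S γ : ℝ)) * (Real.exp (-1) *
      (Real.exp (d / 4) * Real.exp (-(3 / 4 * d))))) * (hermNorm b (ρ γ v) * hermNorm b w) := by
        field_simp
    _ ≤ 1 * (hermNorm b (ρ γ v) * hermNorm b w) := by gcongr
    _ = _ := one_mul _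

end Pool.Agent.R787.Oper
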