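import Mathlib

/-!
# Opers on closed Riemann surfaces and Anosov holonomy: definitions
-/

set_option autoImplicit false

open UpperHalfPlane Matrix MatrixGroups Module

namespace Pool.Agent.R787.Oper

/-- Principal data of a complex Lie algebra `𝔤`: a principal `sl₂`-triple `h, e, f`, together with
the decomposition of `𝔤` under it into `l = rank 𝔤` irreducible summands of highest weights `2 m i`
(the `m i` are the exponents), with highest weight vectors `E i`.  The `E i` span the centralizer of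
`e`, and `f + span E` is the Kostant slice. -/
structure PrincipalData (𝔤 : Type*) [LieRing 𝔤] [LieAlgebra ℂ 𝔤] [FiniteDimensional ℂ 𝔤] where
  /-- the neutral element of the principal triple -/
  h : 𝔤
  /-- the principal nilpotent element -/
  e : 𝔤
  /-- the opposite principal nilpotent element -/
  f : 𝔤
  triple : IsSl2Triple h e f
  /-- the exponents -/
  m : Fin (LieAlgebra.rank ℂ 𝔤) → ℕ
  /-- the highest weight vectors -/
  E : Fin (LieAlgebra.rank ℂ 𝔤) → 𝔤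
  lie_e_E : ∀ i, ⁅e, E i⁆ = 0
  lie_h_E : ∀ i, ⁅h, E i⁆ = (2 * (m i : ℂ)) • E i
  /-- the strings through the highest weight vectors form a basis -/
  basis : Basis (Σ i, Fin (2 * m i + 1)) ℂ 𝔤
  basis_apply : ∀ i j, basis ⟨i, j⟩ = ((LieAlgebra.ad ℂ 𝔤 f) ^ (j : ℕ)) (E i)

variable {𝔤 : Type*} [LieRing 𝔤] [LieAlgebra ℂ 𝔤] [FiniteDimensional ℂ 𝔤]

/-- The grading torus: `t ^ (ad h)`, that is multiplication by `t ^ k` on the eigenspace of
`ad h` of eigenvalue `k`. The basis vector `(ad f)^j (E i)` has eigenvalue `2 m i - 2 j`. -/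
noncomputable def tor (D : PrincipalData 𝔤) (t : ℂ) : 𝔤 →ₗ[ℂ] 𝔤 :=
  D.basis.constr ℂ fun p => (t ^ (2 * (D.m p.1 : ℤ) - 2 * ((p.2 : ℕ) : ℤ))) • D.basis p

/-- `exp (κ ad e)`; the sum is the full exponential series, since `ad e` is nilpotent. -/
noncomputable def expE (D : PrincipalData 𝔤) (κ : ℂ) : 𝔤 →ₗ[ℂ] 𝔤 :=
  ∑ n ∈ Finset.range (finrank ℂ 𝔤),
    (κ ^ n / (n.factorial : ℂ)) • (LieAlgebra.ad ℂ 𝔤 D.e) ^ n

/-- The image of the matrix with rows `(c z + d, c)`, `(0, (c z + d)⁻¹)` under the principal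
embedding, in the adjoint representation: the factor of automorphy by which `g` with lower row
`(c, d)` acts on the oper bundle of the projective structure of the upper half plane. -/
noncomputable def autFactor (D : PrincipalData 𝔤) (g : SL(2, ℝ)) (z : ℂ) : 𝔤 →ₗ[ℂ] 𝔤 :=
  expE D (((g 1 0 : ℝ) : ℂ) * (((g 1 0 : ℝ) : ℂ) * z + ((g 1 1 : ℝ) : ℂ))) ∘ₗ
    tor D (((g 1 0 : ℝ) : ℂ) * z + ((g 1 1 : ℝ) : ℂ))

/-- A tuple of holomorphic differentials: `α i` is (the lift to the upper half plane of) a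
holomorphic section of `K ^ (m i + 1)` over the quotient by `Γ`. -/
structure IsDifferentials (D : PrincipalData 𝔤) (Γ : Subgroup SL(2, ℝ))
    (α : Fin (LieAlgebra.rank ℂ 𝔤) → ℂ → ℂ) : Prop where
  holo : ∀ i, DifferentiableOn ℂ (α i) {z | 0 < z.im}
  auto : ∀ i, ∀ γ ∈ Γ, ∀ z : ℍ, α i ((γ • z : ℍ) : ℂ) =
    (((γ 1 0 : ℝ) : ℂ) * z + ((γ 1 1 : ℝ) : ℂ)) ^ (2 * (D.m i + 1)) * α i z

/-- The pointwise norm of a differential of degree `k` for the hyperbolic metric of curvature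
`-2`, that is `|dz|² / (2 y²)`. -/
noncomputable def hypNorm (k : ℕ) (a : ℂ → ℂ) (z : ℍ) : ℝ := ‖a z‖ * (√2 * z.im) ^ k

/-- The value at `z` of the oper connection form `f + ∑ α i E i` in the uniformizing coordinate. -/
noncomputable def conn (D : PrincipalData 𝔤) (α : Fin (LieAlgebra.rank ℂ 𝔤) → ℂ → ℂ) (z : ℂ) : 𝔤 :=
  D.f + ∑ i, α i z • D.E i

/-- `ρ` is the holonomy (in the adjoint representation) of the oper
`d + (f + ∑ α i E i) dz` on the quotient by `Γ`: with `Y` the fundamental system of flat sections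
normalized at the base point `i`, the flat section with initial value `v` is continued to the
one with initial value `ρ γ v`. -/
def IsHolonomy (D : PrincipalData 𝔤) (Γ : Subgroup SL(2, ℝ))
    (α : Fin (LieAlgebra.rank ℂ 𝔤) → ℂ → ℂ) (ρ : Γ →* (𝔤 ≃ₗ[ℂ] 𝔤)) : Prop :=
  ∃ Y : ℂ → 𝔤 →ₗ[ℂ] 𝔤, Y Complex.I = LinearMap.id ∧
    (∀ z : ℍ, ∀ v : 𝔤, ∀ φ : Module.Dual ℂ 𝔤,
      HasDerivAt (fun w : ℂ => φ (Y w v)) (-φ ⁅conn D α z, Y z v⁆) (z : ℂ)) ∧
    ∀ γ : Γ, ∀ z : ℍ, ∀ v : 𝔤,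
      Y (((γ : SL(2, ℝ)) • z : ℍ) : ℂ) (ρ γ v) = autFactor D (γ : SL(2, ℝ)) z (Y z v)

/-- Word length with respect to a set. -/
noncomputable def wordLen {G : Type*} [Group G] (S : Set G) (g : G) : ℕ :=
  sInf {n | ∃ l : List G, l.length = n ∧ (∀ x ∈ l, x ∈ S ∨ x⁻¹ ∈ S) ∧ l.prod = g}

/-- The Hermitian norm for which `b` is orthonormal. -/
noncomputable def hermNorm {n : ℕ} (b : Basis (Fin n) ℂ 𝔤) (x : 𝔤) : ℝ :=
  ‖WithLp.toLp 2 (b.equivFun x)‖

/-- `ρ` (a representation into the adjoint group, given in the adjoint representation) is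
`Δ`-Anosov: for a finite generating set `S` of `Γ`, for every Hermitian norm on `𝔤`, the
ratio of the `N`-th and the `(N+1)`-st singular values of `ρ γ` is at least
`C * exp (c * |γ|)`, where `N = (dim 𝔤 - rank 𝔤) / 2` is the number of positive roots.
The two singular values are expressed through the min-max principle. -/
def IsDeltaAnosov (Γ : Subgroup SL(2, ℝ)) (ρ : Γ →* (𝔤 ≃ₗ[ℂ] 𝔤)) : Prop :=
  ∃ S : Set Γ, S.Finite ∧ Subgroup.closure S = ⊤ ∧
    ∀ (n : ℕ) (b : Basis (Fin n) ℂ 𝔤), ∃ C : ℝ, 0 < C ∧ ∃ c : ℝ, 0 < c ∧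
      ∀ γ : Γ, ∃ V W : Submodule ℂ 𝔤,
        2 * finrank ℂ V + LieAlgebra.rank ℂ 𝔤 = finrank ℂ 𝔤 ∧
        finrank ℂ V + finrank ℂ W = finrank ℂ 𝔤 ∧
        ∀ v ∈ V, ∀ w ∈ W,
          C * Real.exp (c * wordLen S γ) * (hermNorm b (ρ γ w) * hermNorm b v) ≤
            hermNorm b (ρ γ v) * hermNorm b w

/-- The quotient of the upper half plane by `Γ` is compact. -/
def IsCocompact (Γ : Subgroup SL(2, ℝ)) : Prop :=
  ∃ K : Set ℍ, IsCompact K ∧ ∀ z : ℍ, ∃ γ ∈ Γ, γ • z ∈ K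

end Pool.Agent.R787.Oper
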