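import Mathlib

/-!
# Linear holomorphic differential equations on the disc and on the upper half plane
-/

set_option autoImplicit false

open Metric

namespace Pool.Agent.R787.Oper

variable {G : Type*} [NormedAddCommGroup G] [NormedSpace ℂ G] [CompleteSpace G]

theorem ode_disc (T : ℂ → G →L[ℂ] G) (hT : DifferentiableOn ℂ T (ball 0 1)) (g0 : G) :
    ∃ f : ℂ → G, f 0 = g0 ∧ ∀ w ∈ ball (0 : ℂ) 1, HasDerivAt f (T w (f w)) w := by
  have step : ∀ h : ℂ → G, DifferentiableOn ℂ h (ball 0 1) →
      ∃ k : ℂ → G, k 0 = 0 ∧ ∀ w ∈ ball (0 : ℂ) 1, HasDerivAt k (T w (h w)) w := by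
    intro h hh
    exact (hT.clm_apply hh).isExactOn_ball.with_val_at 0 0
  choose! nx hnx1 hnx2 using step
  have hnx3 : ∀ h : ℂ → G, DifferentiableOn ℂ h (ball 0 1) →
      DifferentiableOn ℂ (nx h) (ball 0 1) := fun h hh w hw =>
    (hnx2 h hh w hw).differentiableAt.differentiableWithinAt
  set g : ℕ → ℂ → G := fun n => nx^[n] (fun _ => g0) with hg
  have hgs : ∀ n, g (n + 1) = nx (g n) := fun n => Function.iterate_succ_apply' _ _ _
  have hgd : ∀ n, DifferentiableOn ℂ (g n) (ball 0 1) := by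
    intro n
    induction n with
    | zero => exact differentiableOn_const _
    | succ n ih => rw [hgs]; exact hnx3 _ ih
  have hg0 : ∀ n, g (n + 1) 0 = 0 := fun n => by rw [hgs]; exact hnx1 _ (hgd n)
  have hg1 : ∀ n, ∀ w ∈ ball (0 : ℂ) 1, HasDerivAt (g (n + 1)) (T w (g n w)) w := fun n w hw => by
    rw [hgs]; exact hnx2 _ (hgd n) w hw
  refine ⟨fun w => ∑' n, g n w, ?_, ?_⟩
  · simp only
    rw [tsum_eq_single 0]
    · rfl
    · intro n hn
      obtain ⟨m, rfl⟩ := Nat.exists_eq_succ_of_ne_zero hn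
      exact hg0 m
  intro w₀ hw₀
  rw [mem_ball_zero_iff] at hw₀
  obtain ⟨r, hr0, hr1⟩ := exists_between hw₀
  have hrp : 0 < r := (norm_nonneg _).trans_lt hr0
  obtain ⟨M, hM⟩ : ∃ M, ∀ w ∈ closedBall (0 : ℂ) r, ‖T w‖ ≤ M :=
    (isCompact_closedBall (0 : ℂ) r).exists_bound_of_continuousOn
      (hT.continuousOn.mono (closedBall_subset_ball hr1))
  have hM0 : 0 ≤ M := (norm_nonneg _).trans (hM 0 (mem_closedBall_self hrp.le))
  have bound : ∀ n, ∀ w ∈ closedBall (0 : ℂ) r,
      ‖g n w‖ ≤ ‖g0‖ * (M * ‖w‖) ^ n / (n.factorial : ℝ) := by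
    intro n
    induction n with
    | zero => intro w _; simp [hg]
    | succ n ih =>
      intro w hw
      rw [mem_closedBall_zero_iff] at hw
      have hw' : ∀ x ∈ Set.Icc (0 : ℝ) 1, ‖(x : ℂ) * w‖ = x * ‖w‖ := by
        intro x hx
        rw [norm_mul, Complex.norm_real, Real.norm_eq_abs, abs_of_nonneg hx.1]
      have hwr : ∀ x ∈ Set.Icc (0 : ℝ) 1, ‖(x : ℂ) * w‖ ≤ r := by
        intro x hx
        rw [hw' x hx]
        nlinarith [norm_nonneg w, hx.1, hx.2]
      have hd : ∀ x ∈ Set.Icc (0 : ℝ) 1, HasDerivAt (fun x : ℝ => g (n + 1) ((x : ℂ) * w))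
          (w • T ((x : ℂ) * w) (g n ((x : ℂ) * w))) x := by
        intro x hx
        have h1 := hg1 n ((x : ℂ) * w) (by
          rw [mem_ball_zero_iff]; exact (hwr x hx).trans_lt hr1)
        have h2 : HasDerivAt (fun x : ℝ => (x : ℂ) * w) w x := by
          have := (Complex.ofRealCLM.hasDerivAt (x := x)).mul_const w
          simpa using this
        exact HasDerivAt.scomp (g₁ := g (n + 1)) (h := fun x : ℝ => (x : ℂ) * w) x h1 h2
      have hB : ∀ x : ℝ, HasDerivAt (fun x : ℝ => ‖g0‖ * (M * (x * ‖w‖)) ^ (n + 1) /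
          ((n + 1).factorial : ℝ)) (‖g0‖ * ((M * (x * ‖w‖)) ^ n * (M * ‖w‖)) /
          (n.factorial : ℝ)) x := by
        intro x
        have h1 : HasDerivAt (fun x : ℝ => M * (x * ‖w‖)) (M * ‖w‖) x := by
          have := ((hasDerivAt_id x).mul_const ‖w‖).const_mul M
          simpa using this
        have h2 := ((h1.pow (n + 1)).const_mul ‖g0‖).div_const ((n + 1).factorial : ℝ)
        convert! h2 using 1
        rw [Nat.factorial_succ]
        push_cast
        have : (n.factorial : ℝ) ≠ 0 := by exact_mod_cast n.factorial_ne_zero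
        have : (n : ℝ) + 1 ≠ 0 := by positivity
        try simp only [Nat.add_sub_cancel]
        field_simp
      have := image_norm_le_of_norm_deriv_right_le_deriv_boundary
        (f := fun x : ℝ => g (n + 1) ((x : ℂ) * w))
        (f' := fun x : ℝ => w • T ((x : ℂ) * w) (g n ((x : ℂ) * w))) (a := 0) (b := 1)
        (fun x hx => (hd x hx).continuousAt.continuousWithinAt)
        (fun x hx => (hd x (Set.Ico_subset_Icc_self hx)).hasDerivWithinAt)
        (B := fun x : ℝ => ‖g0‖ * (M * (x * ‖w‖)) ^ (n + 1) / ((n + 1).factorial : ℝ))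
        (B' := fun x : ℝ => ‖g0‖ * ((M * (x * ‖w‖)) ^ n * (M * ‖w‖)) / (n.factorial : ℝ))
        (by simp [hg0]) hB (by
          intro x hx
          have hx' := Set.Ico_subset_Icc_self hx
          have h1 := ih ((x : ℂ) * w) (by rw [mem_closedBall_zero_iff]; exact hwr x hx')
          have h2 := hM ((x : ℂ) * w) (by rw [mem_closedBall_zero_iff]; exact hwr x hx')
          rw [norm_smul]
          calc ‖w‖ * ‖T ((x : ℂ) * w) (g n ((x : ℂ) * w))‖ ≤
              ‖w‖ * (‖T ((x : ℂ) * w)‖ * ‖g n ((x : ℂ) * w)‖) := by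
                gcongr; exact ContinuousLinearMap.le_opNorm _ _
            _ ≤ ‖w‖ * (M * (‖g0‖ * (M * ‖(x : ℂ) * w‖) ^ n / (n.factorial : ℝ))) := by gcongr
            _ = _ := by rw [hw' x hx']; ring)
      have h1 := this (Set.right_mem_Icc.2 zero_le_one)
      simpa using h1
  have bound2 : ∀ n, ∀ w ∈ closedBall (0 : ℂ) r, ‖g n w‖ ≤ ‖g0‖ * (M ^ n / (n.factorial : ℝ)) := by
    intro n w hw
    refine (bound n w hw).trans ?_
    rw [mem_closedBall_zero_iff] at hw
    rw [mul_div_assoc]
    gcongr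
    have : ‖w‖ ≤ 1 := hw.trans hr1.le
    nlinarith
  have hsum : Summable fun n : ℕ => M * (‖g0‖ * (M ^ n / (n.factorial : ℝ))) :=
    ((Real.summable_pow_div_factorial M).mul_left _).mul_left _
  have hsum2 : Summable fun n : ℕ => ‖g0‖ * (M ^ n / (n.factorial : ℝ)) :=
    (Real.summable_pow_div_factorial M).mul_left _
  have hgsum : ∀ w ∈ closedBall (0 : ℂ) r, Summable fun n => g n w := fun w hw =>
    Summable.of_norm_bounded hsum2 fun n => bound2 n w hw
  have hder := hasDerivAt_tsum_of_isPreconnected (g := fun n => g (n + 1))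
    (g' := fun n w => T w (g n w)) hsum (isOpen_ball (x := (0 : ℂ)) (ε := r))
    (convex_ball _ _).isPreconnected
    (fun n w hw => hg1 n w (ball_subset_ball hr1.le hw))
    (fun n w hw => by
      have hw' := ball_subset_closedBall hw
      refine (ContinuousLinearMap.le_opNorm _ _).trans ?_
      exact mul_le_mul (hM w hw') (bound2 n w hw') (norm_nonneg _) hM0)
    (mem_ball_self hrp) (by simp [hg0]) (mem_ball_zero_iff.2 hr0)
  have hder2 := hder.const_add g0
  have e1 : ∀ w ∈ ball (0 : ℂ) r, ∑' n, g n w = g0 + ∑' n, g (n + 1) w := by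
    intro w hw
    rw [(hgsum w (ball_subset_closedBall hw)).tsum_eq_zero_add]
    rfl
  have hw₁ : w₀ ∈ ball (0 : ℂ) r := mem_ball_zero_iff.2 hr0
  have e2 : T w₀ (∑' n, g n w₀) = ∑' n, T w₀ (g n w₀) :=
    (T w₀).map_tsum (hgsum w₀ (ball_subset_closedBall hw₁))
  change HasDerivAt _ (T w₀ (∑' n, g n w₀)) w₀
  rw [e2]
  refine hder2.congr_of_eventuallyEq ?_
  filter_upwards [isOpen_ball.mem_nhds hw₁] with w hw
  exact e1 w hw

theorem ode_half (T : ℂ → G →L[ℂ] G) (hT : DifferentiableOn ℂ T {z | 0 < z.im}) (g0 : G) :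
    ∃ f : ℂ → G, f Complex.I = g0 ∧ ∀ z : ℂ, 0 < z.im → HasDerivAt f (T z (f z)) z := by
  set c : ℂ → ℂ := fun w => Complex.I * (1 + w) / (1 - w) with hc
  have h1w : ∀ w ∈ ball (0 : ℂ) 1, 1 - w ≠ 0 := by
    intro w hw h
    rw [mem_ball_zero_iff] at hw
    have : w = 1 := (sub_eq_zero.1 h).symm
    rw [this, norm_one] at hw
    exact lt_irrefl _ hw
  have hcd : ∀ w ∈ ball (0 : ℂ) 1, HasDerivAt c (2 * Complex.I / (1 - w) ^ 2) w := by
    intro w hw
    have h1 : HasDerivAt (fun w : ℂ => Complex.I * (1 + w)) Complex.I w := by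
      have := ((hasDerivAt_id w).const_add 1).const_mul Complex.I
      simpa using this
    have h2 : HasDerivAt (fun w : ℂ => 1 - w) (-1) w := by
      have := (hasDerivAt_id w).const_sub 1
      simpa using this
    have := h1.div h2 (h1w w hw)
    convert! this using 1
    have := h1w w hw
    field_simp
    ring
  have hcim : ∀ w ∈ ball (0 : ℂ) 1, 0 < (c w).im := by
    intro w hw
    have h1 := h1w w hw
    rw [mem_ball_zero_iff] at hw
    have h2 : w.re ^ 2 + w.im ^ 2 < 1 := by
      have : ‖w‖ ^ 2 < 1 := by nlinarith [norm_nonneg w]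
      rw [← Complex.normSq_eq_norm_sq, Complex.normSq_apply] at this
      nlinarith
    have h3 : 0 < Complex.normSq (1 - w) := Complex.normSq_pos.2 h1
    rw [hc]
    simp only
    rw [Complex.div_im]
    simp only [Complex.mul_im, Complex.mul_re, Complex.I_re, Complex.I_im, Complex.add_re,
      Complex.add_im, Complex.one_re, Complex.one_im, Complex.sub_re, Complex.sub_im]
    rw [← sub_div]
    apply div_pos _ h3
    nlinarith
  obtain ⟨f, hf0, hf1⟩ := ode_disc (fun w => (2 * Complex.I / (1 - w) ^ 2) • T (c w)) (by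
    refine DifferentiableOn.fun_smul ?_ ?_
    · intro w hw
      have h1 := h1w w hw
      apply DifferentiableAt.differentiableWithinAt
      fun_prop (disch := exact pow_ne_zero 2 h1)
    · exact hT.comp (fun w hw => (hcd w hw).differentiableAt.differentiableWithinAt)
        fun w hw => hcim w hw) g0
  refine ⟨fun z => f ((z - Complex.I) / (z + Complex.I)), by simp [hf0], fun z hz => ?_⟩
  have hzI : z + Complex.I ≠ 0 := by
    intro h
    have := congrArg Complex.im h
    simp at this
    linarith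
  set w := (z - Complex.I) / (z + Complex.I) with hw
  have hw1 : w ∈ ball (0 : ℂ) 1 := by
    rw [mem_ball_zero_iff, hw, norm_div, div_lt_one (by positivity)]
    rw [← sq_lt_sq₀ (norm_nonneg _) (norm_nonneg _), ← Complex.normSq_eq_norm_sq,
      ← Complex.normSq_eq_norm_sq, Complex.normSq_apply, Complex.normSq_apply]
    simp
    nlinarith
  have hdw : HasDerivAt (fun z : ℂ => (z - Complex.I) / (z + Complex.I))
      (2 * Complex.I / (z + Complex.I) ^ 2) z := by
    have := ((hasDerivAt_id z).sub_const Complex.I).div ((hasDerivAt_id z).add_const Complex.I) hzI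
    convert! this using 1
    simp only [id]
    field_simp
    ring
  have h1 := HasDerivAt.scomp (g₁ := f) (h := fun z : ℂ => (z - Complex.I) / (z + Complex.I)) z
    (hf1 w hw1) hdw
  have hne := h1w w hw1
  have hcw : c w = z := by
    rw [hc]
    simp only
    rw [div_eq_iff hne, hw]
    field_simp
    ring
  have h1w' : 1 - w = 2 * Complex.I / (z + Complex.I) := by
    rw [hw]; field_simp; ring
  rw [hcw, _root_.smul_apply, smul_smul] at h1
  have hI : Complex.I ≠ 0 := Complex.I_ne_zero
  have e : 2 * Complex.I / (z + Complex.I) ^ 2 * (2 * Complex.I / (1 - w) ^ 2) = 1 := by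
    rw [h1w']
    field_simp
  rw [e, one_smul] at h1
  exact h1

end Pool.Agent.R787.Oper
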