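import Pool.Agent.R787.OpAnosov
import Pool.Agent.R787.OpODE

/-!
# Existence of the holonomy
-/

set_option autoImplicit false

open UpperHalfPlane Matrix MatrixGroups Module NormedSpace

namespace Pool.Agent.R787.Oper

lemma isOpen_half : IsOpen {z : ℂ | 0 < z.im} := isOpen_lt continuous_const Complex.continuous_im

lemma preconn_half : IsPreconnected {z : ℂ | 0 < z.im} :=
  (convex_halfSpace_im_gt 0).isPreconnected

lemma const_half {G : Type*} [NormedAddCommGroup G] [NormedSpace ℂ G] {f : ℂ → G}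
    (hf : ∀ z : ℂ, 0 < z.im → HasDerivAt f 0 z) {z w : ℂ} (hz : 0 < z.im) (hw : 0 < w.im) :
    f z = f w :=
  isOpen_half.is_const_of_deriv_eq_zero preconn_half
    (fun z hz => (hf z hz).differentiableAt.differentiableWithinAt)
    (fun z hz => (hf z hz).deriv) hz hw

section alg

variable {𝔸 : Type*} [NormedRing 𝔸] [NormedAlgebra ℂ 𝔸] [CompleteSpace 𝔸]

lemma exists_fund (A : ℂ → 𝔸) (hA : DifferentiableOn ℂ A {z | 0 < z.im}) :
    ∃ Z W : ℂ → 𝔸, Z Complex.I = 1 ∧ W Complex.I = 1 ∧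
      (∀ z : ℂ, 0 < z.im → HasDerivAt Z (-(A z * Z z)) z) ∧
      (∀ z : ℂ, 0 < z.im → HasDerivAt W (W z * A z) z) ∧
      ∀ z : ℂ, 0 < z.im → W z * Z z = 1 := by
  obtain ⟨Z, hZ1, hZ2⟩ := ode_half (fun z => ContinuousLinearMap.mul ℂ 𝔸 (-(A z)))
    (((ContinuousLinearMap.mul ℂ 𝔸).differentiable.comp_differentiableOn hA.neg)) (1 : 𝔸)
  obtain ⟨W, hW1, hW2⟩ := ode_half (fun z => (ContinuousLinearMap.mul ℂ 𝔸).flip (A z))
    (((ContinuousLinearMap.mul ℂ 𝔸).flip.differentiable.comp_differentiableOn hA)) (1 : 𝔸)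
  have hZ3 : ∀ z : ℂ, 0 < z.im → HasDerivAt Z (-(A z * Z z)) z := fun z hz => by
    have := hZ2 z hz
    simpa using this
  have hW3 : ∀ z : ℂ, 0 < z.im → HasDerivAt W (W z * A z) z := fun z hz => by
    have := hW2 z hz
    simpa using this
  refine ⟨Z, W, hZ1, hW1, hZ3, hW3, fun z hz => ?_⟩
  have h := const_half (f := fun z => W z * Z z) (fun z hz => by
    have := (hW3 z hz).mul (hZ3 z hz)
    convert! this using 1
    rw [mul_neg, mul_assoc, add_neg_cancel]) hz (w := Complex.I) (by simp)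
  rw [h, hZ1, hW1, one_mul]

lemma abs_exp_H {X H : 𝔸} (hX : H * X - X * H = (2 : ℂ) • X) (κ : ℂ) :
    exp (κ • X) * H = (H - (2 * κ) • X) * exp (κ • X) := by
  have h := exp_intertwine X (fun t => H + (2 * t) • X) (fun _ => (2 : ℂ) • X) (fun t => by
      have h1 := (hasDerivAt_const t H).add (((hasDerivAt_id t).const_mul 2).smul_const X)
      convert! h1 using 1
      simp) (fun t => by
      have e1 : X * H = H * X - (2 : ℂ) • X := by rw [← hX]; abel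
      simp only [mul_add, add_mul, mul_smul_comm, smul_mul_assoc]
      rw [e1]
      module) κ
  simp only [mul_zero, zero_smul, add_zero] at h
  have hc : exp (κ • X) * X = X * exp (κ • X) := by
    have := exp_intertwine X (fun _ => X) (fun _ => 0) (fun t => hasDerivAt_const t _)
      (fun t => by simp) κ
    exact this
  rw [mul_add, mul_smul_comm, hc] at h
  rw [sub_mul, smul_mul_assoc, ← h]
  abel

lemma abs_exp_F' {X F H : 𝔸} (hX : H * X - X * H = (2 : ℂ) • X) (hXF : X * F - F * X = H) (κ : ℂ) :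
    exp (κ • X) * F = (F + κ • H - κ ^ 2 • X) * exp (κ • X) := by
  have := abs_exp_F hX hXF (-κ)
  simpa using this

lemma abs_exp_A' {X A : 𝔸} (h : X * A = A * X) (κ : ℂ) : exp (κ • X) * A = A * exp (κ • X) := by
  have := abs_exp_A h (-κ)
  simpa using this

end alg

variable {ι : Type*} [Fintype ι] [DecidableEq ι] {l : ℕ}

/-- the connection matrix -/
noncomputable def ESys.Am (D : ESys ι l) (a : Fin l → ℂ → ℂ) (z : ℂ) :
    EuclideanSpace ℂ ι →L[ℂ] EuclideanSpace ℂ ι := D.F + ∑ i, a i z • D.A i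

lemma ESys.Am_apply (D : ESys ι l) (a : Fin l → ℂ → ℂ) (z : ℂ) (x : EuclideanSpace ℂ ι) :
    D.Am a z x = D.F x + ∑ i, a i z • D.A i x := by
  rw [ESys.Am, _root_.add_apply, _root_.sum_apply]
  rfl

lemma hasDerivAt_moeb (g : SL(2, ℝ)) (z : ℍ) :
    HasDerivAt (fun z : ℂ => (((g 0 0 : ℝ) : ℂ) * z + ((g 0 1 : ℝ) : ℂ)) /
      (((g 1 0 : ℝ) : ℂ) * z + ((g 1 1 : ℝ) : ℂ))) ((den g z)⁻¹ ^ 2) (z : ℂ) := by
  have hden := den_ne g z
  have := (((hasDerivAt_id (z : ℂ)).const_mul ((g 0 0 : ℝ) : ℂ)).add_const ((g 0 1 : ℝ) : ℂ)).div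
    (((hasDerivAt_id (z : ℂ)).const_mul ((g 1 0 : ℝ) : ℂ)).add_const ((g 1 1 : ℝ) : ℂ)) hden
  convert! this using 1
  simp only [id]
  rw [den, eq_div_iff (pow_ne_zero 2 hden), inv_pow, inv_mul_cancel₀ (pow_ne_zero 2 hden)]
  linear_combination -(det_c g)

/-- the gauge transform of a solution is a solution along the moved path -/
theorem hasDerivAt_JE (D : ESys ι l) (g : SL(2, ℝ)) (u : ℂ → EuclideanSpace ℂ ι)
    (a : Fin l → ℂ → ℂ) (z : ℍ) (hu : HasDerivAt u (-(D.Am a z (u z))) (z : ℂ))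
    (ha : ∀ i, a i ((g • z : ℍ) : ℂ) = den g z ^ (2 * (D.m i + 1)) * a i z) :
    HasDerivAt (fun w : ℂ => JE D g w (u w))
      (-((den g z)⁻¹ ^ 2 • D.Am a ((g • z : ℍ) : ℂ) (JE D g z (u z)))) (z : ℂ) := by
  set L := den g z with hL
  have hL0 : L ≠ 0 := den_ne' g z
  set C : ℂ := ((g 1 0 : ℝ) : ℂ) with hC
  have hden : ∀ w : ℂ, HasDerivAt (den g) C w := by
    intro w
    have := ((hasDerivAt_id w).const_mul C).add_const ((g 1 1 : ℝ) : ℂ)
    convert! this using 1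
    simp
  have h4 : HasDerivAt (fun w => torE D.w (den g w))
      ((C / L) • (dop (fun j => (D.w j : ℂ)) * torE D.w L)) (z : ℂ) := by
    have h := hasDerivAt_torE D.w (f := fun w => (den g w)⁻¹) ((hden z).inv hL0)
      (inv_ne_zero hL0)
    simp only [inv_inv] at h
    convert! h using 2
    rw [← hL]
    field_simp
  have h5 := h4.clm_apply hu
  have h6 : HasDerivAt (fun w : ℂ => exp ((C * den g w) • D.X))
      ((C * C) • (D.X * exp ((C * L) • D.X))) (z : ℂ) :=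
    HasDerivAt.scomp (g₁ := fun u : ℂ => exp (u • D.X)) (h := fun w : ℂ => C * den g w) (z : ℂ)
      (hasDerivAt_expX' D.X (C * L)) ((hden z).const_mul C)
  have h7 := h6.clm_apply h5
  change HasDerivAt (fun w : ℂ => JE D g w (u w)) _ (z : ℂ) at h7
  convert! h7 using 1
  set T := exp ((C * L) • D.X) with hT
  set M := torE D.w L with hM
  have hJ : JE D g z (u z) = T (M (u z)) := rfl
  have hMF : M * D.F = L ^ (-2 : ℤ) • (D.F * M) := torE_comm D.w D.hF hL0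
  have hMA : ∀ i, M * D.A i = L ^ (2 * (D.m i : ℤ)) • (D.A i * M) := fun i =>
    torE_comm D.w (D.hA i) hL0
  have aF : ∀ x, M (D.F x) = L ^ (-2 : ℤ) • D.F (M x) := fun x =>
    congrArg (fun B : EuclideanSpace ℂ ι →L[ℂ] EuclideanSpace ℂ ι => B x) hMF
  have aA : ∀ i x, M (D.A i x) = L ^ (2 * (D.m i : ℤ)) • D.A i (M x) := fun i x =>
    congrArg (fun B : EuclideanSpace ℂ ι →L[ℂ] EuclideanSpace ℂ ι => B x) (hMA i)
  have eF : T * D.F = (D.F + (C * L) • D.H - (C * L) ^ 2 • D.X) * T :=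
    abs_exp_F' D.hX' D.hXF (C * L)
  have eH : T * D.H = (D.H - (2 * (C * L)) • D.X) * T := abs_exp_H D.hX' (C * L)
  have eA : ∀ i, T * D.A i = D.A i * T := fun i => abs_exp_A' (D.hXA i) (C * L)
  have tF : ∀ x, T (D.F x) = D.F (T x) + (C * L) • D.H (T x) - (C * L) ^ 2 • D.X (T x) := fun x =>
    congrArg (fun B : EuclideanSpace ℂ ι →L[ℂ] EuclideanSpace ℂ ι => B x) eF
  have tH : ∀ x, T (D.H x) = D.H (T x) - (2 * (C * L)) • D.X (T x) := fun x =>
    congrArg (fun B : EuclideanSpace ℂ ι →L[ℂ] EuclideanSpace ℂ ι => B x) eH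
  have tA : ∀ i x, T (D.A i x) = D.A i (T x) := fun i x =>
    congrArg (fun B : EuclideanSpace ℂ ι →L[ℂ] EuclideanSpace ℂ ι => B x) (eA i)
  have e1 : ((C * C) • (D.X * T)) (torE D.w (den g z) (u z)) = (C * C) • D.X (T (M (u z))) := rfl
  have e2 : ((C / L) • (dop (fun j => (D.w j : ℂ)) * M)) (u z) = (C / L) • D.H (M (u z)) := rfl
  rw [hJ, e1, e2, D.Am_apply, D.Am_apply]
  simp only [map_add, map_neg, map_smul, map_sum, tF, tH, tA, aF, aA, ha]
  set y := T (M (u z)) with hy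
  have hz : L ^ (-2 : ℤ) = L⁻¹ ^ 2 := by
    rw [_root_.zpow_neg, zpow_ofNat, inv_pow]
  have hS : (L⁻¹ ^ 2) • ∑ i, (L ^ (2 * (D.m i + 1)) * a i z) • D.A i y =
      ∑ i, a i z • L ^ (2 * (D.m i : ℤ)) • D.A i y := by
    rw [Finset.smul_sum]
    refine Finset.sum_congr rfl fun i _ => ?_
    rw [smul_smul, smul_smul]
    congr 1
    have : L ^ (2 * (D.m i : ℤ)) = L ^ (2 * D.m i) := by
      rw [← zpow_natCast]; push_cast; rfl
    rw [this, mul_add, pow_add, inv_pow]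
    field_simp
  rw [smul_add, hS, hz]
  have c1 : (0 : ℂ) = C * C - (C / L) * (2 * (C * L)) + L⁻¹ ^ 2 * (C * L) ^ 2 := by
    field_simp
    ring
  have c2 : (0 : ℂ) = C / L - L⁻¹ ^ 2 * (C * L) := by
    field_simp
    ring
  have z1 : (0 : EuclideanSpace ℂ ι) = (C * C - (C / L) * (2 * (C * L)) +
    L⁻¹ ^ 2 * (C * L) ^ 2) • D.X y := by rw [← c1, zero_smul]
  have z2 : (0 : EuclideanSpace ℂ ι) = (C / L - L⁻¹ ^ 2 * (C * L)) • D.H y := by
    rw [← c2, zero_smul]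
  have : ∀ x : EuclideanSpace ℂ ι, x = x + 0 + 0 := fun x => by simp
  rw [this (-(L⁻¹ ^ 2 • D.F y + ∑ i, a i z • L ^ (2 * (D.m i : ℤ)) • D.A i y))]
  nth_rewrite 1 [z1]
  rw [z2]
  module

lemma JE_one (D : ESys ι l) (z : ℂ) : JE D 1 z = 1 := by
  have h1 : den 1 z = 1 := by simp [den]
  have h0 : (((1 : SL(2, ℝ)) 1 0 : ℝ) : ℂ) = 0 := by simp
  have h2 : (0 : ℂ) • D.X = 0 := by
    ext1 x
    rw [_root_.smul_apply, zero_smul]
    rfl
  rw [JE, h1, torE_one, h0, zero_mul, h2, NormedSpace.exp_zero, mul_one]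

omit [DecidableEq ι] in
lemma comm_one {A B : EuclideanSpace ℂ ι →L[ℂ] EuclideanSpace ℂ ι} (h : A * B = 1) :
    B * A = 1 := by
  have h1 : (A : EuclideanSpace ℂ ι →ₗ[ℂ] EuclideanSpace ℂ ι) ∘ₗ
      (B : EuclideanSpace ℂ ι →ₗ[ℂ] EuclideanSpace ℂ ι) = LinearMap.id := by
    ext1 x
    exact congrArg (fun C : EuclideanSpace ℂ ι →L[ℂ] EuclideanSpace ℂ ι => C x) h
  have h2 := (LinearMap.comp_eq_id_comm ℂ (EuclideanSpace ℂ ι)).1 h1
  ext1 x
  exact congrArg (fun C : EuclideanSpace ℂ ι →ₗ[ℂ] EuclideanSpace ℂ ι => C x) h2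

theorem exists_hol (D : ESys ι l) (a : Fin l → ℂ → ℂ)
    (ha : ∀ i, DifferentiableOn ℂ (a i) {z | 0 < z.im}) (Γ : Subgroup SL(2, ℝ))
    (hauto : ∀ i, ∀ γ ∈ Γ, ∀ z : ℍ, a i ((γ • z : ℍ) : ℂ) =
      den γ z ^ (2 * (D.m i + 1)) * a i z) :
    ∃ (Z : ℂ → EuclideanSpace ℂ ι →L[ℂ] EuclideanSpace ℂ ι)
      (r : Γ →* (EuclideanSpace ℂ ι →L[ℂ] EuclideanSpace ℂ ι)), Z Complex.I = 1 ∧
      (∀ z : ℍ, HasDerivAt Z (-(D.Am a z * Z z)) (z : ℂ)) ∧
      ∀ γ : Γ, ∀ z : ℍ, Z (((γ : SL(2, ℝ)) • z : ℍ) : ℂ) * r γ =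
        JE D (γ : SL(2, ℝ)) z * Z z := by
  have hA : DifferentiableOn ℂ (D.Am a) {z | 0 < z.im} := by
    unfold ESys.Am
    refine (differentiableOn_const _).add (DifferentiableOn.fun_sum fun i _ => ?_)
    exact (ha i).smul_const _
  obtain ⟨Z, W, hZ1, hW1, hZ2, hW2, hWZ⟩ := exists_fund (D.Am a) hA
  have hZW : ∀ z : ℂ, 0 < z.im → Z z * W z = 1 := fun z hz => comm_one (hWZ z hz)
  set R : SL(2, ℝ) → ℍ → (EuclideanSpace ℂ ι →L[ℂ] EuclideanSpace ℂ ι) := fun γ z =>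
    W ((γ • z : ℍ) : ℂ) * (JE D γ z * Z z) with hR
  have hRc : ∀ γ ∈ Γ, ∀ z : ℍ, R γ z = R γ UpperHalfPlane.I := by
    intro γ hγ z
    ext1 x
    set mo : ℂ → ℂ := fun z : ℂ => (((γ 0 0 : ℝ) : ℂ) * z + ((γ 0 1 : ℝ) : ℂ)) /
      (((γ 1 0 : ℝ) : ℂ) * z + ((γ 1 1 : ℝ) : ℂ)) with hmo
    have hmz : ∀ z : ℍ, ((γ • z : ℍ) : ℂ) = mo z := fun z => coe_smul_SL γ z
    have key : ∀ z : ℂ, 0 < z.im →
        HasDerivAt (fun z : ℂ => W (mo z) (JE D γ z (Z z x))) 0 z := by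
      intro z hz
      set zh : ℍ := ⟨z, hz⟩ with hzh
      have h1 : HasDerivAt (fun z => Z z x) (-(D.Am a zh (Z zh x))) (zh : ℂ) := by
        have := (hZ2 z hz).clm_apply (hasDerivAt_const z x)
        convert! this using 1
        simp
        rfl
      have h2 := hasDerivAt_JE D γ (fun z => Z z x) a zh h1 (fun i => hauto i γ hγ zh)
      have h3 : HasDerivAt (fun z => W (mo z)) ((den γ zh)⁻¹ ^ 2 •
          (W (mo zh) * D.Am a (mo zh))) (zh : ℂ) := by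
        have h4 := hW2 (mo zh) (by rw [← hmz]; exact (γ • zh).im_pos)
        exact HasDerivAt.scomp (g₁ := W) (h := mo) (zh : ℂ) h4 (hasDerivAt_moeb γ zh)
      have h5 := h3.clm_apply h2
      have h6 : (zh : ℂ) = z := rfl
      rw [h6] at h5
      convert! h5 using 1
      have e1 : ((den γ (zh : ℂ))⁻¹ ^ 2 • (W (mo zh) * D.Am a (mo zh))) (JE D γ z (Z z x)) =
        (den γ (zh : ℂ))⁻¹ ^ 2 • W (mo zh) (D.Am a (mo zh) (JE D γ z (Z z x))) := rfl
      rw [h6] at e1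
      rw [e1, map_neg, map_smul, hmz zh, h6, add_neg_cancel]
    have := const_half key z.im_pos UpperHalfPlane.I.im_pos
    simp only [hR]
    change W _ (JE D γ z (Z z x)) = W _ (JE D γ UpperHalfPlane.I (Z UpperHalfPlane.I x))
    rw [hmz, hmz]
    exact this
  have hRm : ∀ γ ∈ Γ, ∀ δ ∈ Γ, R (γ * δ) UpperHalfPlane.I =
      R γ UpperHalfPlane.I * R δ UpperHalfPlane.I := by
    intro γ hγ δ _
    rw [← hRc γ hγ (δ • UpperHalfPlane.I)]
    simp only [hR]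
    rw [JE_mul, mul_smul]
    have h := hZW _ (δ • UpperHalfPlane.I).im_pos
    change Z ((δ • UpperHalfPlane.I : ℍ) : ℂ) * W ((δ • UpperHalfPlane.I : ℍ) : ℂ) = 1 at h
    calc _ = W ↑(γ • δ • UpperHalfPlane.I) * (JE D γ ↑(δ • UpperHalfPlane.I) * (1 *
          (JE D δ ↑UpperHalfPlane.I * Z ↑UpperHalfPlane.I))) := by rw [one_mul, mul_assoc]
      _ = _ := by rw [← h]; simp only [mul_assoc]
  refine ⟨Z, { toFun := fun γ => R γ UpperHalfPlane.I, map_one' := ?_, map_mul' := ?_ }, hZ1,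
    fun z => hZ2 z z.im_pos, ?_⟩
  · simp only [hR]
    change W (((1 : SL(2, ℝ)) • UpperHalfPlane.I : ℍ) : ℂ) *
      (JE D (1 : SL(2, ℝ)) UpperHalfPlane.I * Z UpperHalfPlane.I) = 1
    rw [one_smul, JE_one, one_mul]
    exact hWZ _ UpperHalfPlane.I.im_pos
  · intro γ δ
    exact hRm γ γ.2 δ δ.2
  · intro γ z
    change Z _ * R γ UpperHalfPlane.I = _
    rw [← hRc γ γ.2 z]
    simp only [hR]
    rw [← mul_assoc, hZW _ ((γ : SL(2, ℝ)) • z).im_pos, one_mul]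

variable {𝔤 : Type*} [LieRing 𝔤] [LieAlgebra ℂ 𝔤] [FiniteDimensional ℂ 𝔤]

theorem exists_holonomy (D : PrincipalData 𝔤) (Γ : Subgroup SL(2, ℝ))
    (α : Fin (LieAlgebra.rank ℂ 𝔤) → ℂ → ℂ) (hα : IsDifferentials D Γ α) :
    ∃ ρ : Γ →* (𝔤 ≃ₗ[ℂ] 𝔤), IsHolonomy D Γ α ρ := by
  obtain ⟨Z, r, hZ1, hZ2, hZ3⟩ := exists_hol D.sys α hα.holo Γ hα.auto
  set r' : Γ →* Module.End ℂ 𝔤 :=
    { toFun := fun γ => D.Φ.symm.toLinearMap ∘ₗ (r γ : EuclideanSpace ℂ D.Idx →ₗ[ℂ]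
        EuclideanSpace ℂ D.Idx) ∘ₗ D.Φ.toLinearMap
      map_one' := by
        rw [map_one]
        ext1 x
        change D.Φ.symm (D.Φ x) = x
        exact D.Φ.symm_apply_apply x
      map_mul' := by
        intro γ δ
        rw [map_mul]
        ext1 x
        change D.Φ.symm (r γ (r δ (D.Φ x))) = D.Φ.symm (r γ (D.Φ (D.Φ.symm (r δ (D.Φ x)))))
        rw [D.Φ.apply_symm_apply] } with hr'
  refine ⟨(LinearMap.GeneralLinearGroup.generalLinearEquiv ℂ 𝔤).toMonoidHom.comp r'.toHomUnits,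
    fun z => D.Φ.symm.toLinearMap ∘ₗ (Z z : EuclideanSpace ℂ D.Idx →ₗ[ℂ]
        EuclideanSpace ℂ D.Idx) ∘ₗ D.Φ.toLinearMap, ?_, ?_, ?_⟩
  · beta_reduce
    rw [hZ1]
    ext1 x
    change D.Φ.symm (D.Φ x) = x
    exact D.Φ.symm_apply_apply x
  · intro z v φ
    have h1 : HasDerivAt (fun w => Z w (D.Φ v)) (-(D.sys.Am α z (Z z (D.Φ v)))) (z : ℂ) := by
      have := (hZ2 z).clm_apply (hasDerivAt_const (z : ℂ) (D.Φ v))
      convert! this using 1
      simp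
    have h2 := (LinearMap.toContinuousLinearMap (φ ∘ₗ D.Φ.symm.toLinearMap)).hasFDerivAt.comp_hasDerivAt
      (z : ℂ) h1
    convert! h2 using 1
    rw [map_neg]
    congr 1
    change φ ⁅conn D α z, D.Φ.symm (Z z (D.Φ v))⁆ = φ (D.Φ.symm (D.sys.Am α z (Z z (D.Φ v))))
    congr 1
    rw [LinearEquiv.eq_symm_apply, D.Φ_conn, D.Φ.apply_symm_apply, ESys.Am_apply]
  · intro γ z v
    change D.Φ.symm (Z _ (D.Φ (D.Φ.symm (r γ (D.Φ v))))) = autFactor D γ z (D.Φ.symm (Z z (D.Φ v)))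
    rw [D.Φ.apply_symm_apply, LinearEquiv.symm_apply_eq, D.Φ_autFactor, D.Φ.apply_symm_apply]
    exact congrArg (fun C : EuclideanSpace ℂ D.Idx →L[ℂ] EuclideanSpace ℂ D.Idx => C (D.Φ v))
      (hZ3 γ z)

end Pool.Agent.R787.Oper
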