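import Pool.Agent.R787.OpAlg

/-!
# The differential equation of the frame along geodesics
-/

set_option autoImplicit false

open UpperHalfPlane Matrix MatrixGroups Module NormedSpace

namespace Pool.Agent.R787.Oper

/-- matrix form of the principal data -/
structure ESys (ι : Type*) [Fintype ι] [DecidableEq ι] (l : ℕ) where
  w : ι → ℤ
  X : EuclideanSpace ℂ ι →L[ℂ] EuclideanSpace ℂ ι
  F : EuclideanSpace ℂ ι →L[ℂ] EuclideanSpace ℂ ι
  m : Fin l → ℕ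
  A : Fin l → EuclideanSpace ℂ ι →L[ℂ] EuclideanSpace ℂ ι
  hX : dop (fun j => (w j : ℂ)) * X - X * dop (fun j => (w j : ℂ)) = ((2 : ℤ) : ℂ) • X
  hF : dop (fun j => (w j : ℂ)) * F - F * dop (fun j => (w j : ℂ)) = ((-2 : ℤ) : ℂ) • F
  hXF : X * F - F * X = dop (fun j => (w j : ℂ))
  hA : ∀ i, dop (fun j => (w j : ℂ)) * A i - A i * dop (fun j => (w j : ℂ)) =
    ((2 * (m i : ℤ) : ℤ) : ℂ) • A i
  hXA : ∀ i, X * A i = A i * X

variable {ι : Type*} [Fintype ι] [DecidableEq ι] {l : ℕ}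

/-- the diagonal operator of weights -/
noncomputable def ESys.H (D : ESys ι l) : EuclideanSpace ℂ ι →L[ℂ] EuclideanSpace ℂ ι :=
  dop (fun j => (D.w j : ℂ))

lemma ESys.hX' (D : ESys ι l) : D.H * D.X - D.X * D.H = (2 : ℂ) • D.X := by
  have := D.hX; simpa [ESys.H] using this

lemma ESys.hF' (D : ESys ι l) : D.H * D.F - D.F * D.H = (-2 : ℂ) • D.F := by
  have := D.hF; simpa [ESys.H] using this

lemma ESys.exp_F (D : ESys ι l) (κ : ℂ) : exp (κ • (-D.X)) * D.F =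
    (D.F - κ • D.H - κ ^ 2 • D.X) * exp (κ • (-D.X)) := by
  exact abs_exp_F D.hX' D.hXF κ

lemma ESys.exp_A (D : ESys ι l) (κ : ℂ) (i : Fin l) : exp (κ • (-D.X)) * D.A i =
    D.A i * exp (κ • (-D.X)) := by
  exact abs_exp_A (D.hXA i) κ

/-- conjugation taking the geodesic flow direction to diagonal form -/
lemma ESys.exp_conj (D : ESys ι l) : exp (Complex.I • D.F) * ((1 / 2 : ℂ) • D.H - Complex.I • D.F) =
    (1 / 2 : ℂ) • D.H * exp (Complex.I • D.F) := by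
  exact abs_exp_conj D.hF'

/-! ### the geodesic frame -/

/-- lower left entry of `g * dg s` -/
noncomputable def cc (g : SL(2, ℝ)) (s : ℂ) : ℂ := ((g 1 0 : ℝ) : ℂ) * Complex.exp (s / 2)

/-- lower right entry of `g * dg s` -/
noncomputable def dd (g : SL(2, ℝ)) (s : ℂ) : ℂ := ((g 1 1 : ℝ) : ℂ) * Complex.exp (-(s / 2))

/-- the denominator -/
noncomputable def lam (g : SL(2, ℝ)) (s : ℂ) : ℂ := cc g s * Complex.I + dd g s

/-- the geodesic -/
noncomputable def zz (g : SL(2, ℝ)) (s : ℂ) : ℂ :=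
  (((g 0 0 : ℝ) : ℂ) * (Complex.exp s * Complex.I) + ((g 0 1 : ℝ) : ℂ)) /
    (((g 1 0 : ℝ) : ℂ) * (Complex.exp s * Complex.I) + ((g 1 1 : ℝ) : ℂ))

lemma zz_real (g : SL(2, ℝ)) (s : ℝ) : zz g s = ((g • up s : ℍ) : ℂ) := by
  rw [coe_smul_SL, coe_up, zz, Complex.ofReal_exp]

lemma lam_eq (g : SL(2, ℝ)) (s : ℂ) : lam g s = Complex.exp (-(s / 2)) *
    (((g 1 0 : ℝ) : ℂ) * (Complex.exp s * Complex.I) + ((g 1 1 : ℝ) : ℂ)) := by
  have : Complex.exp (s / 2) = Complex.exp (-(s / 2)) * Complex.exp s := by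
    rw [← Complex.exp_add]; congr 1; ring
  rw [lam, cc, dd, this]; ring

lemma den_real_ne (g : SL(2, ℝ)) (s : ℝ) :
    ((g 1 0 : ℝ) : ℂ) * (Complex.exp s * Complex.I) + ((g 1 1 : ℝ) : ℂ) ≠ 0 := by
  have := den_ne g (up s)
  rwa [coe_up, Complex.ofReal_exp] at this

lemma lam_ne (g : SL(2, ℝ)) (s : ℝ) : lam g s ≠ 0 := by
  rw [lam_eq]
  exact mul_ne_zero (Complex.exp_ne_zero _) (den_real_ne g s)

lemma det_c (g : SL(2, ℝ)) : ((g 0 0 : ℝ) : ℂ) * ((g 1 1 : ℝ) : ℂ) -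
    ((g 0 1 : ℝ) : ℂ) * ((g 1 0 : ℝ) : ℂ) = 1 := by
  have hd := Matrix.SpecialLinearGroup.det_coe g
  rw [Matrix.det_fin_two] at hd
  exact_mod_cast hd

lemma hasDerivAt_zz (g : SL(2, ℝ)) (s : ℝ) :
    HasDerivAt (zz g) (Complex.I * (lam g s)⁻¹ ^ 2) s := by
  have hu : HasDerivAt (fun s : ℂ => Complex.exp s * Complex.I) (Complex.exp s * Complex.I) s :=
    (Complex.hasDerivAt_exp _).mul_const _
  have hden := den_real_ne g s
  have := ((hu.const_mul ((g 0 0 : ℝ) : ℂ)).add_const ((g 0 1 : ℝ) : ℂ)).div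
    ((hu.const_mul ((g 1 0 : ℝ) : ℂ)).add_const ((g 1 1 : ℝ) : ℂ)) hden
  convert! this using 1
  rw [lam_eq, inv_pow, mul_pow, ← Complex.exp_nat_mul]
  have he : Complex.exp ((2 : ℕ) * (-((s : ℂ) / 2))) = (Complex.exp s)⁻¹ := by
    rw [← Complex.exp_neg]; congr 1; push_cast; ring
  rw [he]
  have hdet := det_c g
  have hes : Complex.exp s ≠ 0 := Complex.exp_ne_zero _
  rw [mul_inv, inv_inv]
  rw [eq_div_iff (pow_ne_zero 2 hden)]
  rw [mul_assoc, mul_assoc, inv_mul_cancel₀ (pow_ne_zero 2 hden)]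
  linear_combination (-(Complex.exp s * Complex.I)) * hdet

lemma hasDerivAt_cc (g : SL(2, ℝ)) (s : ℂ) : HasDerivAt (cc g) (cc g s / 2) s := by
  have h1 : HasDerivAt (fun s : ℂ => s / 2) (1 / 2) s := (hasDerivAt_id s).div_const 2
  have := (h1.cexp).const_mul ((g 1 0 : ℝ) : ℂ)
  convert! this using 1
  rw [cc]; ring

lemma hasDerivAt_dd (g : SL(2, ℝ)) (s : ℂ) : HasDerivAt (dd g) (-(dd g s / 2)) s := by
  have h1 : HasDerivAt (fun s : ℂ => -(s / 2)) (-(1 / 2)) s := ((hasDerivAt_id s).div_const 2).neg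
  have := (h1.cexp).const_mul ((g 1 1 : ℝ) : ℂ)
  convert! this using 1
  rw [dd]; ring

lemma hasDerivAt_lam (g : SL(2, ℝ)) (s : ℂ) :
    HasDerivAt (lam g) ((cc g s * Complex.I - dd g s) / 2) s := by
  have := ((hasDerivAt_cc g s).mul_const Complex.I).add (hasDerivAt_dd g s)
  convert! this using 1
  ring

lemma hasDerivAt_kap (g : SL(2, ℝ)) (s : ℂ) :
    HasDerivAt (fun s => cc g s * lam g s) (Complex.I * cc g s ^ 2) s := by
  have := (hasDerivAt_cc g s).mul (hasDerivAt_lam g s)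
  convert! this using 1
  rw [lam]; ring

/-- the frame -/
noncomputable def fr (D : ESys ι l) (g : SL(2, ℝ)) (y : ℂ → EuclideanSpace ℂ ι) (s : ℂ) :
    EuclideanSpace ℂ ι :=
  torE D.w (lam g s)⁻¹ (exp ((cc g s * lam g s) • (-D.X)) (y (zz g s)))

theorem hasDerivAt_fr (D : ESys ι l) (g : SL(2, ℝ)) (y : ℂ → EuclideanSpace ℂ ι)
    (a : Fin l → ℂ → ℂ) (s : ℝ)
    (hy : HasDerivAt y (-(D.F (y (zz g s)) + ∑ i, a i (zz g s) • D.A i (y (zz g s)))) (zz g s)) :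
    HasDerivAt (fr D g y) ((1 / 2 : ℂ) • D.H (fr D g y s) - Complex.I • D.F (fr D g y s) -
      Complex.I • ∑ i, (a i (zz g s) * (lam g s)⁻¹ ^ (2 * (D.m i + 1))) • D.A i (fr D g y s)) s := by
  set L := lam g s with hL
  have hL0 : L ≠ 0 := lam_ne g s
  set C := cc g s with hC
  have h1 : HasDerivAt (fun s => y (zz g s)) ((Complex.I * L⁻¹ ^ 2) •
      (-(D.F (y (zz g s)) + ∑ i, a i (zz g s) • D.A i (y (zz g s))))) (s : ℂ) :=
    HasDerivAt.scomp (s : ℂ) hy (hasDerivAt_zz g s)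
  have h2 : HasDerivAt (fun s => exp ((cc g s * lam g s) • (-D.X)))
      ((Complex.I * C ^ 2) • ((-D.X) * exp ((C * L) • (-D.X)))) (s : ℂ) := by
    have h := hasDerivAt_expX' (-D.X) (cc g s * lam g s)
    exact HasDerivAt.scomp (g₁ := fun u : ℂ => exp (u • (-D.X)))
      (h := fun s => cc g s * lam g s) (s : ℂ) h (hasDerivAt_kap g s)
  have h3 := h2.clm_apply h1
  have h4 := hasDerivAt_torE D.w (hasDerivAt_lam g s) hL0
  have h5 := h4.clm_apply h3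
  change HasDerivAt (fr D g y) _ (s : ℂ) at h5
  convert! h5 using 1
  -- algebra
  set T := exp ((C * L) • (-D.X)) with hT
  set M := torE D.w L⁻¹ with hM
  set v := y (zz g s) with hv
  have hfr : fr D g y s = M (T v) := rfl
  have hMX : M * D.X = L⁻¹ ^ (2 : ℤ) • (D.X * M) := torE_comm D.w D.hX (inv_ne_zero hL0)
  have hMF : M * D.F = L⁻¹ ^ (-2 : ℤ) • (D.F * M) := torE_comm D.w D.hF (inv_ne_zero hL0)
  have hMA : ∀ i, M * D.A i = L⁻¹ ^ (2 * (D.m i : ℤ)) • (D.A i * M) := fun i =>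
    torE_comm D.w (D.hA i) (inv_ne_zero hL0)
  have hMH : M * D.H = D.H * M := by
    rw [hM, torE, ESys.H, dop_mul, dop_mul]
    congr 1; ext j; ring
  have aX : ∀ x, M (D.X x) = L⁻¹ ^ (2 : ℤ) • D.X (M x) := fun x =>
    congrArg (fun B : EuclideanSpace ℂ ι →L[ℂ] EuclideanSpace ℂ ι => B x) hMX
  have aF : ∀ x, M (D.F x) = L⁻¹ ^ (-2 : ℤ) • D.F (M x) := fun x =>
    congrArg (fun B : EuclideanSpace ℂ ι →L[ℂ] EuclideanSpace ℂ ι => B x) hMF
  have aA : ∀ i x, M (D.A i x) = L⁻¹ ^ (2 * (D.m i : ℤ)) • D.A i (M x) := fun i x =>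
    congrArg (fun B : EuclideanSpace ℂ ι →L[ℂ] EuclideanSpace ℂ ι => B x) (hMA i)
  have aH : ∀ x, M (D.H x) = D.H (M x) := fun x =>
    congrArg (fun B : EuclideanSpace ℂ ι →L[ℂ] EuclideanSpace ℂ ι => B x) hMH
  have tF : T (D.F v) = D.F (T v) - (C * L) • D.H (T v) - (C * L) ^ 2 • D.X (T v) := by
    have := congrArg (fun B : EuclideanSpace ℂ ι →L[ℂ] EuclideanSpace ℂ ι => B v)
      (D.exp_F (C * L))
    exact this
  have tA : ∀ i, T (D.A i v) = D.A i (T v) := fun i =>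
    congrArg (fun B : EuclideanSpace ℂ ι →L[ℂ] EuclideanSpace ℂ ι => B v)
      (D.exp_A (C * L) i)
  rw [hfr]
  have e1 : ((Complex.I * C ^ 2) • (-D.X * T)) v = -(Complex.I * C ^ 2) • D.X (T v) := by
    change (Complex.I * C ^ 2) • ((-D.X) (T v)) = _
    simp
  have e2 : (-((cc g s * Complex.I - dd g s) / 2 / lam g s) • (dop (fun j => (D.w j : ℂ)) *
      torE D.w (lam g s)⁻¹)) (exp ((cc g s * lam g s) • -D.X) (y (zz g s))) =
      -((C * Complex.I - dd g s) / 2 / L) • D.H (M (T v)) := rfl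
  rw [e2, e1]
  simp only [map_add, map_sub, map_neg, map_smul, smul_neg, map_sum, tF, tA, aX, aF, aA, aH]
  have hdd : dd g s = L - C * Complex.I := by rw [hL, lam]; ring
  rw [hdd]
  have hI : Complex.I * Complex.I = -1 := Complex.I_mul_I
  have cH : (1 / 2 : ℂ) = -((C * Complex.I - (L - C * Complex.I)) / 2 / L) +
      (Complex.I * L⁻¹ ^ 2) * (C * L) := by
    field_simp
    ring
  have cX : (0 : ℂ) = -(Complex.I * C ^ 2) * L⁻¹ ^ (2 : ℤ) + (Complex.I * L⁻¹ ^ 2) *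
      ((C * L) ^ 2 * L⁻¹ ^ (2 : ℤ)) := by
    rw [zpow_ofNat]
    field_simp
    ring
  have cF : -Complex.I = -((Complex.I * L⁻¹ ^ 2) * L⁻¹ ^ (-2 : ℤ)) := by
    rw [_root_.zpow_neg, zpow_ofNat]
    field_simp
  have cA : ∀ i, a i (zz g s) * L⁻¹ ^ (2 * (D.m i + 1)) = L⁻¹ ^ 2 *
      (a i (zz g s) * L⁻¹ ^ (2 * (D.m i : ℤ))) := by
    intro i
    have : L⁻¹ ^ (2 * (D.m i : ℤ)) = L⁻¹ ^ (2 * D.m i) := by
      rw [← zpow_natCast]; push_cast; rfl
    rw [this]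
    ring
  have eA : Complex.I • ∑ i, (a i (zz g s) * L⁻¹ ^ (2 * (D.m i + 1))) • D.A i (M (T v)) =
      (Complex.I * L⁻¹ ^ 2) • ∑ i, a i (zz g s) • L⁻¹ ^ (2 * (D.m i : ℤ)) • D.A i (M (T v)) := by
    rw [Finset.smul_sum, Finset.smul_sum]
    refine Finset.sum_congr rfl fun i _ => ?_
    rw [cA i]
    simp only [smul_smul]
    congr 1
    ring
  rw [eA]
  set S' := ∑ i, a i (zz g s) • L⁻¹ ^ (2 * (D.m i : ℤ)) • D.A i (M (T v)) with hS
  have hcx : (0 : EuclideanSpace ℂ ι) = (-(Complex.I * C ^ 2) * L⁻¹ ^ (2 : ℤ) + (Complex.I * L⁻¹ ^ 2) *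
      ((C * L) ^ 2 * L⁻¹ ^ (2 : ℤ))) • D.X (M (T v)) := by rw [← cX, zero_smul]
  rw [cH]
  have hcF : Complex.I • D.F (M (T v)) = ((Complex.I * L⁻¹ ^ 2) * L⁻¹ ^ (-2 : ℤ)) • D.F (M (T v)) := by
    congr 1
    linear_combination -cF
  rw [hcF]
  have : ∀ x y z : EuclideanSpace ℂ ι, x - y - z = x - y - z + 0 := fun x y z => by simp
  rw [this, hcx]
  module

end Pool.Agent.R787.Oper
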