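import Pool.Agent.R787.OpDefs

/-!
# Geometry of the upper half plane: polar decomposition, word length
-/

set_option autoImplicit false

open UpperHalfPlane Matrix MatrixGroups Module

namespace Pool.Agent.R787.Oper

/-- rotation about `i` -/
noncomputable def rot (θ : ℝ) : SL(2, ℝ) :=
  ⟨!![Real.cos θ, -Real.sin θ; Real.sin θ, Real.cos θ], by
    rw [Matrix.det_fin_two_of]; nlinarith [Real.sin_sq_add_cos_sq θ]⟩

/-- translation along the imaginary axis -/
noncomputable def dg (s : ℝ) : SL(2, ℝ) :=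
  ⟨!![Real.exp (s / 2), 0; 0, Real.exp (-(s / 2))], by
    rw [Matrix.det_fin_two_of, ← Real.exp_add]; simp⟩

/-- the point `i e^s` -/
noncomputable def up (s : ℝ) : ℍ := ⟨⟨0, Real.exp s⟩, Real.exp_pos s⟩

lemma coe_up (s : ℝ) : ((up s : ℍ) : ℂ) = (Real.exp s : ℂ) * Complex.I := by
  apply Complex.ext
  · simp [up, -Complex.ofReal_exp]
  · simp [up, -Complex.ofReal_exp]

lemma coe_smul_SL (g : SL(2, ℝ)) (z : ℍ) : ((g • z : ℍ) : ℂ) =
    (((g 0 0 : ℝ) : ℂ) * z + ((g 0 1 : ℝ) : ℂ)) / (((g 1 0 : ℝ) : ℂ) * z + ((g 1 1 : ℝ) : ℂ)) := by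
  have := UpperHalfPlane.coe_specialLinearGroup_apply (R := ℝ) g z
  simpa using this

lemma den_ne (g : SL(2, ℝ)) (z : ℍ) :
    ((g 1 0 : ℝ) : ℂ) * z + ((g 1 1 : ℝ) : ℂ) ≠ 0 := by
  intro h
  have h1 := congrArg Complex.im h
  have h2 := congrArg Complex.re h
  simp at h1 h2
  have hd := Matrix.SpecialLinearGroup.det_coe g
  rw [Matrix.det_fin_two] at hd
  have hz : z.im ≠ 0 := z.im_pos.ne'
  rcases h1 with h1 | h1
  · rw [h1] at h2 hd
    simp at h2
    rw [h2] at hd
    simp at hd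
  · exact hz h1

lemma up_zero : up 0 = UpperHalfPlane.I := by
  apply UpperHalfPlane.ext
  rw [coe_up]; simp

lemma dg_smul (s t : ℝ) : dg s • up t = up (s + t) := by
  apply UpperHalfPlane.ext
  rw [coe_smul_SL, coe_up, coe_up]
  simp only [dg, Matrix.SpecialLinearGroup.coe_mk, Matrix.of_apply, Matrix.cons_val', Matrix.cons_val_zero,
    Matrix.cons_val_one, Matrix.cons_val_fin_one, Complex.ofReal_zero, zero_mul, add_zero, zero_add]
  rw [div_eq_iff (by exact_mod_cast (Real.exp_pos _).ne')]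
  have : Real.exp (s / 2) * Real.exp t = Real.exp (s + t) * Real.exp (-(s / 2)) := by
    rw [← Real.exp_add, ← Real.exp_add]; congr 1; ring
  have h2 : (Real.exp (s / 2) : ℂ) * Real.exp t = Real.exp (s + t) * Real.exp (-(s / 2)) := by
    exact_mod_cast this
  linear_combination Complex.I * h2

lemma dist_up (s t : ℝ) : dist (up s) (up t) = |s - t| := by
  have h := UpperHalfPlane.dist_of_re_eq (z := up s) (w := up t) rfl
  rw [h, Real.dist_eq]
  have : ∀ s, (up s).im = Real.exp s := fun s => rfl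
  rw [this, this, Real.log_exp, Real.log_exp]

lemma rot_smul_I (θ : ℝ) : rot θ • UpperHalfPlane.I = UpperHalfPlane.I := by
  apply UpperHalfPlane.ext
  rw [coe_smul_SL, div_eq_iff (den_ne _ _)]
  simp only [rot, Matrix.SpecialLinearGroup.coe_mk, Matrix.of_apply, Matrix.cons_val', Matrix.cons_val_zero,
    Matrix.cons_val_one, Matrix.cons_val_fin_one, UpperHalfPlane.coe_I, Complex.ofReal_neg]
  linear_combination (-(Real.sin θ : ℂ)) * Complex.I_sq

lemma exists_polar (z : ℍ) : ∃ θ t : ℝ, 0 ≤ t ∧ z = rot θ • up t := by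
  have hzI : (z : ℂ) + Complex.I ≠ 0 := by
    intro h
    have := congrArg Complex.im h
    simp at this
    linarith [z.im_pos]
  set w : ℂ := ((z : ℂ) - Complex.I) / (z + Complex.I) with hw
  set r : ℝ := ‖w‖ with hr
  have hr0 : 0 ≤ r := norm_nonneg _
  have hr1 : r < 1 := by
    rw [hr, hw, norm_div, div_lt_one (by positivity)]
    rw [← sq_lt_sq₀ (norm_nonneg _) (norm_nonneg _), ← Complex.normSq_eq_norm_sq,
      ← Complex.normSq_eq_norm_sq, Complex.normSq_apply, Complex.normSq_apply]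
    simp
    nlinarith [z.im_pos]
  have hwz : (z : ℂ) * (1 - w) = Complex.I * (1 + w) := by
    have : w * (z + Complex.I) = z - Complex.I := by rw [hw]; field_simp
    linear_combination -this
  set φ := w.arg with hφ
  set θ : ℝ := -φ / 2 with hθ
  set t : ℝ := Real.log ((1 + r) / (1 - r)) with ht
  have h1r : 0 < 1 - r := by linarith
  have hexp : Real.exp t = (1 + r) / (1 - r) := Real.exp_log (by positivity)
  have hexp' : (Real.exp t : ℂ) * (1 - r) = 1 + r := by
    have : Real.exp t * (1 - r) = 1 + r := by rw [hexp]; field_simp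
    exact_mod_cast this
  refine ⟨θ, t, Real.log_nonneg ?_, ?_⟩
  · rw [le_div_iff₀ h1r]; linarith
  apply UpperHalfPlane.ext
  rw [coe_smul_SL, eq_div_iff (den_ne _ _), coe_up]
  simp only [rot, Matrix.SpecialLinearGroup.coe_mk, Matrix.of_apply, Matrix.cons_val', Matrix.cons_val_zero,
    Matrix.cons_val_one, Matrix.cons_val_fin_one, Complex.ofReal_neg]
  set A : ℂ := Complex.exp (θ * Complex.I) with hA
  set B : ℂ := Complex.exp (-θ * Complex.I) with hB
  have hAB : A * B = 1 := by rw [hA, hB, ← Complex.exp_add]; simp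
  have hcos : (Real.cos θ : ℂ) = (A + B) / 2 := by
    rw [Complex.ofReal_cos, Complex.cos, hA, hB]
  have hsin : (Real.sin θ : ℂ) = (B - A) * Complex.I / 2 := by
    rw [Complex.ofReal_sin, Complex.sin, hA, hB]
  have hwB : w = r * B ^ 2 := by
    rw [hB, ← Complex.exp_nat_mul]
    have : ((2 : ℕ) : ℂ) * (-(θ : ℂ) * Complex.I) = (φ : ℂ) * Complex.I := by
      rw [hθ]; push_cast; ring
    rw [this, hφ, hr]
    exact (Complex.norm_mul_exp_arg_mul_I w).symm
  have key : (z : ℂ) * (A - r * B) = Complex.I * (A + r * B) := by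
    rw [hwB] at hwz
    linear_combination A * hwz + ((z : ℂ) + Complex.I) * (r * B) * hAB
  have hr1' : ((1 : ℂ) - r) ≠ 0 := by exact_mod_cast h1r.ne'
  rw [hcos, hsin]
  apply mul_left_cancel₀ hr1'
  linear_combination (((z : ℂ) * (B - A) * Complex.I * Complex.I / 2 ) - (A + B) / 2 * Complex.I) * hexp' +
    key + ((z : ℂ) * (B - A) / 2 * (1 + r) - (1 - r) * Complex.I * 0) * Complex.I_sq

lemma dist_rot_up (θ s t : ℝ) : dist (rot θ • up s) (rot θ • up t) = |s - t| := by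
  rw [dist_smul, dist_up]

lemma dist_I_rot_up (θ t : ℝ) : dist UpperHalfPlane.I (rot θ • up t) = |t| := by
  have := dist_rot_up θ 0 t
  rw [up_zero, rot_smul_I] at this
  rw [this, zero_sub, abs_neg]

/-- polar decomposition -/
lemma exists_kak (g : SL(2, ℝ)) : ∃ (θ t : ℝ) (k : SL(2, ℝ)), 0 ≤ t ∧ g = rot θ * dg t * k ∧
    k • UpperHalfPlane.I = UpperHalfPlane.I ∧ t = dist UpperHalfPlane.I (g • UpperHalfPlane.I) := by
  obtain ⟨θ, t, ht, h⟩ := exists_polar (g • UpperHalfPlane.I)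
  refine ⟨θ, t, (rot θ * dg t)⁻¹ * g, ht, by group, ?_, ?_⟩
  · rw [mul_smul, h, inv_smul_eq_iff, mul_smul, ← up_zero, dg_smul, add_zero]
  · rw [h, dist_I_rot_up, abs_of_nonneg ht]

lemma fix_I {k : SL(2, ℝ)} (hk : k • UpperHalfPlane.I = UpperHalfPlane.I) :
    k 0 0 = k 1 1 ∧ k 0 1 = - k 1 0 := by
  have h : ((k • UpperHalfPlane.I : ℍ) : ℂ) = Complex.I := by rw [hk]; rfl
  rw [coe_smul_SL, div_eq_iff (den_ne _ _), UpperHalfPlane.coe_I] at h
  have h1 := congrArg Complex.im h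
  have h2 := congrArg Complex.re h
  simp at h1 h2
  exact ⟨h1, h2⟩

/-! ### entries are bounded by the displacement -/

lemma cosh_disp (g : SL(2, ℝ)) : Real.cosh (dist UpperHalfPlane.I (g • UpperHalfPlane.I)) =
    ((g 0 0) ^ 2 + (g 0 1) ^ 2 + (g 1 0) ^ 2 + (g 1 1) ^ 2) / 2 := by
  have hd := Matrix.SpecialLinearGroup.det_coe g
  rw [Matrix.det_fin_two] at hd
  rw [UpperHalfPlane.cosh_dist]
  have hden := den_ne g UpperHalfPlane.I
  rw [UpperHalfPlane.coe_I] at hden
  have hN : 0 < (g 1 0) ^ 2 + (g 1 1) ^ 2 := by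
    by_contra hcon
    have h1 : g 1 0 = 0 := by nlinarith [sq_nonneg (g 1 0), sq_nonneg (g 1 1)]
    have h2 : g 1 1 = 0 := by nlinarith [sq_nonneg (g 1 0), sq_nonneg (g 1 1)]
    rw [h1, h2] at hd
    simp at hd
  have hcoe : ((g • UpperHalfPlane.I : ℍ) : ℂ) =
      ⟨(g 0 0 * g 1 0 + g 0 1 * g 1 1) / ((g 1 0) ^ 2 + (g 1 1) ^ 2),
        1 / ((g 1 0) ^ 2 + (g 1 1) ^ 2)⟩ := by
    rw [coe_smul_SL, div_eq_iff (den_ne _ _), UpperHalfPlane.coe_I]
    apply Complex.ext
    · simp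
      field_simp
      linear_combination (-(g 1 0)) * hd
    · simp
      field_simp
      linear_combination (g 1 1) * hd
  have him : (g • UpperHalfPlane.I : ℍ).im = 1 / ((g 1 0) ^ 2 + (g 1 1) ^ 2) := by
    change ((g • UpperHalfPlane.I : ℍ) : ℂ).im = _
    rw [hcoe]
  have hI : (UpperHalfPlane.I).im = 1 := rfl
  rw [him, hI, Complex.dist_eq, ← Complex.normSq_eq_norm_sq, hcoe, UpperHalfPlane.coe_I,
    Complex.normSq_apply]
  simp
  field_simp
  linear_combination (-(g 0 0 * g 1 1 - g 0 1 * g 1 0 + 1)) * hd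

lemma compact_bounded (B : ℝ) : IsCompact {g : SL(2, ℝ) | ∀ i j, |g i j| ≤ B} := by
  have h1 : IsCompact {m : Matrix (Fin 2) (Fin 2) ℝ | ∀ i j, m i j ∈ Set.Icc (-B) B} := by
    have : {m : Matrix (Fin 2) (Fin 2) ℝ | ∀ i j, m i j ∈ Set.Icc (-B) B} =
        Set.pi Set.univ fun _ : Fin 2 => Set.pi Set.univ fun _ : Fin 2 => Set.Icc (-B) B := by
      ext m
      constructor
      · intro h i _ j _; exact h i j
      · intro h i j; exact h i (Set.mem_univ i) j (Set.mem_univ j)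
    rw [this]
    exact isCompact_univ_pi fun _ => isCompact_univ_pi fun _ => isCompact_Icc
  have h2 := (Matrix.SpecialLinearGroup.isClosedEmbedding_val
    (n := Fin 2) (R := ℝ)).isCompact_preimage h1
  have : {g : SL(2, ℝ) | ∀ i j, |g i j| ≤ B} =
      (fun g : SL(2, ℝ) => (g : Matrix (Fin 2) (Fin 2) ℝ)) ⁻¹'
        {m : Matrix (Fin 2) (Fin 2) ℝ | ∀ i j, m i j ∈ Set.Icc (-B) B} := by
    ext g
    constructor
    · intro h i j; exact Set.mem_Icc.2 (abs_le.1 (h i j))
    · intro h i j; exact abs_le.2 (Set.mem_Icc.1 (h i j))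
  rw [this]
  exact h2

lemma finite_bounded (G : Subgroup SL(2, ℝ)) [DiscreteTopology G] (B : ℝ) :
    {g : SL(2, ℝ) | g ∈ G ∧ ∀ i j, |g i j| ≤ B}.Finite := by
  have h1 : IsCompact {g : SL(2, ℝ) | g ∈ G ∧ ∀ i j, |g i j| ≤ B} := by
    have : {g : SL(2, ℝ) | g ∈ G ∧ ∀ i j, |g i j| ≤ B} =
        {g : SL(2, ℝ) | ∀ i j, |g i j| ≤ B} ∩ (G : Set SL(2, ℝ)) := by
      ext g; simp [and_comm]
    rw [this]
    exact (compact_bounded B).inter_right (Subgroup.isClosed_of_discrete (H := G))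
  refine h1.finite ?_
  have h2 : IsDiscrete (G : Set SL(2, ℝ)) := isDiscrete_iff_discreteTopology.2 ‹_›
  exact h2.mono fun g hg => hg.1

lemma finite_disp (G : Subgroup SL(2, ℝ)) [DiscreteTopology G] (D : ℝ) :
    {g : G | dist UpperHalfPlane.I ((g : SL(2, ℝ)) • UpperHalfPlane.I) ≤ D}.Finite := by
  have h := (finite_bounded G (2 * Real.cosh D)).preimage
    (f := fun g : G => (g : SL(2, ℝ))) (Subtype.val_injective.injOn)
  refine h.subset fun g hg => ?_
  refine ⟨g.2, ?_⟩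
  have h0 : (0 : ℝ) ≤ dist UpperHalfPlane.I ((g : SL(2, ℝ)) • UpperHalfPlane.I) := dist_nonneg
  have h1 := cosh_disp (g : SL(2, ℝ))
  have h2 : Real.cosh (dist UpperHalfPlane.I ((g : SL(2, ℝ)) • UpperHalfPlane.I)) ≤
      Real.cosh D := by
    rw [Real.cosh_le_cosh, abs_of_nonneg h0, abs_of_nonneg (h0.trans hg)]
    exact hg
  have h3 : (1 : ℝ) ≤ Real.cosh D := Real.one_le_cosh D
  intro i j
  have h4 : ((g : SL(2, ℝ)) i j) ^ 2 ≤ 2 * Real.cosh D := by
    fin_cases i <;> fin_cases j <;> simp only [Fin.zero_eta, Fin.mk_one, Fin.isValue] <;>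
      nlinarith [sq_nonneg ((g : SL(2, ℝ)) 0 0), sq_nonneg ((g : SL(2, ℝ)) 0 1),
        sq_nonneg ((g : SL(2, ℝ)) 1 0), sq_nonneg ((g : SL(2, ℝ)) 1 1)]
  apply abs_le_of_sq_le_sq _ (by positivity)
  nlinarith

/-- Word length is bounded by displacement. -/
theorem exists_generating (G : Subgroup SL(2, ℝ)) [DiscreteTopology G] (hG : IsCocompact G) :
    ∃ S : Set G, S.Finite ∧ Subgroup.closure S = ⊤ ∧ ∀ g : G,
      (wordLen S g : ℝ) ≤ dist UpperHalfPlane.I ((g : SL(2, ℝ)) • UpperHalfPlane.I) + 2 := by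
  obtain ⟨K, hK, hGK⟩ := hG
  obtain ⟨R, hR⟩ := (Metric.isBounded_iff_subset_closedBall UpperHalfPlane.I).1 hK.isBounded
  have hR' : ∀ z : ℍ, ∃ g : G, dist z ((g : SL(2, ℝ)) • UpperHalfPlane.I) ≤ R := by
    intro z
    obtain ⟨g, hg, hz⟩ := hGK z
    refine ⟨⟨g, hg⟩⁻¹, ?_⟩
    have := hR hz
    rw [Metric.mem_closedBall] at this
    rw [← dist_smul g z]
    simpa using this
  set S : Set G := {g : G | dist UpperHalfPlane.I ((g : SL(2, ℝ)) • UpperHalfPlane.I) ≤
    2 * R + 1} with hS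
  have hmemS : ∀ x : G, x ∈ S ↔ dist UpperHalfPlane.I ((x : SL(2, ℝ)) • UpperHalfPlane.I) ≤
    2 * R + 1 := fun x => Iff.rfl
  have hR0 : 0 ≤ R := by
    obtain ⟨g, hg⟩ := hR' UpperHalfPlane.I
    exact dist_nonneg.trans hg
  have key : ∀ (θ : ℝ) (j : ℕ) (s : ℝ), 0 ≤ s → s ≤ j → ∀ g : G,
      dist (rot θ • up s) ((g : SL(2, ℝ)) • UpperHalfPlane.I) ≤ R →
      ∃ l : List G, l.length = j + 1 ∧ (∀ x ∈ l, x ∈ S) ∧ l.prod = g := by
    intro θ j
    induction j with
    | zero =>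
      intro s hs hs' g hg
      have : s = 0 := le_antisymm (by simpa using hs') hs
      subst this
      rw [up_zero, rot_smul_I] at hg
      refine ⟨[g], rfl, ?_, by simp⟩
      intro x hx
      rw [List.mem_singleton] at hx
      subst hx
      rw [hmemS]
      linarith
    | succ j ih =>
      intro s hs hs' g hg
      push_cast at hs'
      set s' := max (s - 1) 0 with hs1
      obtain ⟨g', hg'⟩ := hR' (rot θ • up s')
      obtain ⟨l, hl1, hl2, hl3⟩ := ih s' (le_max_right _ _)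
        (max_le (by linarith) (Nat.cast_nonneg j)) g' hg'
      have hd : |s - s'| ≤ 1 := by
        rw [abs_le]
        constructor
        · rcases le_total (s - 1) 0 with h | h
          · rw [hs1, max_eq_right h]; linarith
          · rw [hs1, max_eq_left h]; linarith
        · have := le_max_left (s - 1) 0
          linarith
      refine ⟨l ++ [g'⁻¹ * g], by simp [hl1], ?_, by simp [hl3]⟩
      intro x hx
      rw [List.mem_append, List.mem_singleton] at hx
      rcases hx with hx | rfl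
      · exact hl2 x hx
      · rw [hmemS]
        have e1 : ((g'⁻¹ * g : G) : SL(2, ℝ)) • UpperHalfPlane.I =
            ((g' : SL(2, ℝ)))⁻¹ • ((g : SL(2, ℝ)) • UpperHalfPlane.I) := by
          rw [← mul_smul]; rfl
        rw [e1, ← dist_smul (g' : SL(2, ℝ)), smul_inv_smul]
        have h1 := dist_triangle4 ((g' : SL(2, ℝ)) • UpperHalfPlane.I) (rot θ • up s')
          (rot θ • up s) ((g : SL(2, ℝ)) • UpperHalfPlane.I)
        rw [dist_comm _ (rot θ • up s'), dist_rot_up θ s' s, abs_sub_comm] at h1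
        linarith
  have main : ∀ g : G, ∃ l : List G, (l.length : ℝ) ≤
      dist UpperHalfPlane.I ((g : SL(2, ℝ)) • UpperHalfPlane.I) + 2 ∧
      (∀ x ∈ l, x ∈ S) ∧ l.prod = g := by
    intro g
    obtain ⟨θ, t, ht, h⟩ := exists_polar ((g : SL(2, ℝ)) • UpperHalfPlane.I)
    obtain ⟨l, hl1, hl2, hl3⟩ := key θ ⌈t⌉₊ t ht (Nat.le_ceil t) g (by
      rw [h, dist_self]; exact hR0)
    refine ⟨l, ?_, hl2, hl3⟩
    rw [h, dist_I_rot_up, abs_of_nonneg ht, hl1]
    push_cast
    linarith [(Nat.ceil_lt_add_one ht).le]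
  refine ⟨S, finite_disp G _, ?_, ?_⟩
  · rw [eq_top_iff]
    intro g _
    obtain ⟨l, -, hl2, hl3⟩ := main g
    rw [← hl3]
    exact list_prod_mem fun x hx => Subgroup.subset_closure (hl2 x hx)
  · intro g
    obtain ⟨l, hl1, hl2, hl3⟩ := main g
    refine le_trans ?_ hl1
    have h : wordLen S g ≤ l.length := Nat.sInf_le ⟨l, rfl, fun x hx => Or.inl (hl2 x hx), hl3⟩
    exact_mod_cast h

end Pool.Agent.R787.Oper
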