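import Pool.Agent.R787.OpMainE

/-!
# The factor of automorphy in matrix form
-/

set_option autoImplicit false

open UpperHalfPlane Matrix MatrixGroups Module NormedSpace

namespace Pool.Agent.R787.Oper

section alg

variable {𝔸 : Type*} [NormedRing 𝔸] [NormedAlgebra ℂ 𝔸] [CompleteSpace 𝔸]

lemma exp_add_smul (X : 𝔸) (s t : ℂ) : exp ((s + t) • X) = exp (s • X) * exp (t • X) := by
  rw [add_smul, ← NormedSpace.exp_add_of_commute_of_mem_ball (𝕂 := ℂ)]
  · exact ((Commute.refl X).smul_left s).smul_right t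
  · rw [NormedSpace.expSeries_radius_eq_top]; simp
  · rw [NormedSpace.expSeries_radius_eq_top]; simp

lemma semi_exp {T X : 𝔸} {s : ℂ} (h : T * X = s • (X * T)) (κ : ℂ) :
    T * exp (κ • X) = exp ((s * κ) • X) * T := by
  set G : ℂ → 𝔸 := fun t => exp (t • (s • (-X))) * T * exp (t • X) with hG
  have hGd : ∀ t, HasDerivAt G 0 t := by
    intro t
    have := ((hasDerivAt_expX (s • (-X)) t).mul (hasDerivAt_const t T)).mul (hasDerivAt_expX' X t)
    convert! this using 1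
    simp only [Pi.mul_apply, mul_zero, add_zero]
    have e1 : exp (t • s • -X) * s • -X * T * exp (t • X) + exp (t • s • -X) * T * (X * exp (t • X)) =
        exp (t • s • -X) * (s • (-X) * T + T * X) * exp (t • X) := by noncomm_ring
    rw [e1, h]
    simp
  have hc : G κ = G 0 := is_const_of_deriv_eq_zero (fun t => (hGd t).differentiableAt)
    (fun t => (hGd t).deriv) κ 0
  have h0 : G 0 = T := by simp [hG]
  rw [h0] at hc
  have e2 : (κ • (s • (-X))) = -((s * κ) • X) := by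
    rw [smul_neg, smul_neg, smul_smul, mul_comm]
  calc T * exp (κ • X) = exp ((s * κ) • X) * exp (-((s * κ) • X)) * T * exp (κ • X) := by
        rw [exp_mul_exp_neg, one_mul]
    _ = exp ((s * κ) • X) * G κ := by
        rw [hG]; simp only; rw [e2]; noncomm_ring
    _ = _ := by rw [hc]

end alg

/-- the denominator `c z + d` -/
noncomputable def den (g : SL(2, ℝ)) (z : ℂ) : ℂ := ((g 1 0 : ℝ) : ℂ) * z + ((g 1 1 : ℝ) : ℂ)

lemma den_ne' (g : SL(2, ℝ)) (z : ℍ) : den g z ≠ 0 := den_ne g z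

lemma mul_10 (g k : SL(2, ℝ)) : (g * k) 1 0 = g 1 0 * k 0 0 + g 1 1 * k 1 0 := by
  rw [Matrix.SpecialLinearGroup.coe_mul, Matrix.mul_apply, Fin.sum_univ_two]

lemma mul_11 (g k : SL(2, ℝ)) : (g * k) 1 1 = g 1 0 * k 0 1 + g 1 1 * k 1 1 := by
  rw [Matrix.SpecialLinearGroup.coe_mul, Matrix.mul_apply, Fin.sum_univ_two]

lemma smul_den (k : SL(2, ℝ)) (z : ℍ) : ((k • z : ℍ) : ℂ) * den k z =
    ((k 0 0 : ℝ) : ℂ) * z + ((k 0 1 : ℝ) : ℂ) := by
  rw [coe_smul_SL, den, div_mul_cancel₀ _ (den_ne k z)]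

lemma den_mul (g k : SL(2, ℝ)) (z : ℍ) : den (g * k) z = den g (k • z : ℍ) * den k z := by
  have h := smul_den k z
  rw [den, den, add_mul, mul_assoc, h, den, mul_10, mul_11]
  push_cast
  ring

lemma c_mul (g k : SL(2, ℝ)) (z : ℍ) : (((g * k) 1 0 : ℝ) : ℂ) * den (g * k) z =
    ((g 1 0 : ℝ) : ℂ) * den g (k • z : ℍ) + den g (k • z : ℍ) ^ 2 *
      (((k 1 0 : ℝ) : ℂ) * den k z) := by
  have h1 := den_mul g k z
  have h2 := den_ne' k z
  have h3 : (((g * k) 1 0 : ℝ) : ℂ) * den k z = ((g 1 0 : ℝ) : ℂ) +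
      ((k 1 0 : ℝ) : ℂ) * den (g * k) z := by
    have hd := det_c k
    rw [den, den, mul_10, mul_11]
    push_cast
    linear_combination ((g 1 0 : ℝ) : ℂ) * hd
  have h4 : (((g * k) 1 0 : ℝ) : ℂ) * den (g * k) z = den g (k • z : ℍ) *
      ((((g * k) 1 0 : ℝ) : ℂ) * den k z) := by rw [h1]; ring
  rw [h4, h3, h1]
  ring

variable {ι : Type*} [Fintype ι] [DecidableEq ι] {l : ℕ}

/-- factor of automorphy -/
noncomputable def JE (D : ESys ι l) (g : SL(2, ℝ)) (z : ℂ) :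
    EuclideanSpace ℂ ι →L[ℂ] EuclideanSpace ℂ ι :=
  exp ((((g 1 0 : ℝ) : ℂ) * den g z) • D.X) * torE D.w (den g z)

/-- inverse of the factor of automorphy -/
noncomputable def JE' (D : ESys ι l) (g : SL(2, ℝ)) (z : ℂ) :
    EuclideanSpace ℂ ι →L[ℂ] EuclideanSpace ℂ ι :=
  torE D.w (den g z)⁻¹ * exp ((((g 1 0 : ℝ) : ℂ) * den g z) • (-D.X))

lemma JE'_JE (D : ESys ι l) (g : SL(2, ℝ)) (z : ℍ) (x : EuclideanSpace ℂ ι) :
    JE' D g z (JE D g z x) = x := by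
  have h : JE' D g z * JE D g z = 1 := by
    rw [JE', JE, mul_assoc, ← mul_assoc (exp _), smul_neg, exp_neg_mul_exp, one_mul, torE_mul,
      inv_mul_cancel₀ (den_ne' g z), torE_one]
  exact congrArg (fun B : EuclideanSpace ℂ ι →L[ℂ] EuclideanSpace ℂ ι => B x) h

lemma JE_JE' (D : ESys ι l) (g : SL(2, ℝ)) (z : ℍ) (x : EuclideanSpace ℂ ι) :
    JE D g z (JE' D g z x) = x := by
  have h : JE D g z * JE' D g z = 1 := by
    rw [JE', JE, mul_assoc, ← mul_assoc (torE _ _), torE_mul,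
      mul_inv_cancel₀ (den_ne' g z), torE_one, one_mul, smul_neg, exp_mul_exp_neg]
  exact congrArg (fun B : EuclideanSpace ℂ ι →L[ℂ] EuclideanSpace ℂ ι => B x) h

lemma torE_exp (D : ESys ι l) {t : ℂ} (ht : t ≠ 0) (κ : ℂ) : torE D.w t * exp (κ • D.X) =
    exp ((t ^ 2 * κ) • D.X) * torE D.w t := by
  refine semi_exp ?_ κ
  have := torE_comm D.w D.hX ht
  rw [this, zpow_ofNat]

/-- cocycle identity -/
lemma JE_mul (D : ESys ι l) (g k : SL(2, ℝ)) (z : ℍ) :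
    JE D (g * k) z = JE D g (k • z : ℍ) * JE D k z := by
  set κ₁ : ℂ := ((g 1 0 : ℝ) : ℂ) * den g (k • z : ℍ) with hκ₁
  set κ₂ : ℂ := ((k 1 0 : ℝ) : ℂ) * den k z with hκ₂
  have e1 : exp (((((g * k) 1 0 : ℝ) : ℂ) * den (g * k) z) • D.X) =
      exp (κ₁ • D.X) * exp ((den g (k • z : ℍ) ^ 2 * κ₂) • D.X) := by
    rw [c_mul]; exact exp_add_smul D.X _ _
  have e2 := torE_exp D (den_ne' g (k • z)) κ₂
  calc JE D (g * k) z = exp (κ₁ • D.X) * exp ((den g (k • z : ℍ) ^ 2 * κ₂) • D.X) *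
        (torE D.w (den g (k • z : ℍ)) * torE D.w (den k z)) := by
        rw [JE, e1, torE_mul, den_mul]
    _ = exp (κ₁ • D.X) * (exp ((den g (k • z : ℍ) ^ 2 * κ₂) • D.X) *
        torE D.w (den g (k • z : ℍ))) * torE D.w (den k z) := by simp only [mul_assoc]
    _ = _ := by rw [← e2]; simp only [JE, mul_assoc, hκ₁, hκ₂]

lemma fr_eq (D : ESys ι l) (g : SL(2, ℝ)) (y : ℂ → EuclideanSpace ℂ ι) (s : ℝ) :
    fr D g y s = JE' D (g * dg s) Complex.I (y (zz g s)) := by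
  have h1 : den (g * dg s) Complex.I = lam g s := by
    rw [den, mul_10, mul_11, lam, cc, dd]
    simp [dg]
  have h2 : (((g * dg s) 1 0 : ℝ) : ℂ) = cc g s := by
    rw [mul_10, cc]
    simp [dg]
  rw [fr, JE', h1, h2]
  rfl

lemma JE_bound (D : ESys ι l) : ∃ K : ℝ, 0 < K ∧ ∀ k : SL(2, ℝ),
    k • UpperHalfPlane.I = UpperHalfPlane.I →
    (∀ x, ‖JE D k Complex.I x‖ ≤ K * ‖x‖) ∧ (∀ x, ‖JE' D k Complex.I x‖ ≤ K * ‖x‖) := by
  obtain ⟨K1, hK1, h1⟩ := exists_exp_bound D.X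
  obtain ⟨K2, hK2, h2⟩ := exists_exp_bound (-D.X)
  refine ⟨max K1 K2, by positivity, fun k hk => ?_⟩
  obtain ⟨ha, hb⟩ := fix_I hk
  have hd := Matrix.SpecialLinearGroup.det_coe k
  rw [Matrix.det_fin_two, ha, hb] at hd
  have hden : den k Complex.I = ((k 1 0 : ℝ) : ℂ) * Complex.I + ((k 1 1 : ℝ) : ℂ) := rfl
  have hnorm : ‖den k Complex.I‖ = 1 := by
    have : ‖den k Complex.I‖ ^ 2 = 1 := by
      rw [← Complex.normSq_eq_norm_sq, hden, Complex.normSq_apply]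
      simp
      linarith
    nlinarith [norm_nonneg (den k Complex.I)]
  have hc : |k 1 0| ≤ 1 := by
    rw [abs_le_one_iff_mul_self_le_one]
    nlinarith [mul_self_nonneg (k 1 1)]
  have hκ : ‖((k 1 0 : ℝ) : ℂ) * den k Complex.I‖ ≤ 1 := by
    rw [norm_mul, hnorm, mul_one, Complex.norm_real, Real.norm_eq_abs]
    exact hc
  have htor : ∀ u : ℂ, ‖u‖ = 1 → ‖torE D.w u‖ ≤ 1 := fun u hu =>
    norm_dop_le _ zero_le_one fun j => by rw [norm_zpow, hu, _root_.one_zpow]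
  constructor
  · intro x
    refine (ContinuousLinearMap.le_opNorm _ _).trans ?_
    gcongr
    rw [JE]
    refine (norm_mul_le _ _).trans ?_
    have := mul_le_mul (h1 _ hκ) (htor _ hnorm) (norm_nonneg _) hK1.le
    exact this.trans (by rw [mul_one]; exact le_max_left _ _)
  · intro x
    refine (ContinuousLinearMap.le_opNorm _ _).trans ?_
    gcongr
    rw [JE']
    refine (norm_mul_le _ _).trans ?_
    have := mul_le_mul (htor _ (show ‖(den k Complex.I)⁻¹‖ = 1 by rw [norm_inv, hnorm, inv_one]))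
      (h2 _ hκ) (norm_nonneg _) zero_le_one
    exact this.trans (by rw [one_mul]; exact le_max_right _ _)

/-- the growth estimates in terms of the holonomy -/
theorem growth_hol (D : ESys ι l) (hw : ∀ j, 0 ≤ D.w j ∨ D.w j ≤ -2) : ∃ ε : ℝ, 0 < ε ∧
    ∃ K : ℝ, 0 < K ∧ ∀ (a : Fin l → ℂ → ℂ),
    (∀ i, ∀ z : ℍ, ‖a i z‖ * z.im ^ (D.m i + 1) ≤ ε) →
    ∀ (γ : SL(2, ℝ)), ∃ P Q : EuclideanSpace ℂ ι →ₗ[ℂ] EuclideanSpace ℂ ι,
      Function.Bijective P ∧ Function.Bijective Q ∧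
      ∀ (y : ℂ → EuclideanSpace ℂ ι),
      (∀ z : ℍ, HasDerivAt y (-(D.F (y z) + ∑ i, a i z • D.A i (y z))) (z : ℂ)) →
      ∀ v, y ((γ • UpperHalfPlane.I : ℍ) : ℂ) = JE D γ Complex.I v →
      ((∀ j, D.w j < 0 → (P (y Complex.I)) j = 0) →
        ‖y Complex.I‖ ≤ K * Real.exp (dist UpperHalfPlane.I (γ • UpperHalfPlane.I) / 4) * ‖v‖) ∧
      ((∀ j, 0 ≤ D.w j → (Q v) j = 0) →
        ‖v‖ ≤ K * Real.exp (-(3 / 4 * dist UpperHalfPlane.I (γ • UpperHalfPlane.I))) *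
          ‖y Complex.I‖) := by
  obtain ⟨K, hK, hJ⟩ := JE_bound D
  have hK0 := D.K0_nonneg
  refine ⟨1 / (8 * (D.K0 + 1)), by positivity, K * (‖D.S'‖ + 1) * ((‖D.S‖ + 1) * K), by positivity,
    fun a ha γ => ?_⟩
  obtain ⟨θ, t, k, ht, hγ, hk, hdist⟩ := exists_kak γ
  have hrot := rot_smul_I θ
  have hI : ((UpperHalfPlane.I : ℍ) : ℂ) = Complex.I := rfl
  refine ⟨((D.S * JE' D (rot θ) Complex.I : EuclideanSpace ℂ ι →L[ℂ] EuclideanSpace ℂ ι) :
      EuclideanSpace ℂ ι →ₗ[ℂ] EuclideanSpace ℂ ι),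
    ((D.S * JE D k Complex.I : EuclideanSpace ℂ ι →L[ℂ] EuclideanSpace ℂ ι) :
      EuclideanSpace ℂ ι →ₗ[ℂ] EuclideanSpace ℂ ι), ?_, ?_, ?_⟩
  · refine Function.bijective_iff_has_inverse.2 ⟨fun x => JE D (rot θ) Complex.I (D.S' x), ?_, ?_⟩
    · intro x
      change JE D (rot θ) Complex.I (D.S' (D.S (JE' D (rot θ) Complex.I x))) = x
      rw [D.S'_S, ← hI, JE_JE']
    · intro x
      change D.S (JE' D (rot θ) Complex.I (JE D (rot θ) Complex.I (D.S' x))) = x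
      rw [← hI, JE'_JE, D.S_S']
  · refine Function.bijective_iff_has_inverse.2 ⟨fun x => JE' D k Complex.I (D.S' x), ?_, ?_⟩
    · intro x
      change JE' D k Complex.I (D.S' (D.S (JE D k Complex.I x))) = x
      rw [D.S'_S, ← hI, JE'_JE]
    · intro x
      change D.S (JE D k Complex.I (JE' D k Complex.I (D.S' x))) = x
      rw [← hI, JE_JE', D.S_S']
  intro y hy v hv
  have hzt : zz (rot θ) t = ((γ • UpperHalfPlane.I : ℍ) : ℂ) := by
    rw [zz_real, hγ, mul_smul, hk, mul_smul, ← up_zero, dg_smul, add_zero]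
  have hz0 : zz (rot θ) (0 : ℝ) = Complex.I := by
    rw [zz_real, up_zero, hrot]; rfl
  have hf0 : fr D (rot θ) y (0 : ℝ) = JE' D (rot θ) Complex.I (y Complex.I) := by
    rw [fr_eq, hz0]
    have : dg 0 = 1 := by
      apply Matrix.SpecialLinearGroup.ext
      intro i j
      fin_cases i <;> fin_cases j <;> simp [dg]
    rw [this, mul_one]
  have hft : fr D (rot θ) y t = JE D k Complex.I v := by
    rw [fr_eq, hzt, hv, hγ, ← hI, JE_mul D (rot θ * dg t) k, hk]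
    change JE' D (rot θ * dg t) _ (JE D (rot θ * dg t) _ _) = _
    rw [JE'_JE]
    rfl
  have hε : (1 / (8 * (D.K0 + 1))) * D.K0 ≤ 1 / 8 := by
    rw [div_mul_eq_mul_div, one_mul, div_le_div_iff₀ (by positivity) (by norm_num)]
    linarith
  obtain ⟨g1, g2⟩ := growth D hw (rot θ) y a (by positivity) hε ha hy ht
  rw [← Complex.ofReal_zero, hf0, hft] at g1 g2
  rw [← hdist]
  obtain ⟨j1, j2⟩ := hJ (rot θ) hrot
  obtain ⟨j3, j4⟩ := hJ k hk
  have hS : ∀ x, ‖D.S x‖ ≤ (‖D.S‖ + 1) * ‖x‖ := fun x =>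
    (ContinuousLinearMap.le_opNorm _ _).trans (by gcongr; linarith)
  have hS' : ∀ x, ‖D.S' x‖ ≤ (‖D.S'‖ + 1) * ‖x‖ := fun x =>
    (ContinuousLinearMap.le_opNorm _ _).trans (by gcongr; linarith)
  constructor
  · intro h
    have h1 := g1 h
    calc ‖y Complex.I‖ = ‖JE D (rot θ) Complex.I (D.S' (D.S (JE' D (rot θ) Complex.I
          (y Complex.I))))‖ := by rw [D.S'_S, ← hI, JE_JE']
      _ ≤ K * ‖D.S' (D.S (JE' D (rot θ) Complex.I (y Complex.I)))‖ := j1 _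
      _ ≤ K * ((‖D.S'‖ + 1) * ‖D.S (JE' D (rot θ) Complex.I (y Complex.I))‖) := by
          gcongr; exact hS' _
      _ ≤ K * ((‖D.S'‖ + 1) * (Real.exp (t / 4) * ‖D.S (JE D k Complex.I v)‖)) := by gcongr
      _ ≤ K * ((‖D.S'‖ + 1) * (Real.exp (t / 4) * ((‖D.S‖ + 1) * (K * ‖v‖)))) := by
          gcongr
          refine (hS _).trans ?_
          gcongr
          exact j3 _
      _ = _ := by ring
  · intro h
    have h1 := g2 h
    calc ‖v‖ = ‖JE' D k Complex.I (D.S' (D.S (JE D k Complex.I v)))‖ := by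
          rw [D.S'_S, ← hI, JE'_JE]
      _ ≤ K * ‖D.S' (D.S (JE D k Complex.I v))‖ := j4 _
      _ ≤ K * ((‖D.S'‖ + 1) * ‖D.S (JE D k Complex.I v)‖) := by
          gcongr; exact hS' _
      _ ≤ K * ((‖D.S'‖ + 1) * (Real.exp (-(3 / 4 * t)) *
          ‖D.S (JE' D (rot θ) Complex.I (y Complex.I))‖)) := by gcongr
      _ ≤ K * ((‖D.S'‖ + 1) * (Real.exp (-(3 / 4 * t)) * ((‖D.S‖ + 1) *
          (K * ‖y Complex.I‖)))) := by
          gcongr
          refine (hS _).trans ?_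
          gcongr
          exact j2 _
      _ = _ := by ring

end Pool.Agent.R787.Oper
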