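import Pool.Agent.R787.OpFrame

/-!
# Growth estimates for the geodesic frame, in matrix form
-/

set_option autoImplicit false

open UpperHalfPlane Matrix MatrixGroups Module NormedSpace

namespace Pool.Agent.R787.Oper

lemma im_smul_SL (g : SL(2, ℝ)) (z : ℍ) : (g • z : ℍ).im =
    z.im / ‖((g 1 0 : ℝ) : ℂ) * z + ((g 1 1 : ℝ) : ℂ)‖ ^ 2 := by
  have h := coe_smul_SL g z
  have hden := den_ne g z
  have hd := Matrix.SpecialLinearGroup.det_coe g
  rw [Matrix.det_fin_two] at hd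
  have h1 : (g • z : ℍ).im = ((g • z : ℍ) : ℂ).im := rfl
  rw [h1, h, Complex.div_im, ← Complex.normSq_eq_norm_sq]
  have hn : Complex.normSq (((g 1 0 : ℝ) : ℂ) * z + ((g 1 1 : ℝ) : ℂ)) ≠ 0 := by
    rw [Ne, Complex.normSq_eq_zero]; exact hden
  have e : (z : ℂ).im = z.im := rfl
  have e' : (z : ℂ).re = z.re := rfl
  simp only [Complex.add_im, Complex.mul_im, Complex.ofReal_re, Complex.ofReal_im, Complex.add_re,
    Complex.mul_re, e, e']
  field_simp
  linear_combination z.im * hd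

lemma im_zz (g : SL(2, ℝ)) (s : ℝ) : (g • up s : ℍ).im = ‖(lam g s)⁻¹‖ ^ 2 := by
  rw [im_smul_SL, lam_eq, coe_up, norm_inv, norm_mul, Complex.ofReal_exp]
  have h1 : (up s).im = Real.exp s := rfl
  have h2 : ‖Complex.exp (-((s : ℂ) / 2))‖ = Real.exp (-(s / 2)) := by
    rw [Complex.norm_exp]; congr 1; simp
  rw [h1, h2]
  have h3 : Real.exp s = (Real.exp (-(s / 2)))⁻¹ ^ 2 := by
    rw [← Real.exp_neg, ← Real.exp_nat_mul]; congr 1; push_cast; ring
  rw [h3, mul_inv, mul_pow, inv_pow ‖_‖]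
  rfl

variable {ι : Type*} [Fintype ι] [DecidableEq ι] {l : ℕ}

/-- the conjugating operator -/
noncomputable def ESys.S (D : ESys ι l) : EuclideanSpace ℂ ι →L[ℂ] EuclideanSpace ℂ ι :=
  exp (Complex.I • D.F)

/-- its inverse -/
noncomputable def ESys.S' (D : ESys ι l) : EuclideanSpace ℂ ι →L[ℂ] EuclideanSpace ℂ ι :=
  exp (-(Complex.I • D.F))

lemma ESys.S_S' (D : ESys ι l) (x : EuclideanSpace ℂ ι) : D.S (D.S' x) = x :=
  congrArg (fun B : EuclideanSpace ℂ ι →L[ℂ] EuclideanSpace ℂ ι => B x)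
    (exp_mul_exp_neg (Complex.I • D.F))

lemma ESys.S'_S (D : ESys ι l) (x : EuclideanSpace ℂ ι) : D.S' (D.S x) = x :=
  congrArg (fun B : EuclideanSpace ℂ ι →L[ℂ] EuclideanSpace ℂ ι => B x)
    (exp_neg_mul_exp (Complex.I • D.F))

/-- the constant in the smallness condition -/
noncomputable def ESys.K0 (D : ESys ι l) : ℝ := ∑ i, ‖D.S * D.A i * D.S'‖

lemma ESys.K0_nonneg (D : ESys ι l) : 0 ≤ D.K0 := Finset.sum_nonneg fun _ _ => norm_nonneg _

theorem growth (D : ESys ι l) (hw : ∀ j, 0 ≤ D.w j ∨ D.w j ≤ -2) (g : SL(2, ℝ))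
    (y : ℂ → EuclideanSpace ℂ ι) (a : Fin l → ℂ → ℂ) {ε : ℝ} (hε : 0 < ε)
    (hεK : ε * D.K0 ≤ 1 / 8)
    (ha : ∀ i, ∀ z : ℍ, ‖a i z‖ * z.im ^ (D.m i + 1) ≤ ε)
    (hy : ∀ z : ℍ, HasDerivAt y (-(D.F (y z) + ∑ i, a i z • D.A i (y z))) (z : ℂ))
    {t : ℝ} (ht : 0 ≤ t) :
    ((∀ j, D.w j < 0 → (D.S (fr D g y 0)) j = 0) →
      ‖D.S (fr D g y 0)‖ ≤ Real.exp (t / 4) * ‖D.S (fr D g y t)‖) ∧
    ((∀ j, 0 ≤ D.w j → (D.S (fr D g y t)) j = 0) →
      ‖D.S (fr D g y t)‖ ≤ Real.exp (-(3 / 4 * t)) * ‖D.S (fr D g y 0)‖) := by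
  set v : ℝ → EuclideanSpace ℂ ι := fun s => D.S (fr D g y s) with hv
  set b : Fin l → ℝ → ℂ := fun i s => a i (zz g s) * (lam g s)⁻¹ ^ (2 * (D.m i + 1)) with hb
  set r : ℝ → EuclideanSpace ℂ ι := fun s =>
    -(Complex.I • ∑ i, b i s • (D.S * D.A i * D.S') (v s)) with hr
  have hbn : ∀ i s, ‖b i s‖ ≤ ε := by
    intro i s
    have h1 := ha i (g • up s)
    rw [im_zz, ← zz_real] at h1
    rw [hb]
    simp only
    rw [norm_mul, norm_pow, pow_mul]
    exact h1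
  have hder : ∀ s : ℝ, HasDerivAt v ((1 / 2 : ℂ) • D.H (v s) + r s) s := by
    intro s
    have h1 := hasDerivAt_fr D g y a s (by
      have := hy (g • up s)
      rwa [← zz_real] at this)
    have h2 := HasDerivAt.scomp (g₁ := fun s => D.S (fr D g y s)) (h := fun s : ℝ => (s : ℂ)) s
      (D.S.hasFDerivAt.comp_hasDerivAt (s : ℂ) h1) Complex.ofRealCLM.hasDerivAt
    convert! h2 using 1
    rw [show Complex.ofRealCLM 1 = (1 : ℂ) from Complex.ofReal_one, one_smul]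
    have hc := D.exp_conj
    have hc' : ∀ x, D.S ((1 / 2 : ℂ) • D.H x - Complex.I • D.F x) = (1 / 2 : ℂ) • D.H (D.S x) :=
      fun x => congrArg (fun B : EuclideanSpace ℂ ι →L[ℂ] EuclideanSpace ℂ ι => B x) hc
    rw [map_sub, hc', hr]
    simp only [map_smul, map_sum, mul_apply_eq_comp, hv, D.S'_S, hb]
    rw [sub_eq_add_neg]
  have hvc : ∀ (s : ℝ) (j : ι), HasDerivAt (fun s => v s j)
      ((((D.w j : ℝ) / 2 : ℝ) : ℂ) * v s j + r s j) s := by
    intro s j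
    have := hasDerivAt_coord (hder s) j
    convert! this using 1
    rw [PiLp.add_apply, PiLp.smul_apply, ESys.H, dop_apply, smul_eq_mul]
    push_cast
    ring
  have hrn : ∀ s, ‖r s‖ ≤ (ε * D.K0) * ‖v s‖ := by
    intro s
    rw [hr]
    simp only
    rw [norm_neg, norm_smul, Complex.norm_I, one_mul, ESys.K0, Finset.mul_sum, Finset.sum_mul]
    refine (norm_sum_le _ _).trans (Finset.sum_le_sum fun i _ => ?_)
    rw [norm_smul]
    calc ‖b i s‖ * ‖(D.S * D.A i * D.S') (v s)‖ ≤ ε * (‖D.S * D.A i * D.S'‖ * ‖v s‖) :=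
          mul_le_mul (hbn i s) (ContinuousLinearMap.le_opNorm _ _) (norm_nonneg _) hε.le
      _ = ε * ‖D.S * D.A i * D.S'‖ * ‖v s‖ := by ring
  obtain ⟨h1, h2⟩ := cone (fun j => (D.w j : ℝ) / 2) (fun j => by
    rcases hw j with h | h
    · left; have : (0 : ℝ) ≤ D.w j := by exact_mod_cast h
      linarith
    · right
      have : (D.w j : ℝ) ≤ -2 := by exact_mod_cast h
      linarith) hεK ht v r hvc hrn
  have hηt : (ε * D.K0) * t ≤ 1 / 8 * t := by gcongr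
  constructor
  · intro h0
    have h3 := h1 (fun j hj => h0 j (by
      have : (D.w j : ℝ) < 0 := by linarith
      exact_mod_cast this))
    rw [← sq_le_sq₀ (norm_nonneg _) (by positivity), mul_pow, ← Real.exp_nat_mul]
    have h4 : ‖v 0‖ ^ 2 ≤ Real.exp ((2 : ℕ) * (t / 4)) * ‖v t‖ ^ 2 := by
      refine h3.trans (mul_le_mul_of_nonneg_right (Real.exp_le_exp.2 ?_) (by positivity))
      push_cast
      linarith
    exact h4
  · intro h0
    have h3 := h2 (fun j hj => h0 j (by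
      have : (0 : ℝ) ≤ D.w j := by linarith
      exact_mod_cast this))
    rw [← sq_le_sq₀ (norm_nonneg _) (by positivity), mul_pow, ← Real.exp_nat_mul]
    have h4 : ‖v t‖ ^ 2 ≤ Real.exp ((2 : ℕ) * (-(3 / 4 * t))) * ‖v 0‖ ^ 2 := by
      refine h3.trans (mul_le_mul_of_nonneg_right (Real.exp_le_exp.2 ?_) (by positivity))
      push_cast
      linarith
    exact h4

end Pool.Agent.R787.Oper
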