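import Pool.Agent.R787.OpJ

/-!
# From principal data to matrices
-/

set_option autoImplicit false

open UpperHalfPlane Matrix MatrixGroups Module NormedSpace

namespace Pool.Agent.R787.Oper

variable {𝔤 : Type*} [LieRing 𝔤] [LieAlgebra ℂ 𝔤] [FiniteDimensional ℂ 𝔤]

lemma comm_pow {𝔸 : Type*} [Ring 𝔸] [Algebra ℂ 𝔸] {H X : 𝔸} (h1 : H * X - X * H = (2 : ℂ) • X)
    (N : ℕ) : H * X ^ N - X ^ N * H = ((2 * (N : ℤ) : ℤ) : ℂ) • X ^ N := by
  induction N with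
  | zero => simp
  | succ N ih =>
    have e1 : H * X ^ (N + 1) - X ^ (N + 1) * H =
        (H * X ^ N - X ^ N * H) * X + X ^ N * (H * X - X * H) := by
      rw [pow_succ]; noncomm_ring
    rw [e1, ih, h1, smul_mul_assoc, mul_smul_comm, ← pow_succ, ← add_smul]
    congr 1
    push_cast
    ring

namespace PrincipalData

/-- index set of the basis -/
abbrev Idx (D : PrincipalData 𝔤) : Type := Σ i : Fin (LieAlgebra.rank ℂ 𝔤), Fin (2 * D.m i + 1)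

/-- weights -/
def wt (D : PrincipalData 𝔤) (p : D.Idx) : ℤ := 2 * (D.m p.1 : ℤ) - 2 * ((p.2 : ℕ) : ℤ)

/-- coordinates -/
noncomputable def Φ (D : PrincipalData 𝔤) : 𝔤 ≃ₗ[ℂ] EuclideanSpace ℂ D.Idx :=
  D.basis.equivFun.trans (WithLp.linearEquiv 2 ℂ (D.Idx → ℂ)).symm

lemma Φ_apply (D : PrincipalData 𝔤) (x : 𝔤) (p : D.Idx) : D.Φ x p = D.basis.repr x p := rfl

lemma Φ_basis (D : PrincipalData 𝔤) (p : D.Idx) :
    D.Φ (D.basis p) = EuclideanSpace.single p (1 : ℂ) := by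
  ext q
  rw [Φ_apply, Basis.repr_self, PiLp.single_apply, Finsupp.single_apply]
  simp only [eq_comm]

/-- operators in coordinates -/
noncomputable def toE (D : PrincipalData 𝔤) (B : 𝔤 →ₗ[ℂ] 𝔤) :
    EuclideanSpace ℂ D.Idx →L[ℂ] EuclideanSpace ℂ D.Idx :=
  LinearMap.toContinuousLinearMap (D.Φ.toLinearMap ∘ₗ B ∘ₗ D.Φ.symm.toLinearMap)

lemma toE_apply (D : PrincipalData 𝔤) (B : 𝔤 →ₗ[ℂ] 𝔤) (x : 𝔤) : D.toE B (D.Φ x) = D.Φ (B x) := by
  change D.Φ (B (D.Φ.symm (D.Φ x))) = _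
  rw [LinearEquiv.symm_apply_apply]

lemma ext' (D : PrincipalData 𝔤) {A B : EuclideanSpace ℂ D.Idx →L[ℂ] EuclideanSpace ℂ D.Idx}
    (h : ∀ x, A (D.Φ x) = B (D.Φ x)) : A = B := by
  ext1 y
  obtain ⟨x, rfl⟩ := D.Φ.surjective y
  exact h x

lemma toE_lie (D : PrincipalData 𝔤) (x y : 𝔤) : D.toE (LieAlgebra.ad ℂ 𝔤 x) *
    D.toE (LieAlgebra.ad ℂ 𝔤 y) - D.toE (LieAlgebra.ad ℂ 𝔤 y) * D.toE (LieAlgebra.ad ℂ 𝔤 x) =
    D.toE (LieAlgebra.ad ℂ 𝔤 ⁅x, y⁆) := by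
  apply D.ext'
  intro u
  rw [_root_.sub_apply, mul_apply_eq_comp, mul_apply_eq_comp, toE_apply, toE_apply, toE_apply,
    toE_apply, toE_apply, ← map_sub]
  congr 1
  simp only [LieAlgebra.ad_apply]
  rw [lie_lie]

lemma lie_h_pow (D : PrincipalData 𝔤) (i : Fin (LieAlgebra.rank ℂ 𝔤)) (j : ℕ) :
    ⁅D.h, ((LieAlgebra.ad ℂ 𝔤 D.f) ^ j) (D.E i)⁆ =
      (2 * (D.m i : ℂ) - 2 * (j : ℂ)) • ((LieAlgebra.ad ℂ 𝔤 D.f) ^ j) (D.E i) := by
  induction j with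
  | zero => simpa using D.lie_h_E i
  | succ j ih =>
    rw [pow_succ', Module.End.mul_apply, LieAlgebra.ad_apply]
    rw [leibniz_lie, D.triple.lie_h_f_nsmul, ih]
    rw [neg_lie, nsmul_lie, lie_smul, ← Nat.cast_smul_eq_nsmul ℂ]
    push_cast
    module

lemma lie_h_basis (D : PrincipalData 𝔤) (p : D.Idx) :
    ⁅D.h, D.basis p⁆ = (D.wt p : ℂ) • D.basis p := by
  obtain ⟨i, j⟩ := p
  rw [D.basis_apply, lie_h_pow, wt]
  push_cast
  rfl

lemma dop_wt (D : PrincipalData 𝔤) : dop (fun p => (D.wt p : ℂ)) =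
    D.toE (LieAlgebra.ad ℂ 𝔤 D.h) := by
  apply op_ext
  intro p
  rw [dop_single, ← D.Φ_basis, toE_apply, LieAlgebra.ad_apply, lie_h_basis, map_smul]

lemma toE_smul (D : PrincipalData 𝔤) (c : ℂ) (B : 𝔤 →ₗ[ℂ] 𝔤) : D.toE (c • B) = c • D.toE B := by
  apply D.ext'
  intro u
  rw [_root_.smul_apply, toE_apply, toE_apply, LinearMap.smul_apply, map_smul]

/-- the matrix system -/
noncomputable def sys (D : PrincipalData 𝔤) : ESys D.Idx (LieAlgebra.rank ℂ 𝔤) where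
  w := D.wt
  X := D.toE (LieAlgebra.ad ℂ 𝔤 D.e)
  F := D.toE (LieAlgebra.ad ℂ 𝔤 D.f)
  m := D.m
  A i := D.toE (LieAlgebra.ad ℂ 𝔤 (D.E i))
  hX := by
    rw [dop_wt, toE_lie, ← toE_smul, ← map_smul]
    congr 2
    rw [D.triple.lie_h_e_nsmul, ← Nat.cast_smul_eq_nsmul ℂ]
    norm_num
  hF := by
    rw [dop_wt, toE_lie, ← toE_smul, ← map_smul]
    congr 2
    rw [D.triple.lie_h_f_nsmul, ← Nat.cast_smul_eq_nsmul ℂ]
    push_cast
    module
  hXF := by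
    rw [dop_wt, toE_lie, D.triple.lie_e_f]
  hA i := by
    rw [dop_wt, toE_lie, ← toE_smul, ← map_smul]
    congr 2
    rw [D.lie_h_E i]
    push_cast
    rfl
  hXA i := by
    have := D.toE_lie D.e (D.E i)
    rw [D.lie_e_E i, map_zero] at this
    have h0 : D.toE 0 = 0 := by
      apply D.ext'; intro u; rw [toE_apply]; simp
    rw [h0] at this
    exact sub_eq_zero.1 this

lemma Φ_tor (D : PrincipalData 𝔤) (t : ℂ) (x : 𝔤) :
    D.Φ (tor D t x) = torE D.wt t (D.Φ x) := by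
  rw [← toE_apply]
  congr 1
  apply op_ext
  intro p
  rw [← D.Φ_basis, toE_apply, torE, D.Φ_basis, dop_single, tor, Basis.constr_basis, map_smul,
    D.Φ_basis]
  rfl

lemma sys_nilp (D : PrincipalData 𝔤) : ∃ N : ℕ, D.sys.X ^ N = 0 := by
  obtain ⟨M, hM⟩ : ∃ M : ℤ, ∀ p q : D.Idx, D.wt p - D.wt q < M := by
    obtain ⟨M, hM⟩ := (Set.finite_range fun r : D.Idx × D.Idx => D.wt r.1 - D.wt r.2).bddAbove
    refine ⟨M + 1, fun p q => ?_⟩
    have := hM ⟨(p, q), rfl⟩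
    simp only at this
    omega
  have key : ∀ N : ℕ, D.sys.H * D.sys.X ^ N - D.sys.X ^ N * D.sys.H =
      ((2 * (N : ℤ) : ℤ) : ℂ) • D.sys.X ^ N :=
    fun N => comm_pow D.sys.hX' N
  refine ⟨M.toNat, ?_⟩
  apply op_ext
  intro q
  ext p
  have h := congrArg (fun A : EuclideanSpace ℂ D.Idx →L[ℂ] EuclideanSpace ℂ D.Idx =>
    (A (EuclideanSpace.single q 1)) p) (key M.toNat)
  simp only [ESys.H, _root_.sub_apply, mul_apply_eq_comp, _root_.smul_apply, dop_single, map_smul,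
    PiLp.sub_apply, PiLp.smul_apply, dop_apply, smul_eq_mul] at h
  set b := ((D.sys.X ^ M.toNat) (EuclideanSpace.single q 1)) p with hb
  have h2 : ((D.wt p : ℂ) - D.wt q - ((2 * (M.toNat : ℤ) : ℤ) : ℂ)) * b = 0 := by
    have h3 : (D.sys.w p : ℂ) = D.wt p := rfl
    have h4 : (D.sys.w q : ℂ) = D.wt q := rfl
    rw [h3, h4] at h
    linear_combination h
  rcases mul_eq_zero.1 h2 with h3 | h3
  · exfalso
    have h4 : D.wt p - D.wt q - 2 * (M.toNat : ℤ) = 0 := by exact_mod_cast h3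
    have := hM p q
    have h5 := hM p p
    simp only [sub_self] at h5
    have h6 : (M.toNat : ℤ) = M := Int.toNat_of_nonneg h5.le
    omega
  · rw [h3]; simp

lemma ad_e_pow (D : PrincipalData 𝔤) : (LieAlgebra.ad ℂ 𝔤 D.e) ^ (finrank ℂ 𝔤) = 0 := by
  obtain ⟨N, hN⟩ := D.sys_nilp
  have h1 : ∀ n x, (D.sys.X ^ n) (D.Φ x) = D.Φ (((LieAlgebra.ad ℂ 𝔤 D.e) ^ n) x) := by
    intro n
    induction n with
    | zero => intro x; simp
    | succ n ih =>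
      intro x
      rw [pow_succ, pow_succ, mul_apply_eq_comp, Module.End.mul_apply, ← ih]
      congr 1
      exact D.toE_apply _ x
  have h2 : IsNilpotent (LieAlgebra.ad ℂ 𝔤 D.e) := by
    refine ⟨N, LinearMap.ext fun x => ?_⟩
    apply D.Φ.injective
    rw [← h1, hN]; simp
  have h3 := LinearMap.aeval_self_charpoly (LieAlgebra.ad ℂ 𝔤 D.e)
  rw [IsNilpotent.charpoly_eq_X_pow_finrank h2] at h3
  simpa using h3

end PrincipalData

end Pool.Agent.R787.Oper
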